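import Mathlib
import Pool.Agent.Run7.h967.LG.React

/-!
# The reaction terms at a pair of oppositely oriented frames
-/

set_option autoImplicit false
set_option linter.all false
open scoped ContDiff Manifold Topology Matrix
open Set Filter

namespace Run7.h967.GM

open Pool.Agent.QTot Pool.Agent.H858R2 Pool.Agent.Helper696_RF Run7.h967.LG

theorem OO_det {σ x y z s : ℝ} (h : x ^ 2 + y ^ 2 + z ^ 2 = 1) (hs : s * (1 - x) = 1) :
    (OO σ x y z s).det = -σ := by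
  simp [OO, Matrix.det_succ_row_zero, Fin.sum_univ_succ]
  linear_combination σ * ((-(x * s) - 1) * h - x * (1 + x) * hs)

theorem rowB' {a b c μ : ℝ} (ha : 0 ≤ a) (hb : 0 ≤ b) (hμ : 0 ≤ μ) (hc : c ≤ μ * b)
    (h : ∀ t : ℝ, 0 ≤ t ^ 2 * a - 2 * t * b + c) : b ≤ a * μ := by
  rcases ha.eq_or_lt with h0 | h0
  · rw [← h0] at h ⊢
    rcases hb.eq_or_lt with h1 | h1
    · linarith
    · have h3 := h ((c + 1) / (2 * b))
      have h4 : 2 * ((c + 1) / (2 * b)) * b = c + 1 := by field_simp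
      nlinarith
  · have h3 := h (b / a)
    have h4 : (b / a) ^ 2 * a - 2 * (b / a) * b + c = c - b ^ 2 / a := by
      field_simp; ring
    rw [h4] at h3
    have h5 : b ^ 2 ≤ c * a := by
      have : b ^ 2 / a ≤ c := by linarith
      rwa [div_le_iff₀ h0] at this
    rcases hb.eq_or_lt with h1 | h1
    · rw [← h1]; positivity
    · have h6 : b * b ≤ b * (a * μ) := by
        have : c * a ≤ μ * b * a := mul_le_mul_of_nonneg_right hc h0.le
        nlinarith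
      exact le_of_mul_le_mul_left h6 h1

section
variable {R : T4 4} (hR : IsAlg R)
  (hmin : ∀ O : Mt 4, Oᵀ * O = 1 → O.det = 1 → iso4 vid R ≤ iso4 vid (rot R O))
include hR hmin

theorem qf_le {O : Mt 4} (hO : Oᵀ * O = 1) (hd : O.det = 1) : qf R (O * Om * Oᵀ) ≤ 8 * A11 R := by
  have h1 := hmin O hO hd
  rw [iso_rot hR hO, iso_qf hR, qf_Om hR] at h1
  have h2 : 8 * A11 R = 4 * (R 0 1 0 1 + R 2 3 2 3 + 2 * R 0 1 2 3) := by
    rw [A11]; ring
  rw [h2]
  linarith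

theorem leA {x y z : ℝ} (h : x ^ 2 + y ^ 2 + z ^ 2 = 1) :
    x ^ 2 * A11 R + y ^ 2 * A22 R + z ^ 2 * A33 R + 2 * x * y * A12 R + 2 * x * z * A13 R
      + 2 * y * z * A23 R ≤ A11 R := by
  by_cases hx : x = 1
  · have hy : y = 0 := by
      have : y ^ 2 = 0 := by nlinarith [sq_nonneg y, sq_nonneg z]
      exact pow_eq_zero_iff (two_ne_zero) |>.1 this
    have hz : z = 0 := by
      have : z ^ 2 = 0 := by nlinarith [sq_nonneg y, sq_nonneg z]
      exact pow_eq_zero_iff (two_ne_zero) |>.1 this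
    rw [hx, hy, hz]
    linarith
  · have hs : (1 - x)⁻¹ * (1 - x) = 1 := inv_mul_cancel₀ (sub_ne_zero.2 (Ne.symm hx))
    have h1 := qf_le hR hmin (OO_orth (σ := -1) (by norm_num) h hs) (by
      rw [OO_det h hs]; norm_num)
    rw [OO_WA h hs, qf_neg, qf_WA hR] at h1
    linarith

theorem A12_zero : A12 R = 0 := by
  have key : ∀ s : ℝ, 4 * s * (1 - s ^ 2) * A12 R + 4 * s ^ 2 * A22 R ≤ 4 * s ^ 2 * A11 R := by
    intro s
    have hp : (0 : ℝ) < 1 + s ^ 2 := by positivity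
    have h := leA hR hmin (x := (1 - s ^ 2) / (1 + s ^ 2)) (y := 2 * s / (1 + s ^ 2)) (z := 0)
      (by field_simp; ring)
    have h2 : ((1 - s ^ 2) / (1 + s ^ 2)) ^ 2 * A11 R + (2 * s / (1 + s ^ 2)) ^ 2 * A22 R + 0 ^ 2 * A33 R
      + 2 * ((1 - s ^ 2) / (1 + s ^ 2)) * (2 * s / (1 + s ^ 2)) * A12 R
      + 2 * ((1 - s ^ 2) / (1 + s ^ 2)) * 0 * A13 R + 2 * (2 * s / (1 + s ^ 2)) * 0 * A23 R =
      ((1 - s ^ 2) ^ 2 * A11 R + 4 * s ^ 2 * A22 R + 4 * s * (1 - s ^ 2) * A12 R) / (1 + s ^ 2) ^ 2 := by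
      field_simp; ring
    rw [h2, div_le_iff₀ (by positivity)] at h
    nlinarith
  -- `(1 - s²) A12 ≤ s (A11 - A22)` for `s > 0`, and the opposite for `s < 0`
  by_contra hne
  set D := A11 R - A22 R with hD
  rcases lt_or_gt_of_ne hne with hneg | hpos
  · -- take `s < 0` small
    obtain ⟨ε, hε0, hε1, hε2⟩ : ∃ ε : ℝ, 0 < ε ∧ ε < 1 / 2 ∧ ε * (|D| + 1) < -A12 R / 2 := by
      refine ⟨min (1 / 4) (-A12 R / 4 / (|D| + 1)), ?_, ?_, ?_⟩
      · have : 0 < -A12 R / 4 / (|D| + 1) := by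
          apply div_pos (by linarith) (by positivity)
        exact lt_min (by norm_num) this
      · exact lt_of_le_of_lt (min_le_left _ _) (by norm_num)
      · have h1 : min (1 / 4) (-A12 R / 4 / (|D| + 1)) * (|D| + 1) ≤ -A12 R / 4 / (|D| + 1) * (|D| + 1) :=
          mul_le_mul_of_nonneg_right (min_le_right _ _) (by positivity)
        rw [div_mul_cancel₀ _ (by positivity : (|D| + 1 : ℝ) ≠ 0)] at h1
        linarith
    have h := key (-ε)
    have h3 : -(4 * ε * (1 - ε ^ 2)) * A12 R ≤ 4 * ε ^ 2 * D := by rw [hD]; nlinarith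
    have h4 : (1 - ε ^ 2) * (-A12 R) ≤ ε * D := by
      have : ε * ((1 - ε ^ 2) * (-A12 R)) ≤ ε * (ε * D) := by nlinarith
      exact le_of_mul_le_mul_left this hε0
    have h5 : ε * D ≤ ε * (|D| + 1) := by
      apply mul_le_mul_of_nonneg_left _ hε0.le
      linarith [le_abs_self D]
    have h6 : (1 - ε ^ 2) * (-A12 R) ≥ 1 / 2 * (-A12 R) := by
      apply mul_le_mul_of_nonneg_right _ (by linarith)
      nlinarith
    linarith
  · obtain ⟨ε, hε0, hε1, hε2⟩ : ∃ ε : ℝ, 0 < ε ∧ ε < 1 / 2 ∧ ε * (|D| + 1) < A12 R / 2 := by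
      refine ⟨min (1 / 4) (A12 R / 4 / (|D| + 1)), ?_, ?_, ?_⟩
      · have : 0 < A12 R / 4 / (|D| + 1) := by
          apply div_pos (by linarith) (by positivity)
        exact lt_min (by norm_num) this
      · exact lt_of_le_of_lt (min_le_left _ _) (by norm_num)
      · have h1 : min (1 / 4) (A12 R / 4 / (|D| + 1)) * (|D| + 1) ≤ A12 R / 4 / (|D| + 1) * (|D| + 1) :=
          mul_le_mul_of_nonneg_right (min_le_right _ _) (by positivity)
        rw [div_mul_cancel₀ _ (by positivity : (|D| + 1 : ℝ) ≠ 0)] at h1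
        linarith
    have h := key ε
    have h4 : (1 - ε ^ 2) * (A12 R) ≤ ε * D := by
      have : ε * ((1 - ε ^ 2) * (A12 R)) ≤ ε * (ε * D) := by rw [hD]; nlinarith
      exact le_of_mul_le_mul_left this hε0
    have h5 : ε * D ≤ ε * (|D| + 1) := by
      apply mul_le_mul_of_nonneg_left _ hε0.le
      linarith [le_abs_self D]
    have h6 : (1 - ε ^ 2) * (A12 R) ≥ 1 / 2 * (A12 R) := by
      apply mul_le_mul_of_nonneg_right _ (by linarith)
      nlinarith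
    linarith

theorem A13_zero : A13 R = 0 := by
  have key : ∀ s : ℝ, 4 * s * (1 - s ^ 2) * A13 R + 4 * s ^ 2 * A33 R ≤ 4 * s ^ 2 * A11 R := by
    intro s
    have hp : (0 : ℝ) < 1 + s ^ 2 := by positivity
    have h := leA hR hmin (x := (1 - s ^ 2) / (1 + s ^ 2)) (y := 0) (z := 2 * s / (1 + s ^ 2))
      (by field_simp; ring)
    have h2 : ((1 - s ^ 2) / (1 + s ^ 2)) ^ 2 * A11 R + 0 ^ 2 * A22 R + (2 * s / (1 + s ^ 2)) ^ 2 * A33 R
      + 2 * ((1 - s ^ 2) / (1 + s ^ 2)) * 0 * A12 R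
      + 2 * ((1 - s ^ 2) / (1 + s ^ 2)) * (2 * s / (1 + s ^ 2)) * A13 R
      + 2 * 0 * (2 * s / (1 + s ^ 2)) * A23 R =
      ((1 - s ^ 2) ^ 2 * A11 R + 4 * s ^ 2 * A33 R + 4 * s * (1 - s ^ 2) * A13 R) / (1 + s ^ 2) ^ 2 := by
      field_simp; ring
    rw [h2, div_le_iff₀ (by positivity)] at h
    nlinarith
  by_contra hne
  set D := A11 R - A33 R with hD
  have gen : ∀ (σ : ℝ), σ ^ 2 = 1 → 0 < σ * A13 R → False := by
    intro σ hσ hp
    set a := σ * A13 R with ha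
    obtain ⟨ε, hε0, hε1, hε2⟩ : ∃ ε : ℝ, 0 < ε ∧ ε < 1 / 2 ∧ ε * (|D| + 1) < a / 2 := by
      refine ⟨min (1 / 4) (a / 4 / (|D| + 1)), ?_, ?_, ?_⟩
      · have : 0 < a / 4 / (|D| + 1) := by
          apply div_pos (by linarith) (by positivity)
        exact lt_min (by norm_num) this
      · exact lt_of_le_of_lt (min_le_left _ _) (by norm_num)
      · have h1 : min (1 / 4) (a / 4 / (|D| + 1)) * (|D| + 1) ≤ a / 4 / (|D| + 1) * (|D| + 1) :=
          mul_le_mul_of_nonneg_right (min_le_right _ _) (by positivity)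
        rw [div_mul_cancel₀ _ (by positivity : (|D| + 1 : ℝ) ≠ 0)] at h1
        linarith
    have h := key (σ * ε)
    have e1 : (σ * ε) ^ 2 = ε ^ 2 := by rw [mul_pow, hσ, one_mul]
    rw [e1] at h
    have h4 : (1 - ε ^ 2) * a ≤ ε * D := by
      have : ε * ((1 - ε ^ 2) * a) ≤ ε * (ε * D) := by rw [hD, ha]; nlinarith
      exact le_of_mul_le_mul_left this hε0
    have h5 : ε * D ≤ ε * (|D| + 1) := by
      apply mul_le_mul_of_nonneg_left _ hε0.le
      linarith [le_abs_self D]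
    have h6 : (1 - ε ^ 2) * a ≥ 1 / 2 * a := by
      apply mul_le_mul_of_nonneg_right _ (by linarith)
      nlinarith
    linarith
  rcases lt_or_gt_of_ne hne with hneg | hpos
  · exact gen (-1) (by norm_num) (by linarith)
  · exact gen 1 (by norm_num) (by linarith)

end


theorem leC' {R : T4 4} (hR : IsAlg R) {S : ℝ}
    (hC : ∀ O : Mt 4, Oᵀ * O = 1 → O.det = -1 → 2 * S ≤ iso4 vid (rot R O)) {x y z : ℝ}
    (h : x ^ 2 + y ^ 2 + z ^ 2 = 1) :
    x ^ 2 * C11 R + y ^ 2 * C22 R + z ^ 2 * C33 R + 2 * x * y * C12 R + 2 * x * z * C13 R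
      + 2 * y * z * C23 R ≤ scal4 R / 4 - S := by
  have hq : ∀ O : Mt 4, Oᵀ * O = 1 → O.det = -1 → qf R (O * Om * Oᵀ) ≤ 8 * (scal4 R / 4 - S) := by
    intro O hO hd
    have h1 := hC O hO hd
    rw [iso_rot hR hO] at h1
    linarith
  by_cases hx : x = 1
  · have hy : y = 0 := by
      have : y ^ 2 = 0 := by nlinarith [sq_nonneg y, sq_nonneg z]
      exact pow_eq_zero_iff (two_ne_zero) |>.1 this
    have hz : z = 0 := by
      have : z ^ 2 = 0 := by nlinarith [sq_nonneg y, sq_nonneg z]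
      exact pow_eq_zero_iff (two_ne_zero) |>.1 this
    have hO : (Matrix.diagonal ![(1 : ℝ), 1, 1, -1])ᵀ * Matrix.diagonal ![(1 : ℝ), 1, 1, -1] = 1 := by
      rw [Matrix.diagonal_transpose, Matrix.diagonal_mul_diagonal, ← Matrix.diagonal_one]
      congr 1
      ext i
      fin_cases i <;> simp
    have hd : (Matrix.diagonal ![(1 : ℝ), 1, 1, -1]).det = -1 := by
      rw [Matrix.det_diagonal]
      simp [Fin.prod_univ_four]
    have e : Matrix.diagonal ![(1 : ℝ), 1, 1, -1] * Om * (Matrix.diagonal ![(1 : ℝ), 1, 1, -1])ᵀ =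
        WC 1 0 0 := by
      ext i j
      fin_cases i <;> fin_cases j <;>
        simp [Om, WC, Matrix.mul_apply, Fin.sum_univ_four, Matrix.diagonal_apply]
    have h1 := hq _ hO hd
    rw [e, qf_WC hR] at h1
    rw [hx, hy, hz]
    linarith
  · have hs : (1 - x)⁻¹ * (1 - x) = 1 := inv_mul_cancel₀ (sub_ne_zero.2 (Ne.symm hx))
    have h1 := hq _ (OO_orth (σ := 1) (by norm_num) h hs) (OO_det h hs)
    rw [OO_WC h hs, qf_WC hR] at h1
    linarith

/-- The reaction inequality on one side. -/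
theorem reactA {R : T4 4} (hR : IsAlg R) (hop : ∀ φ : Mt 4, φᵀ = -φ → 0 ≤ qf R φ)
    (hmin : ∀ O : Mt 4, Oᵀ * O = 1 → O.det = 1 → iso4 vid R ≤ iso4 vid (rot R O)) {S' : ℝ}
    (hC : ∀ O : Mt 4, Oᵀ * O = 1 → O.det = -1 → 2 * S' ≤ iso4 vid (rot R O)) {S T : ℝ}
    (hS : S = iso4 vid R / 2) (hT : T = scal4 R / 4) :
    0 ≤ S ∧ 3 * S ≤ 2 * T ∧ ∃ β : ℝ, 0 ≤ β ∧ 2 * (2 * T * S - 3 / 2 * S ^ 2 + β) ≤ iso4 vid (QQ R) / 2 ∧
      scal4 (QQ R) / 4 ≤ 2 * (T ^ 2 + (T - S) * (T - S') + β) := by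
  have h12 := A12_zero hR hmin
  have h13 := A13_zero hR hmin
  obtain ⟨q1, q2⟩ := QQ_blocks hR
  have eS : S = A22 R + A33 R := by rw [hS, iso_block hR]; ring
  have eT : T = A11 R + A22 R + A33 R := by rw [hT, scal_block hR]; ring
  have e22 : A22 R ≤ A11 R := by
    have := leA hR hmin (x := 0) (y := 1) (z := 0) (by norm_num)
    linarith
  have e33 : A33 R ≤ A11 R := by
    have := leA hR hmin (x := 0) (y := 0) (z := 1) (by norm_num)
    linarith
  have n22 : 0 ≤ A22 R := by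
    have h1 := hop _ (WA_anti 0 1 0)
    rw [qf_WA hR] at h1
    linarith
  have n33 : 0 ≤ A33 R := by
    have h1 := hop _ (WA_anti 0 0 1)
    rw [qf_WA hR] at h1
    linarith
  have n11 : 0 ≤ A11 R := le_trans n22 e22
  have nC : 0 ≤ C11 R := by
    have h1 := hop _ (WC_anti 1 0 0)
    rw [qf_WC hR] at h1
    linarith
  have hμ : 0 ≤ T - S' := by
    have h1 := leC' hR hC (x := 1) (y := 0) (z := 0) (by norm_num)
    rw [hT]
    linarith
  have hrow : B11 R ^ 2 + B12 R ^ 2 + B13 R ^ 2 ≤ A11 R * (T - S') := by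
    have hCC := rowC (p := B11 R) (q := B12 R) (r := B13 R) (fun x y z h => leC' hR hC h)
    rw [← hT] at hCC
    refine rowB' n11 (by positivity) hμ hCC fun t => ?_
    have h1 := hop (WA t 0 0 + WC (-B11 R) (-B12 R) (-B13 R)) (by
      rw [Matrix.transpose_add, WA_anti, WC_anti, neg_add])
    rw [qf_mix hR] at h1
    have h2 : t ^ 2 * A11 R - 2 * t * (B11 R ^ 2 + B12 R ^ 2 + B13 R ^ 2) + (B11 R ^ 2 * C11 R
      + B12 R ^ 2 * C22 R + B13 R ^ 2 * C33 R + 2 * B11 R * B12 R * C12 R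
      + 2 * B11 R * B13 R * C13 R + 2 * B12 R * B13 R * C23 R) =
      t ^ 2 * A11 R + 2 * t * (-B11 R * B11 R + -B12 R * B12 R + -B13 R * B13 R)
        + ((-B11 R) ^ 2 * C11 R + (-B12 R) ^ 2 * C22 R + (-B13 R) ^ 2 * C33 R
          + 2 * (-B11 R) * (-B12 R) * C12 R + 2 * (-B11 R) * (-B13 R) * C13 R
          + 2 * (-B12 R) * (-B13 R) * C23 R) := by ring
    rw [h2]
    linarith
  refine ⟨by rw [eS]; linarith, by rw [eS, eT]; linarith, ?_⟩
  refine ⟨B21 R ^ 2 + B22 R ^ 2 + B23 R ^ 2 + B31 R ^ 2 + B32 R ^ 2 + B33 R ^ 2, by positivity, ?_, ?_⟩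
  · rw [q1, h12, h13, eS, eT]
    generalize A11 R = a1 at *
    generalize A22 R = a2 at *
    generalize A33 R = a3 at *
    generalize A23 R = a23 at *
    generalize (B21 R ^ 2 + B22 R ^ 2 + B23 R ^ 2 + B31 R ^ 2 + B32 R ^ 2 + B33 R ^ 2) = bb at *
    nlinarith [sq_nonneg (a2 - a3), sq_nonneg a23]
  · have e1 : T - S = A11 R := by rw [eS, eT]; ring
    rw [q2, e1]
    have e2 : (A11 R + A22 R + A33 R) = T := eT.symm
    rw [e2]
    linarith

/-- The reaction inequalities at a pair of oppositely oriented frames. -/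
theorem react2 {R : T4 4} (hR : IsAlg R) (hop : ∀ φ : Mt 4, φᵀ = -φ → 0 ≤ qf R φ) {P : Mt 4}
    (hP : Pᵀ * P = 1) (hPd : P.det = -1)
    (h1 : ∀ O : Mt 4, Oᵀ * O = 1 → O.det = 1 → iso4 vid R ≤ iso4 vid (rot R O))
    (h2 : ∀ O : Mt 4, Oᵀ * O = 1 → O.det = -1 → iso4 vid (rot R P) ≤ iso4 vid (rot R O)) {S1 S2 T : ℝ}
    (hS1 : S1 = iso4 vid R / 2) (hS2 : S2 = iso4 vid (rot R P) / 2) (hT : T = scal4 R / 4) :
    0 ≤ S1 ∧ 0 ≤ S2 ∧ 3 * S1 ≤ 2 * T ∧ 3 * S2 ≤ 2 * T ∧ ∃ β1 β2 : ℝ, 0 ≤ β1 ∧ 0 ≤ β2 ∧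
      2 * (2 * T * S1 - 3 / 2 * S1 ^ 2 + β1) ≤ iso4 vid (QQ R) / 2 ∧
      2 * (2 * T * S2 - 3 / 2 * S2 ^ 2 + β2) ≤ iso4 vid (rot (QQ R) P) / 2 ∧
      scal4 (QQ R) / 4 ≤ 2 * (T ^ 2 + ((T - S1) * (T - S2) + (β1 + β2) / 2)) := by
  obtain ⟨a1, a2, β1, a3, a4, a5⟩ := reactA hR hop h1 (S' := S2) (fun O hO hd => by
    have := h2 O hO hd
    rw [hS2]; linarith) hS1 hT
  have hP' : P * Pᵀ = 1 := mul_eq_one_comm.1 hP
  have hR2 : IsAlg (rot R P) := L.isAlg_rot hR P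
  have hcomp : ∀ O : Mt 4, Oᵀ * O = 1 → (P * O)ᵀ * (P * O) = 1 := by
    intro O hO
    rw [Matrix.transpose_mul, Matrix.mul_assoc, ← Matrix.mul_assoc Pᵀ, hP, Matrix.one_mul, hO]
  obtain ⟨b1, b2, β2, b3, b4, b5⟩ := reactA (R := rot R P) hR2 (by
      intro φ hφ
      have e : qf (rot R P) φ = qf R (P * φ * Pᵀ) := I_quad_rot _ _ _
      rw [e]
      apply hop
      rw [Matrix.transpose_mul, Matrix.transpose_mul, Matrix.transpose_transpose, hφ]
      simp only [Matrix.neg_mul, Matrix.mul_neg, Matrix.mul_assoc])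
    (fun O hO hd => by
      rw [G_rot_mul]
      exact h2 _ (hcomp O hO) (by rw [Matrix.det_mul, hPd, hd]; norm_num)) (S' := S1)
    (fun O hO hd => by
      rw [G_rot_mul]
      have := h1 _ (hcomp O hO) (by rw [Matrix.det_mul, hPd, hd]; norm_num)
      rw [hS1]; linarith) (T := T) hS2 (by rw [hT, scal4_rot R hP])
  rw [G_QQ_rot R P hP'] at b4 b5
  rw [scal4_rot (QQ R) hP] at b5
  refine ⟨a1, b1, a2, b2, β1, β2, a3, b3, a4, b4, ?_⟩
  nlinarith

end Run7.h967.GM
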