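import Mathlib
import Pool.Agent.Run7.h967.GM.React2
import Pool.Agent.Run7.h967.LG.Main

/-!
# A crude bound for the reaction term of the scalar curvature
-/

set_option autoImplicit false
set_option linter.all false
open scoped ContDiff Manifold Topology Matrix
open Set Filter

namespace Run7.h967.GM

open Pool.Agent.QTot Pool.Agent.H858R2 Pool.Agent.Helper696_RF Run7.h967.LG

set_option maxHeartbeats 4000000 in
/-- value on the bivector with self-dual coordinates `p, q, r` and anti-self-dual coordinates `x, y, z` -/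
theorem qf_gen {R : T4 4} (hR : IsAlg R) (p q r x y z : ℝ) : qf R (WA p q r + WC x y z) =
    8 * ((p ^ 2 * A11 R + q ^ 2 * A22 R + r ^ 2 * A33 R + 2 * p * q * A12 R + 2 * p * r * A13 R
      + 2 * q * r * A23 R)
      + 2 * (p * (x * B11 R + y * B12 R + z * B13 R) + q * (x * B21 R + y * B22 R + z * B23 R)
        + r * (x * B31 R + y * B32 R + z * B33 R))
      + (x ^ 2 * C11 R + y ^ 2 * C22 R + z ^ 2 * C33 R + 2 * x * y * C12 R + 2 * x * z * C13 R
      + 2 * y * z * C23 R)) := by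
  have z1 : ∀ i k l, R i i k l = 0 := fun i k l => zz hR i k l
  have z2 : ∀ i j k, R i j k k = 0 := fun i j k => zz2 hR i j k
  have a10 : ∀ k l, R 1 0 k l = -R 0 1 k l := fun k l => hR.anti 1 0 k l
  have a20 : ∀ k l, R 2 0 k l = -R 0 2 k l := fun k l => hR.anti 2 0 k l
  have a30 : ∀ k l, R 3 0 k l = -R 0 3 k l := fun k l => hR.anti 3 0 k l
  have a21 : ∀ k l, R 2 1 k l = -R 1 2 k l := fun k l => hR.anti 2 1 k l
  have a31 : ∀ k l, R 3 1 k l = -R 1 3 k l := fun k l => hR.anti 3 1 k l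
  have a32 : ∀ k l, R 3 2 k l = -R 2 3 k l := fun k l => hR.anti 3 2 k l
  have b10 : ∀ i j, R i j 1 0 = -R i j 0 1 := fun k l => anti2 hR k l 1 0
  have b20 : ∀ i j, R i j 2 0 = -R i j 0 2 := fun k l => anti2 hR k l 2 0
  have b30 : ∀ i j, R i j 3 0 = -R i j 0 3 := fun k l => anti2 hR k l 3 0
  have b21 : ∀ i j, R i j 2 1 = -R i j 1 2 := fun k l => anti2 hR k l 2 1
  have b31 : ∀ i j, R i j 3 1 = -R i j 1 3 := fun k l => anti2 hR k l 3 1
  have b32 : ∀ i j, R i j 3 2 = -R i j 2 3 := fun k l => anti2 hR k l 3 2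
  have p1 : R 0 2 0 1 = R 0 1 0 2 := hR.pair _ _ _ _
  have p2 : R 0 3 0 1 = R 0 1 0 3 := hR.pair _ _ _ _
  have p3 : R 1 2 0 1 = R 0 1 1 2 := hR.pair _ _ _ _
  have p4 : R 1 3 0 1 = R 0 1 1 3 := hR.pair _ _ _ _
  have p5 : R 2 3 0 1 = R 0 1 2 3 := hR.pair _ _ _ _
  have p6 : R 0 3 0 2 = R 0 2 0 3 := hR.pair _ _ _ _
  have p7 : R 1 2 0 2 = R 0 2 1 2 := hR.pair _ _ _ _
  have p8 : R 1 3 0 2 = R 0 2 1 3 := hR.pair _ _ _ _
  have p9 : R 2 3 0 2 = R 0 2 2 3 := hR.pair _ _ _ _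
  have p10 : R 1 2 0 3 = R 0 3 1 2 := hR.pair _ _ _ _
  have p11 : R 1 3 0 3 = R 0 3 1 3 := hR.pair _ _ _ _
  have p12 : R 2 3 0 3 = R 0 3 2 3 := hR.pair _ _ _ _
  have p13 : R 1 3 1 2 = R 1 2 1 3 := hR.pair _ _ _ _
  have p14 : R 2 3 1 2 = R 1 2 2 3 := hR.pair _ _ _ _
  have p15 : R 2 3 1 3 = R 1 3 2 3 := hR.pair _ _ _ _
  simp [qf, WA, WC, Fin.sum_univ_four, a10, a20, a30, a21, a31, a32, b10, b20, b30, b21, b31, b32,
      z1, z2, p1, p2, p3, p4, p5, p6, p7, p8, p9, p10, p11, p12, p13, p14, p15,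
      A11, A22, A33, A12, A13, A23, C11, C22, C33, C12, C13, C23, B11, B12, B13, B21, B22, B23, B31, B32, B33]
  ring

theorem disc {a b c : ℝ} (h : ∀ u : ℝ, 0 ≤ a + 2 * u * b + u ^ 2 * c) : b ^ 2 ≤ a * c := by
  have ha : 0 ≤ a := by
    have := h 0
    linarith
  rcases le_or_gt c 0 with hc | hc
  · -- `b = 0` and `c = 0`
    have key : ∀ u : ℝ, -2 * u * b ≤ a := by
      intro u
      have h1 := h u
      nlinarith [sq_nonneg u, mul_nonneg (sq_nonneg u) (neg_nonneg.2 hc)]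
    have hb : b = 0 := by
      by_contra hb
      have h1 := key (-(a + 1) / (2 * b))
      have h2 : -2 * (-(a + 1) / (2 * b)) * b = a + 1 := by field_simp
      linarith
    have hc0 : 0 ≤ c := by
      by_contra hcn
      push Not at hcn
      have h1 := h ((a + 1) / (-c) + 1)
      rw [hb] at h1
      set v := (a + 1) / (-c) + 1 with hv
      have hcp : 0 < -c := by linarith
      have h2 : v * (-c) = a + 1 + (-c) := by
        rw [hv, add_mul, div_mul_cancel₀ _ hcp.ne', one_mul]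
      have h3 : 1 ≤ v := by
        rw [hv]
        have : 0 ≤ (a + 1) / (-c) := div_nonneg (by linarith) hcp.le
        linarith
      have h4 : v ^ 2 * (-c) = v * (a + 1 + (-c)) := by rw [← h2]; ring
      nlinarith
    have hc1 : c = 0 := le_antisymm hc hc0
    rw [hb, hc1]
    simp
  · have h1 := h (-b / c)
    have h2 : a + 2 * (-b / c) * b + (-b / c) ^ 2 * c = a - b ^ 2 / c := by
      field_simp; ring
    rw [h2] at h1
    have h3 : b ^ 2 / c ≤ a := by linarith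
    rwa [div_le_iff₀ hc] at h3

/-- the reaction term of the scalar curvature -/
theorem QQ_le {R : T4 4} (hR : IsAlg R) (hop : ∀ φ : Mt 4, φᵀ = -φ → 0 ≤ qf R φ) :
    sT (QQ R) ≤ 4 * (sT R) ^ 2 := by
  obtain ⟨-, q2⟩ := QQ_blocks hR
  have key : ∀ p q r x y z : ℝ, 0 ≤ 8 * ((p ^ 2 * A11 R + q ^ 2 * A22 R + r ^ 2 * A33 R + 2 * p * q * A12 R
      + 2 * p * r * A13 R + 2 * q * r * A23 R)
      + 2 * (p * (x * B11 R + y * B12 R + z * B13 R) + q * (x * B21 R + y * B22 R + z * B23 R)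
        + r * (x * B31 R + y * B32 R + z * B33 R))
      + (x ^ 2 * C11 R + y ^ 2 * C22 R + z ^ 2 * C33 R + 2 * x * y * C12 R + 2 * x * z * C13 R
      + 2 * y * z * C23 R)) := by
    intro p q r x y z
    rw [← qf_gen hR]
    apply hop
    rw [Matrix.transpose_add, WA_anti, WC_anti, neg_add]
  have b11 : B11 R ^ 2 ≤ A11 R * C11 R := disc fun u => by have := key 1 0 0 u 0 0; linarith
  have b12 : B12 R ^ 2 ≤ A11 R * C22 R := disc fun u => by have := key 1 0 0 0 u 0; linarith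
  have b13 : B13 R ^ 2 ≤ A11 R * C33 R := disc fun u => by have := key 1 0 0 0 0 u; linarith
  have b21 : B21 R ^ 2 ≤ A22 R * C11 R := disc fun u => by have := key 0 1 0 u 0 0; linarith
  have b22 : B22 R ^ 2 ≤ A22 R * C22 R := disc fun u => by have := key 0 1 0 0 u 0; linarith
  have b23 : B23 R ^ 2 ≤ A22 R * C33 R := disc fun u => by have := key 0 1 0 0 0 u; linarith
  have b31 : B31 R ^ 2 ≤ A33 R * C11 R := disc fun u => by have := key 0 0 1 u 0 0; linarith
  have b32 : B32 R ^ 2 ≤ A33 R * C22 R := disc fun u => by have := key 0 0 1 0 u 0; linarith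
  have b33 : B33 R ^ 2 ≤ A33 R * C33 R := disc fun u => by have := key 0 0 1 0 0 u; linarith
  have e1 : sT R = A11 R + A22 R + A33 R := by rw [sT, scal_block hR]; ring
  have e2 : sT R = C11 R + C22 R + C33 R := by rw [sT, scal_blockC hR]; ring
  have e3 : (sT R) ^ 2 = (A11 R + A22 R + A33 R) * (C11 R + C22 R + C33 R) := by
    rw [sq]; nth_rewrite 1 [e1]; rw [e2]
  have e4 : sT (QQ R) = 2 * ((sT R) ^ 2
      + (B11 R ^ 2 + B12 R ^ 2 + B13 R ^ 2 + B21 R ^ 2 + B22 R ^ 2 + B23 R ^ 2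
        + B31 R ^ 2 + B32 R ^ 2 + B33 R ^ 2)) := by
    rw [sT, q2, e1]; ring
  rw [e4]
  nlinarith

end Run7.h967.GM
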