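import Mathlib
import Pool.Agent.Helper696_RF.Defs
import Pool.Agent.Helper696_RF.Loc
import Pool.Agent.Helper696_RF.G
import Pool.Agent.Helper696_RF.H0

/-!
# A maximum principle with a moving barrier on a possibly noncompact manifold
-/

set_option autoImplicit false
set_option linter.all false
open scoped ContDiff Manifold Topology Matrix
open Set Filter

namespace Run7.h967.GM

open Pool.Agent.QTot Pool.Agent.H858R2 Pool.Agent.Helper696_RF Pool.Agent.Helper696_RF.MaxP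

section
variable {n : ℕ} {M : Type} [TopologicalSpace M] [ChartedSpace (En n) M] [IsManifold (𝓡 n) ∞ M]

/-- limits of frames over points of a compact set -/
theorem closure_cpt {T : ℝ} {g : ℝ → Metric n M} (hg : IsRicciFlow T g)
    {Kc : Set M} (hKc : IsCompact Kc)
    {ι : Type} (𝒰 : Ultrafilter ι) (t : ι → ℝ) (t0 : ℝ) (ht0 : t0 ∈ Ico 0 T)
    (htD : ∀ k, t k ∈ Ico 0 T) (ht : Tendsto t 𝒰 (𝓝 t0))
    (e : ι → OpenPartialHomeomorph M (En n)) (he : ∀ k, e k ∈ atlas (En n) M) (y : ι → Eu n)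
    (hy : ∀ k, y k ∈ ctarget (e k)) (hK : ∀ k, (e k).symm (WithLp.toLp 2 (y k)) ∈ Kc)
    (F : ι → Mt n) (hF : ∀ k, (F k)ᵀ * (g (t k)).G (e k) (y k) * F k = 1) :
    ∃ e0 ∈ atlas (En n) M, ∃ y0 ∈ ctarget e0, ∃ F0 : Mt n,
      F0ᵀ * (g t0).G e0 y0 * F0 = 1 ∧
      Tendsto (fun k => rot (Rc ((g (t k)).G (e k)) (y k)) (F k)) 𝒰
        (𝓝 (rot (Rc ((g t0).G e0) y0) F0)) := by
  -- the limit point
  obtain ⟨x0, -, hx0⟩ := hKc.ultrafilter_le_nhds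
    (𝒰.map fun k => (e k).symm (WithLp.toLp 2 (y k))) (by
      rw [le_principal_iff]
      exact Filter.mem_map.2 (Filter.univ_mem' hK))
  have hx : Tendsto (fun k => (e k).symm (WithLp.toLp 2 (y k))) 𝒰 (𝓝 x0) := hx0
  set e0 := chartAt (En n) x0 with he0
  have he0m : e0 ∈ atlas (En n) M := chart_mem_atlas _ _
  have hx0s : x0 ∈ e0.source := mem_chart_source _ _
  set y0 : Eu n := WithLp.ofLp (e0 x0) with hy0
  have hy0m : y0 ∈ ctarget e0 := by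
    show WithLp.toLp 2 (WithLp.ofLp (e0 x0)) ∈ e0.target
    rw [WithLp.toLp_ofLp]
    exact e0.map_source hx0s
  have hev : ∀ᶠ k in (𝒰 : Filter ι), y k ∈ cdm (e k) e0 := by
    filter_upwards [hx.eventually (e0.open_source.mem_nhds hx0s)] with k hk
    exact ⟨hy k, hk⟩
  set y' : ι → Eu n := fun k => ctrn (e k) e0 (y k) with hy'
  have hy'l : Tendsto y' 𝒰 (𝓝 y0) := by
    have h1 : Tendsto (fun k => e0 ((e k).symm (WithLp.toLp 2 (y k)))) 𝒰 (𝓝 (e0 x0)) :=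
      (e0.continuousAt hx0s).tendsto.comp hx
    exact ((PiLp.continuous_ofLp 2 _).tendsto _).comp h1
  have hy'm : ∀ᶠ k in (𝒰 : Filter ι), y' k ∈ ctarget e0 := hev.mono fun k hk => ctrn_mem hk
  obtain ⟨lG, lI, lR⟩ := tendsto_G hg he0m ht0 hy0m (Eventually.of_forall htD) hy'm ht hy'l
  set F' : ι → Mt n := fun k => Jac (ctrn (e k) e0) (y k) * F k with hF'
  have hfr : ∀ᶠ k in (𝒰 : Filter ι), (F' k)ᵀ * (g (t k)).G e0 (y' k) * F' k = 1 ∧
      rot (Rc ((g (t k)).G (e k)) (y k)) (F k) = rot (Rc ((g (t k)).G e0) (y' k)) (F' k) := by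
    filter_upwards [hev] with k hk
    obtain ⟨c1, c2⟩ := rc_change (g (t k)) (he k) he0m hk
    constructor
    · rw [← hF k, c1]
      simp only [hF', hy', Matrix.transpose_mul, Matrix.mul_assoc]
    · rw [c2, MaxP.rot_rot]
  -- the limit of the frames
  have hlim : ∀ i j : Fin n, ∃ a : ℝ, Tendsto (fun k => F' k i j) 𝒰 (𝓝 a) := by
    intro i j
    have hb : ∀ᶠ k in (𝒰 : Filter ι), F' k i j ∈
        Icc (-(((g t0).G e0 y0)⁻¹ i i + 2)) (((g t0).G e0 y0)⁻¹ i i + 2) := by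
      filter_upwards [hfr, (lI i i).eventually (gt_mem_nhds
        (show ((g t0).G e0 y0)⁻¹ i i < ((g t0).G e0 y0)⁻¹ i i + 1 by linarith))] with k h1 h2
      have h3 := frame_bound h1.1 i j
      constructor <;> nlinarith [sq_nonneg (F' k i j - 1), sq_nonneg (F' k i j + 1)]
    obtain ⟨a, -, ha⟩ := (isCompact_Icc (a := -(((g t0).G e0 y0)⁻¹ i i + 2))
      (b := ((g t0).G e0 y0)⁻¹ i i + 2)).ultrafilter_le_nhds
      (𝒰.map fun k => F' k i j) (by rw [le_principal_iff]; exact hb)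
    exact ⟨a, ha⟩
  choose F00 hF00 using hlim
  obtain ⟨F0, hF0⟩ : ∃ F0 : Mt n, ∀ i j, Tendsto (fun k => F' k i j) 𝒰 (𝓝 (F0 i j)) :=
    ⟨F00, hF00⟩
  have hF0l : Tendsto F' 𝒰 (𝓝 F0) :=
    tendsto_pi_nhds.mpr fun i => tendsto_pi_nhds.mpr fun j => hF0 i j
  refine ⟨e0, he0m, y0, hy0m, F0, ?_, ?_⟩
  · have hT : Tendsto (fun k => (F' k)ᵀ) 𝒰 (𝓝 F0ᵀ) :=
      (Continuous.matrix_transpose continuous_id).continuousAt.tendsto.comp hF0l
    have h1 : Tendsto (fun k => (F' k)ᵀ * (g (t k)).G e0 (y' k) * F' k) 𝒰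
        (𝓝 (F0ᵀ * (g t0).G e0 y0 * F0)) := (hT.mul lG).mul hF0l
    have h2 : Tendsto (fun k => (F' k)ᵀ * (g (t k)).G e0 (y' k) * F' k) 𝒰 (𝓝 1) :=
      tendsto_const_nhds.congr' (hfr.mono fun k hk => hk.1.symm)
    exact tendsto_nhds_unique h1 h2
  · have h1 : Tendsto (fun k => rot (Rc ((g (t k)).G e0) (y' k)) (F' k)) 𝒰
        (𝓝 (rot (Rc ((g t0).G e0) y0) F0)) := tendsto_rot lR hF0l
    exact h1.congr' (hfr.mono fun k hk => hk.2.symm)

theorem frame_ratio {G E F : Mt n} (hE : Eᵀ * G * E = 1) (hF : Fᵀ * G * F = 1) :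
    ∃ O : Mt n, Oᵀ * O = 1 ∧ F = E * O := by
  have h1 : E * (Eᵀ * G) = 1 := mul_eq_one_comm.mp hE
  have h2 : F = E * (Eᵀ * G * F) := by
    rw [← Matrix.mul_assoc, h1, Matrix.one_mul]
  refine ⟨Eᵀ * G * F, ?_, h2⟩
  set O := Eᵀ * G * F with hO
  have h3 : Oᵀ * (Eᵀ * G * E) * O = 1 := by
    calc Oᵀ * (Eᵀ * G * E) * O = (E * O)ᵀ * G * (E * O) := by
          simp only [Matrix.transpose_mul, Matrix.mul_assoc]
      _ = Fᵀ * G * F := by rw [← h2]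
      _ = 1 := hF
  rwa [hE, Matrix.mul_one] at h3

theorem det_frame {G F : Mt n} (hF : Fᵀ * G * F = 1) : F.det ≠ 0 := by
  intro h0
  have h1 := congrArg Matrix.det hF
  rw [Matrix.det_mul, h0, mul_zero, Matrix.det_one] at h1
  exact zero_ne_one h1

theorem posDef_conj {G F : Mt n} (hG : G.PosDef) (hF : F.det ≠ 0) : (Fᵀ * G * F).PosDef := by
  have h2 := hG.conjTranspose_mul_mul_same (B := F) (by
    apply Matrix.mulVec_injective_of_isUnit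
    rw [Matrix.isUnit_iff_isUnit_det]
    exact isUnit_iff_ne_zero.mpr hF)
  rwa [Matrix.conjTranspose_eq_transpose_of_trivial] at h2

/-- continuity of an invariant linear functional of the curvature -/
theorem inv_cont {T : ℝ} {g : ℝ → Metric n M} (hg : IsRicciFlow T g)
    {e : OpenPartialHomeomorph M (En n)} (he : e ∈ atlas (En n) M) {ι : Type} {l : Filter ι}
    {t : ι → ℝ} {y : ι → Eu n} {t0 : ℝ} {y0 : Eu n} (ht0 : t0 ∈ Ico 0 T) (hy0 : y0 ∈ ctarget e)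
    (ht : ∀ᶠ k in l, t k ∈ Ico 0 T) (hy : ∀ᶠ k in l, y k ∈ ctarget e)
    (h1 : Tendsto t l (𝓝 t0)) (h2 : Tendsto y l (𝓝 y0)) (X : T4 n →ₗ[ℝ] ℝ)
    (hX : ∀ (R : T4 n) (O : Mt n), Oᵀ * O = 1 → X (rot R O) = X R)
    {E : Mt n} (hE : Eᵀ * (g t0).G e y0 * E = 1) {U : Set ℝ} (hU : U ∈ 𝓝 (X (rot (Rc ((g t0).G e) y0) E))) :
    ∀ᶠ k in l, ∀ F : Mt n, Fᵀ * (g (t k)).G e (y k) * F = 1 →
      X (rot (Rc ((g (t k)).G e) (y k)) F) ∈ U := by
  obtain ⟨lG, -, lR⟩ := tendsto_G hg he ht0 hy0 ht hy h1 h2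
  obtain ⟨r, hr1, hr2⟩ := root_exists n
  have hdet := det_frame hE
  have lA : Tendsto (fun k => Eᵀ * (g (t k)).G e (y k) * E) l (𝓝 1) := by
    rw [← hE]
    exact (tendsto_const_nhds.mul lG).mul tendsto_const_nhds
  have hpos : ∀ᶠ k in l, (Eᵀ * (g (t k)).G e (y k) * E).PosDef := by
    filter_upwards [hy] with k hk
    exact posDef_conj ((g (t k)).posDef e he (y k) hk) hdet
  have lA' : Tendsto (fun k => Eᵀ * (g (t k)).G e (y k) * E) l (𝓝[{A : Mt n | A.PosDef}] 1) := by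
    rw [tendsto_nhdsWithin_iff]
    exact ⟨lA, hpos⟩
  have lr : Tendsto (fun k => E * r (Eᵀ * (g (t k)).G e (y k) * E)) l (𝓝 E) := by
    have := (tendsto_const_nhds (x := E)).mul (hr2.comp lA')
    rwa [mul_one] at this
  have lim : Tendsto (fun k => X (rot (Rc ((g (t k)).G e) (y k)) (E * r (Eᵀ * (g (t k)).G e (y k) * E)))) l
      (𝓝 (X (rot (Rc ((g t0).G e) y0) E))) := by
    have k2 : Continuous (fun R : T4 n => X R) := LinearMap.continuous_of_finiteDimensional X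
    exact (k2.tendsto _).comp (tendsto_rot lR lr)
  filter_upwards [lim.eventually hU, hpos] with k hk hp F hF
  have hfr : (E * r (Eᵀ * (g (t k)).G e (y k) * E))ᵀ * (g (t k)).G e (y k) *
      (E * r (Eᵀ * (g (t k)).G e (y k) * E)) = 1 := by
    have := hr1 _ hp
    rw [← this]
    simp only [Matrix.transpose_mul, Matrix.mul_assoc]
  obtain ⟨O, hO, hFO⟩ := frame_ratio hfr hF
  rw [hFO, ← G_rot_mul, hX _ _ hO]
  exact hk

/-- The maximum principle. -/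
theorem maxq {T : ℝ} {g : ℝ → Metric n M} (hg : IsRicciFlow T g) {t1 : ℝ} (ht1 : t1 < T)
    {Kc : Set M} (hKc : IsCompact Kc)
    {Θ : Type} [TopologicalSpace Θ] [CompactSpace Θ] (L : Θ → T4 n →ₗ[ℝ] ℝ)
    (hL : ∀ R : T4 n, Continuous fun θ => L θ R) (X : T4 n →ₗ[ℝ] ℝ)
    (hX : ∀ (R : T4 n) (O : Mt n), Oᵀ * O = 1 → X (rot R O) = X R)
    (hXp : ∀ t ∈ Icc 0 t1, ∀ e ∈ atlas (En n) M, ∀ y ∈ ctarget e, ∀ F : Mt n,
      Fᵀ * (g t).G e y * F = 1 → 0 < X (rot (Rc ((g t).G e) y) F))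
    (B : ℝ → ℝ → ℝ) (hB : ∀ x > 0, ∀ t ∈ Icc 0 t1, ContDiffAt ℝ 1 (fun p : ℝ × ℝ => B p.1 p.2) (x, t))
    (hinit : ∀ e ∈ atlas (En n) M, ∀ y ∈ ctarget e, ∀ F : Mt n, Fᵀ * (g 0).G e y * F = 1 →
      ∀ θ, B (X (rot (Rc ((g 0).G e) y) F)) 0 < L θ (rot (Rc ((g 0).G e) y) F))
    (hout : ∀ t ∈ Icc 0 t1, ∀ e ∈ atlas (En n) M, ∀ y ∈ ctarget e,
      e.symm (WithLp.toLp 2 y) ∉ Kc → ∀ F : Mt n, Fᵀ * (g t).G e y * F = 1 →
      ∀ θ, B (X (rot (Rc ((g t).G e) y) F)) t < L θ (rot (Rc ((g t).G e) y) F))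
    (hode : ∀ t ∈ Ioc 0 t1, ∀ e ∈ atlas (En n) M, ∀ y ∈ ctarget e,
      e.symm (WithLp.toLp 2 y) ∈ Kc →
      (∀ F : Mt n, Fᵀ * (g t).G e y * F = 1 → ∀ θ,
        B (X (rot (Rc ((g t).G e) y) F)) t ≤ L θ (rot (Rc ((g t).G e) y) F)) →
      ∀ E : Mt n, Eᵀ * (g t).G e y * E = 1 → ∀ θ,
        L θ (rot (Rc ((g t).G e) y) E) = B (X (rot (Rc ((g t).G e) y) E)) t →
        ∃ m d : ℝ, (∀ x > 0, B (X (rot (Rc ((g t).G e) y) E)) t +
            m * (x - X (rot (Rc ((g t).G e) y) E)) ≤ B x t) ∧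
          HasDerivAt (fun τ => B (X (rot (Rc ((g t).G e) y) E)) τ) d t ∧
          0 < L θ (QQ (rot (Rc ((g t).G e) y) E)) - m * X (QQ (rot (Rc ((g t).G e) y) E)) - d) :
    ∀ t ∈ Icc 0 t1, ∀ e ∈ atlas (En n) M, ∀ y ∈ ctarget e, ∀ F : Mt n,
      Fᵀ * (g t).G e y * F = 1 → ∀ θ,
        B (X (rot (Rc ((g t).G e) y) F)) t < L θ (rot (Rc ((g t).G e) y) F) := by
  classical
  by_contra hcon
  push Not at hcon
  obtain ⟨t', ht', e', he', y', hy', F', hF', θ', hΨ'⟩ := hcon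
  let S : Set ℝ := {t | t ∈ Icc 0 t1 ∧ ∃ e ∈ atlas (En n) M, ∃ y ∈ ctarget e, ∃ F : Mt n,
    Fᵀ * (g t).G e y * F = 1 ∧ ∃ θ, L θ (rot (Rc ((g t).G e) y) F) ≤ B (X (rot (Rc ((g t).G e) y) F)) t}
  have hSne : S.Nonempty := ⟨t', ht', e', he', y', hy', F', hF', θ', hΨ'⟩
  have hSb : BddBelow S := ⟨0, fun t ht => ht.1.1⟩
  set t0 := sInf S with ht0def
  have ht00 : 0 ≤ t0 := le_csInf hSne fun t ht => ht.1.1
  have ht01 : t0 ≤ t1 := (csInf_le hSb ⟨ht', e', he', y', hy', F', hF', θ', hΨ'⟩).trans ht'.2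
  have ht0T : t0 ∈ Ico 0 T := ⟨ht00, lt_of_le_of_lt ht01 ht1⟩
  have hLc := continuous_L L hL
  have hXc : Continuous (fun R : T4 n => X R) := LinearMap.continuous_of_finiteDimensional X
  -- before `t0` everything is positive
  have hbefore : ∀ t, 0 ≤ t → t < t0 → ∀ e ∈ atlas (En n) M, ∀ y ∈ ctarget e, ∀ F : Mt n,
      Fᵀ * (g t).G e y * F = 1 → ∀ θ,
        B (X (rot (Rc ((g t).G e) y) F)) t < L θ (rot (Rc ((g t).G e) y) F) := by
    intro t h0 hlt e he y hy F hF θ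
    by_contra hneg
    push Not at hneg
    have : t ∈ S := ⟨⟨h0, hlt.le.trans ht01⟩, e, he, y, hy, F, hF, θ, hneg⟩
    exact absurd (csInf_le hSb this) (not_le.mpr hlt)
  -- `t0` is in `S`
  have ht0S : ∃ e ∈ atlas (En n) M, ∃ y ∈ ctarget e, ∃ F : Mt n,
      Fᵀ * (g t0).G e y * F = 1 ∧ ∃ θ, L θ (rot (Rc ((g t0).G e) y) F) ≤
        B (X (rot (Rc ((g t0).G e) y) F)) t0 := by
    obtain ⟨u, -, hu, huS⟩ := exists_seq_tendsto_sInf hSne hSb
    choose hu1 e he y hy F hF θ hθ using huS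
    let 𝒰 : Ultrafilter ℕ := hyperfilter ℕ
    have hle : (𝒰 : Filter ℕ) ≤ atTop := Nat.hyperfilter_le_atTop
    have hu' : Tendsto u 𝒰 (𝓝 t0) := hu.mono_left hle
    have hin : ∀ k, (e k).symm (WithLp.toLp 2 (y k)) ∈ Kc := by
      intro k
      by_contra hk
      exact absurd (hθ k) (not_le.mpr (hout (u k) (hu1 k) (e k) (he k) (y k) (hy k) hk (F k) (hF k) (θ k)))
    obtain ⟨e0, he0, y0, hy0, F0, hF0, hlim⟩ := closure_cpt hg hKc 𝒰 u t0 ht0T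
      (fun k => ⟨(hu1 k).1, lt_of_le_of_lt (hu1 k).2 ht1⟩) hu' e he y hy hin F hF
    obtain ⟨θ0, -, hθ0⟩ := isCompact_univ.ultrafilter_le_nhds (𝒰.map θ) (by simp)
    have hθ0' : Tendsto θ 𝒰 (𝓝 θ0) := hθ0
    refine ⟨e0, he0, y0, hy0, F0, hF0, θ0, ?_⟩
    have h1 : Tendsto (fun k => L (θ k) (rot (Rc ((g (u k)).G (e k)) (y k)) (F k))) 𝒰
        (𝓝 (L θ0 (rot (Rc ((g t0).G e0) y0) F0))) :=
      (hLc.tendsto (θ0, rot (Rc ((g t0).G e0) y0) F0)).comp (hθ0'.prodMk_nhds hlim)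
    have h2 : Tendsto (fun k => B (X (rot (Rc ((g (u k)).G (e k)) (y k)) (F k))) (u k)) 𝒰
        (𝓝 (B (X (rot (Rc ((g t0).G e0) y0) F0)) t0)) := by
      have hc := (hB _ (hXp t0 ⟨ht00, ht01⟩ e0 he0 y0 hy0 F0 hF0) t0 ⟨ht00, ht01⟩).continuousAt
      exact hc.tendsto.comp (((hXc.tendsto _).comp hlim).prodMk_nhds hu')
    exact le_of_tendsto_of_tendsto' h1 h2 hθ
  -- `0 < t0`
  have ht0pos : 0 < t0 := by
    rcases ht00.lt_or_eq with h | h
    · exact h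
    · exfalso
      obtain ⟨e, he, y, hy, F, hF, θ, hθ⟩ := ht0S
      rw [← h] at hF hθ
      exact absurd hθ (not_le.mpr (hinit e he y hy F hF θ))
  -- at `t0` everything is nonnegative
  obtain ⟨r, hr1, hr2⟩ := root_exists n
  have hnonneg : ∀ e ∈ atlas (En n) M, ∀ y ∈ ctarget e, ∀ F : Mt n,
      Fᵀ * (g t0).G e y * F = 1 → ∀ θ,
        B (X (rot (Rc ((g t0).G e) y) F)) t0 ≤ L θ (rot (Rc ((g t0).G e) y) F) := by
    intro e he y hy F hF θ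
    have hIoo : ∀ᶠ t in 𝓝[<] t0, t ∈ Ioo 0 t0 := Ioo_mem_nhdsLT ht0pos
    have htD : ∀ᶠ t in 𝓝[<] t0, t ∈ Ico 0 T := hIoo.mono fun t ht =>
      ⟨ht.1.le, ht.2.trans ht0T.2⟩
    have lt0 : Tendsto (fun t : ℝ => t) (𝓝[<] t0) (𝓝 t0) := tendsto_id.mono_left nhdsWithin_le_nhds
    obtain ⟨lG, -, lR⟩ := tendsto_G (l := 𝓝[<] t0) (t := fun t => t) (y := fun _ => y) hg he
      ht0T hy htD (Eventually.of_forall fun _ => hy) lt0 tendsto_const_nhds
    have hpos : ∀ t, (Fᵀ * (g t).G e y * F).PosDef := fun t =>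
      posDef_conj ((g t).posDef e he y hy) (det_frame hF)
    have lA : Tendsto (fun t => Fᵀ * (g t).G e y * F) (𝓝[<] t0) (𝓝 1) := by
      rw [← hF]
      exact (tendsto_const_nhds.mul lG).mul tendsto_const_nhds
    have lA' : Tendsto (fun t => Fᵀ * (g t).G e y * F) (𝓝[<] t0)
        (𝓝[{A : Mt n | A.PosDef}] 1) := by
      rw [tendsto_nhdsWithin_iff]
      exact ⟨lA, Eventually.of_forall fun t => hpos t⟩
    have lr : Tendsto (fun t => F * r (Fᵀ * (g t).G e y * F)) (𝓝[<] t0) (𝓝 F) := by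
      have := (tendsto_const_nhds (x := F)).mul (hr2.comp lA')
      rwa [mul_one] at this
    have hfr : ∀ t, (F * r (Fᵀ * (g t).G e y * F))ᵀ * (g t).G e y *
        (F * r (Fᵀ * (g t).G e y * F)) = 1 := by
      intro t
      have := hr1 _ (hpos t)
      rw [← this]
      simp only [Matrix.transpose_mul, Matrix.mul_assoc]
    have k1 : Tendsto (fun t => rot (Rc ((g t).G e) y) (F * r (Fᵀ * (g t).G e y * F)))
        (𝓝[<] t0) (𝓝 (rot (Rc ((g t0).G e) y) F)) := tendsto_rot lR lr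
    have k2 : Continuous (fun R : T4 n => L θ R) :=
      LinearMap.continuous_of_finiteDimensional (L θ)
    have lim1 := (k2.tendsto _).comp k1
    have lim2 : Tendsto (fun t => B (X (rot (Rc ((g t).G e) y) (F * r (Fᵀ * (g t).G e y * F)))) t)
        (𝓝[<] t0) (𝓝 (B (X (rot (Rc ((g t0).G e) y) F)) t0)) := by
      have hc := (hB _ (hXp t0 ⟨ht00, ht01⟩ e he y hy F hF) t0 ⟨ht00, ht01⟩).continuousAt
      exact hc.tendsto.comp (((hXc.tendsto _).comp k1).prodMk_nhds lt0)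
    refine le_of_tendsto_of_tendsto lim2 lim1 ?_
    filter_upwards [hIoo] with t ht
    exact (hbefore t ht.1.le ht.2 e he y hy _ (hfr t) θ).le
  -- the contradiction
  obtain ⟨e, he, y, hy, E, hE, θ, hθ⟩ := ht0S
  have hz : L θ (rot (Rc ((g t0).G e) y) E) = B (X (rot (Rc ((g t0).G e) y) E)) t0 :=
    le_antisymm hθ (hnonneg e he y hy E hE θ)
  have hyK : e.symm (WithLp.toLp 2 y) ∈ Kc := by
    by_contra hk
    exact absurd hθ (not_le.mpr (hout t0 ⟨ht00, ht01⟩ e he y hy hk E hE θ))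
  obtain ⟨m, d, hm, hd, hmd⟩ := hode t0 ⟨ht0pos, ht01⟩ e he y hy hyK
    (fun F hF θ => hnonneg e he y hy F hF θ) E hE θ hz
  set x0 := X (rot (Rc ((g t0).G e) y) E) with hx0
  have hx0p : 0 < x0 := hXp t0 ⟨ht00, ht01⟩ e he y hy E hE
  set η := (L θ (QQ (rot (Rc ((g t0).G e) y) E)) - m * X (QQ (rot (Rc ((g t0).G e) y) E)) - d) / 2 with hη
  have hη0 : 0 < η := by rw [hη]; linarith
  have hopen : Ioo 0 T ×ˢ ctarget e ∈ 𝓝 (t0, y) :=
    (isOpen_Ioo.prod (isOpen_ctarget e)).mem_nhds ⟨⟨ht0pos, ht0T.2⟩, hy⟩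
  have hloc : LocFlow (fun t => (g t).G e) t0 y := by
    refine ⟨?_, ?_, ?_, ?_⟩
    · filter_upwards [hopen] with p hp i j
      have hn : Ico 0 T ×ˢ ctarget e ∈ 𝓝 p := by
        have : Ioo 0 T ×ˢ ctarget e ∈ 𝓝 p :=
          (isOpen_Ioo.prod (isOpen_ctarget e)).mem_nhds hp
        exact mem_of_superset this (prod_mono Ioo_subset_Ico_self le_rfl)
      exact (hg.1 e he i j).contDiffAt hn
    · filter_upwards [hopen] with p hp
      exact isSymm_of_posDef ((g p.1).posDef e he p.2 hp.2)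
    · filter_upwards [hopen] with p hp
      exact (g p.1).posDef e he p.2 hp.2
    · filter_upwards [hopen] with p hp i j
      exact (hg.2 e he p.2 hp.2 p.1 ⟨hp.1.1.le, hp.1.2⟩ i j).hasDerivAt
        (Ico_mem_nhds hp.1.1 hp.1.2)
  -- strict differentiability of the barrier
  have hBs := (hB x0 hx0p t0 ⟨ht00, ht01⟩).hasStrictFDerivAt one_ne_zero
  have hBd : (fderiv ℝ (fun p : ℝ × ℝ => B p.1 p.2) (x0, t0)) (0, 1) = d := by
    have h1 : HasDerivAt (fun τ : ℝ => ((x0, τ) : ℝ × ℝ)) (0, 1) t0 :=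
      (hasDerivAt_const t0 x0).prodMk (hasDerivAt_id t0)
    have h2 : HasFDerivAt (fun p : ℝ × ℝ => B p.1 p.2) (fderiv ℝ (fun p : ℝ × ℝ => B p.1 p.2) (x0, t0))
        ((fun τ : ℝ => ((x0, τ) : ℝ × ℝ)) t0) := hBs.hasFDerivAt
    have h3 := h2.comp_hasDerivAt t0 h1
    exact h3.unique hd
  have hBe : ∀ᶠ q : (ℝ × ℝ) in 𝓝 (x0, t0), q.2 ≤ t0 → B q.1 t0 + (d + η) * (q.2 - t0) ≤ B q.1 q.2 := by
    have h1 := hBs.isLittleO.def hη0
    have hc : Continuous (fun q : ℝ × ℝ => (((q.1, q.2), (q.1, t0)) : (ℝ × ℝ) × (ℝ × ℝ))) := by fun_prop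
    have h2 : ∀ᶠ q : ℝ × ℝ in 𝓝 (x0, t0), _ := (hc.tendsto (x0, t0)).eventually h1
    filter_upwards [h2] with q hq hle
    have e1 : ((q.1, q.2) : ℝ × ℝ) - (q.1, t0) = (q.2 - t0) • ((0, 1) : ℝ × ℝ) := by
      ext <;> simp
    simp only [e1] at hq
    rw [map_smul, hBd, norm_smul] at hq
    have e2 : ‖((0, 1) : ℝ × ℝ)‖ = 1 := by simp [Prod.norm_def]
    rw [e2, mul_one, smul_eq_mul, Real.norm_eq_abs, Real.norm_eq_abs] at hq
    have e3 : |q.2 - t0| = -(q.2 - t0) := abs_of_nonpos (by linarith)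
    rw [e3] at hq
    have h4 := (abs_le.1 hq).1
    nlinarith
  obtain ⟨W, hW, hWs⟩ : ∃ W ∈ 𝓝 x0, ∀ᶠ s : ℝ in 𝓝 t0, ∀ x ∈ W, 0 < x ∧
      (s ≤ t0 → B x t0 + (d + η) * (s - t0) ≤ B x s) := by
    rw [nhds_prod_eq, eventually_prod_iff] at hBe
    obtain ⟨pa, hpa, pb, hpb, hab⟩ := hBe
    refine ⟨{x | pa x} ∩ Ioi 0, inter_mem hpa (Ioi_mem_nhds hx0p), ?_⟩
    filter_upwards [hpb] with s hs x hx
    exact ⟨hx.2, fun hle => hab hx.1 hs hle⟩
  have hXe : ∀ᶠ p : ℝ × Eu n in 𝓝 (t0, y), ∀ F : Mt n, Fᵀ * (g p.1).G e p.2 * F = 1 →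
      X (rot (Rc ((g p.1).G e) p.2) F) ∈ W := by
    refine inv_cont (l := 𝓝 (t0, y)) (t := fun p : ℝ × Eu n => p.1) (y := fun p : ℝ × Eu n => p.2)
      hg he ht0T hy ?_ ?_ continuous_fst.continuousAt continuous_snd.continuousAt X hX hE hW
    · filter_upwards [hopen] with p hp
      exact ⟨hp.1.1.le, hp.1.2⟩
    · filter_upwards [hopen] with p hp
      exact hp.2
  have hWt : ∀ᶠ p : ℝ × Eu n in 𝓝 (t0, y), ∀ x ∈ W, 0 < x ∧
      (p.1 ≤ t0 → B x t0 + (d + η) * (p.1 - t0) ≤ B x p.1) :=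
    (continuous_fst.tendsto (t0, y)).eventually hWs
  have h2 := ptl hloc (L θ - m • X) E hE (fun t => -(B x0 t0 - m * x0) - (d + η) * (t - t0)) (-(d + η))
    (by
      have h0 : HasDerivAt (fun t : ℝ => t - t0) 1 t0 := (hasDerivAt_id t0).sub_const t0
      have h1 := (h0.const_mul (d + η)).const_sub (-(B x0 t0 - m * x0))
      simpa using h1) (by
    filter_upwards [hopen, hXe, hWt] with p hp hpX hpW hle F hF
    have hmem := hpX F hF
    obtain ⟨hxp, hxB⟩ := hpW _ hmem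
    have hxB' := hxB hle
    have hlow : B (X (rot (Rc ((g p.1).G e) p.2) F)) p.1 ≤ L θ (rot (Rc ((g p.1).G e) p.2) F) := by
      rcases hle.lt_or_eq with h | h
      · exact (hbefore p.1 hp.1.1.le h e he p.2 hp.2 F hF θ).le
      · have hF2 : Fᵀ * (g t0).G e p.2 * F = 1 := by rw [← h]; exact hF
        have := hnonneg e he p.2 hp.2 F hF2 θ
        rw [← h] at this
        exact this
    have htan := hm _ hxp
    simp only [LinearMap.sub_apply, LinearMap.smul_apply, smul_eq_mul]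
    linarith) (by
      simp only [LinearMap.sub_apply, LinearMap.smul_apply, smul_eq_mul]
      rw [hz]
      ring)
  simp only [LinearMap.sub_apply, LinearMap.smul_apply, smul_eq_mul] at h2
  linarith

/-- a lower bound over a compact set -/
theorem low_bound {T : ℝ} {g : ℝ → Metric n M} (hg : IsRicciFlow T g) {t1 : ℝ} (ht1 : t1 < T)
    {Kc : Set M} (hKc : IsCompact Kc) (X : T4 n →ₗ[ℝ] ℝ)
    (hXp : ∀ t ∈ Icc 0 t1, ∀ e ∈ atlas (En n) M, ∀ y ∈ ctarget e, ∀ F : Mt n,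
      Fᵀ * (g t).G e y * F = 1 → 0 < X (rot (Rc ((g t).G e) y) F)) :
    ∃ x0 > 0, ∀ t ∈ Icc 0 t1, ∀ e ∈ atlas (En n) M, ∀ y ∈ ctarget e,
      e.symm (WithLp.toLp 2 y) ∈ Kc → ∀ F : Mt n, Fᵀ * (g t).G e y * F = 1 →
        x0 ≤ X (rot (Rc ((g t).G e) y) F) := by
  by_contra hcon
  push Not at hcon
  have hcon' : ∀ k : ℕ, ∃ t ∈ Icc 0 t1, ∃ e ∈ atlas (En n) M, ∃ y ∈ ctarget e,
      e.symm (WithLp.toLp 2 y) ∈ Kc ∧ ∃ F : Mt n, Fᵀ * (g t).G e y * F = 1 ∧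
        X (rot (Rc ((g t).G e) y) F) < 1 / ((k : ℝ) + 1) := fun k => hcon _ (by positivity)
  choose t ht e he y hy hK F hF hlt using hcon'
  let 𝒰 : Ultrafilter ℕ := hyperfilter ℕ
  have hle : (𝒰 : Filter ℕ) ≤ atTop := Nat.hyperfilter_le_atTop
  obtain ⟨t0, ht0, hut⟩ := isCompact_Icc.ultrafilter_le_nhds (𝒰.map t) (by
    rw [le_principal_iff]
    exact Filter.mem_map.2 (Filter.univ_mem' ht))
  have hu' : Tendsto t 𝒰 (𝓝 t0) := hut
  obtain ⟨e0, he0, y0, hy0, F0, hF0, hlim⟩ := closure_cpt hg hKc 𝒰 t t0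
      ⟨ht0.1, lt_of_le_of_lt ht0.2 ht1⟩
      (fun k => ⟨(ht k).1, lt_of_le_of_lt (ht k).2 ht1⟩) hu' e he y hy hK F hF
  have hXc : Continuous (fun R : T4 n => X R) := LinearMap.continuous_of_finiteDimensional X
  have h1 := (hXc.tendsto _).comp hlim
  have h2 : Tendsto (fun k : ℕ => 1 / ((k : ℝ) + 1)) 𝒰 (𝓝 0) :=
    tendsto_one_div_add_atTop_nhds_zero_nat.mono_left hle
  have h3 := le_of_tendsto_of_tendsto' h1 h2 (fun k => (hlt k).le)
  exact absurd (hXp t0 ht0 e0 he0 y0 hy0 F0 hF0) (not_lt.mpr h3)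

end

end Run7.h967.GM
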