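import Mathlib

/-!
# The barrier

`x / (q + a log (1 + E G))`, `G = (z + 1) (z + 1 + τ + S)^(1 - β) / (z + 1 + τ)`, `z = 1 / x`, `τ = 4 t`.
-/

set_option autoImplicit false
set_option linter.all false
open Set Filter Topology

namespace Run7.h967.GM

/-- concave in `z`, decreasing in `τ` -/
noncomputable def Gf (β S z τ : ℝ) : ℝ := (z + 1) * ((z + 1 + τ + S) ^ (1 - β) / (z + 1 + τ))

noncomputable def Qf (q a E β S z τ : ℝ) : ℝ := q + a * Real.log (1 + E * Gf β S z τ)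

/-- the barrier -/
noncomputable def Ff (q a E β S x t : ℝ) : ℝ := x / Qf q a E β S (1 / x) (4 * t)

theorem Gf_pos {β S z τ : ℝ} (hS : 0 ≤ S) (hz : 0 ≤ z) (hτ : 0 ≤ τ) : 0 < Gf β S z τ := by
  unfold Gf
  have : 0 < z + 1 + τ := by linarith
  have : 0 < z + 1 + τ + S := by linarith
  positivity

theorem Qf_gt {q a E β S z τ : ℝ} (ha : 0 < a) (hE : 0 < E) (hS : 0 ≤ S) (hz : 0 ≤ z) (hτ : 0 ≤ τ) :
    q < Qf q a E β S z τ := by
  unfold Qf
  have h1 := Gf_pos (β := β) hS hz hτ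
  have h2 : 0 < Real.log (1 + E * Gf β S z τ) := Real.log_pos (by nlinarith [mul_pos hE h1])
  nlinarith [mul_pos ha h2]

theorem exp_tan {x : ℝ} : 1 + x ≤ Real.exp x := by
  have := Real.add_one_le_exp x
  linarith

/-- `ρ` -/
noncomputable def rc (β S z τ : ℝ) : ℝ := (z + 1) / (z + 1 + τ) - (1 - β) * (z + 1) / (z + 1 + τ + S)

theorem Gf_tangent {β S z z0 τ : ℝ} (hβ0 : 0 ≤ β) (hβ1 : β ≤ 1) (hS : 0 ≤ S) (hz : 0 ≤ z) (hz0 : 0 ≤ z0)
    (hτ : 0 ≤ τ) :
    Gf β S z τ ≤ Gf β S z0 τ +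
      (z0 + 1 + τ + S) ^ (1 - β) / (z0 + 1 + τ) * (1 - rc β S z0 τ) * (z - z0) := by
  set w0 := z0 + 1 + τ with hw0
  set w := z + 1 + τ with hw
  set u0 := w0 + S with hu0
  set u := w + S with hu
  have hw0p : 0 < w0 := by linarith
  have hwp : 0 < w := by linarith
  have hu0p : 0 < u0 := by linarith
  have hup : 0 < u := by linarith
  set r := u / u0 with hr
  set p := w / w0 with hp
  have hrp : 0 < r := div_pos hup hu0p
  have hpp : 0 < p := div_pos hwp hw0p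
  have hur : u = u0 * r := by rw [hr]; field_simp
  have hwr : w = w0 * p := by rw [hp]; field_simp
  -- the value in terms of `A = u0 ^ (-β)`
  set A := u0 ^ (-β) with hA
  have hAp : 0 < A := Real.rpow_pos_of_pos hu0p _
  have e0 : ∀ v : ℝ, 0 < v → v ^ (1 - β) = v * v ^ (-β) := by
    intro v hv
    rw [sub_eq_add_neg, Real.rpow_add hv, Real.rpow_one]
  have e1 : u ^ (-β) = A * r ^ (-β) := by
    rw [hur, Real.mul_rpow hu0p.le hrp.le]
  -- tangent inequalities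
  have t1 : r * r ^ (-β) ≤ 1 + (1 - β) * (r - 1) := by
    rw [← e0 r hrp]
    have h4 := rpow_one_add_le_one_add_mul_self (s := r - 1) (by linarith) (p := 1 - β)
      (by linarith) (by linarith)
    have h5 : 1 + (r - 1) = r := by ring
    rw [h5] at h4
    exact h4
  have hlr := Real.log_le_sub_one_of_pos hrp
  have hlp := Real.log_le_sub_one_of_pos hpp
  have e3 : r ^ (-β) = Real.exp (Real.log r * -β) := Real.rpow_def_of_pos hrp _
  have t2 : 1 - β * (r - 1) ≤ r ^ (-β) := by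
    rw [e3]
    refine le_trans ?_ exp_tan
    nlinarith [mul_le_mul_of_nonneg_left hlr hβ0]
  have t3 : 1 - β * (r - 1) - (p - 1) ≤ r ^ (-β) * p⁻¹ := by
    have : r ^ (-β) * p⁻¹ = Real.exp (Real.log r * -β - Real.log p) := by
      rw [sub_eq_add_neg, Real.exp_add, e3, ← Real.log_inv, Real.exp_log (inv_pos.2 hpp)]
    rw [this]
    refine le_trans ?_ exp_tan
    nlinarith [mul_le_mul_of_nonneg_left hlr hβ0]
  -- `G = A * (u0 r r^{-β} - τ (r^{-β} + S / w0 * r^{-β} / p))`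
  have g1 : Gf β S z τ = A * (u0 * (r * r ^ (-β)) - τ * (r ^ (-β) + S / w0 * (r ^ (-β) * p⁻¹))) := by
    have k1 : z + 1 = w - τ := by rw [hw]; ring
    have k2 : Gf β S z τ = (w - τ) * ((u * (A * r ^ (-β))) / w) := by
      rw [Gf, ← hw, ← hu, e0 u hup, e1, k1]
    rw [k2]
    have k3 : u / w = 1 + S / w0 * p⁻¹ := by
      rw [hu, hwr]; field_simp
    have k4 : (w - τ) * ((u * (A * r ^ (-β))) / w) = A * (u * r ^ (-β) - τ * (u / w * r ^ (-β))) := by
      field_simp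
    rw [k4, k3]
    nth_rewrite 1 [hur]
    ring
  have g2 : Gf β S z0 τ + u0 ^ (1 - β) / w0 * (1 - rc β S z0 τ) * (z - z0) =
      A * (u0 * (1 + (1 - β) * (r - 1)) - τ * ((1 - β * (r - 1)) + S / w0 * (1 - β * (r - 1) - (p - 1)))) := by
    have k1 : z0 + 1 = w0 - τ := by rw [hw0]; ring
    have k2 : Gf β S z0 τ = (w0 - τ) * ((u0 * A) / w0) := by
      rw [Gf, ← hw0, ← hu0, e0 u0 hu0p, k1]
    have k3 : rc β S z0 τ = (w0 - τ) / w0 - (1 - β) * (w0 - τ) / u0 := by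
      rw [rc, ← hw0, ← hu0, k1]
    have k4 : z - z0 = w0 * (p - 1) := by
      rw [mul_sub, ← hwr, mul_one, hw, hw0]; ring
    have k5 : u0 * (r - 1) = w0 * (p - 1) := by
      rw [mul_sub, mul_sub, ← hur, ← hwr, hu, hu0]; ring
    have k6 : r - 1 = w0 * (p - 1) / u0 := by
      rw [← k5]; field_simp
    rw [k2, k3, k4, k6, e0 u0 hu0p, ← hA]
    have hS' : S = u0 - w0 := by rw [hu0]; ring
    rw [hS']
    field_simp
    ring
  rw [g1, g2]
  apply mul_le_mul_of_nonneg_left _ hAp.le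
  have h4 := mul_le_mul_of_nonneg_left t1 hu0p.le
  have h5 := mul_le_mul_of_nonneg_left t2 hτ
  have h6 : 0 ≤ S / w0 := by positivity
  have h7 := mul_le_mul_of_nonneg_left (mul_le_mul_of_nonneg_left t3 h6) hτ
  linarith

/-- the constants at a point -/
noncomputable def Dc (E β S z τ : ℝ) : ℝ := E * Gf β S z τ / (1 + E * Gf β S z τ) * (z / (z + 1))

theorem Dc_bd {E β S z τ : ℝ} (hE : 0 < E) (hS : 0 ≤ S) (hz : 0 ≤ z) (hτ : 0 ≤ τ) :
    0 ≤ Dc E β S z τ ∧ Dc E β S z τ ≤ 1 := by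
  have h1 := mul_pos hE (Gf_pos (β := β) hS hz hτ)
  unfold Dc
  have h2 : E * Gf β S z τ / (1 + E * Gf β S z τ) ≤ 1 := by
    rw [div_le_one (by linarith)]; linarith
  have h3 : z / (z + 1) ≤ 1 := by
    rw [div_le_one (by linarith)]; linarith
  have h4 : 0 ≤ z / (z + 1) := by positivity
  have h5 : 0 ≤ E * Gf β S z τ / (1 + E * Gf β S z τ) := by positivity
  exact ⟨by positivity, mul_le_one₀ h2 h4 h3⟩

theorem rc_bd {β S z τ : ℝ} (hβ0 : 0 ≤ β) (hβ1 : β ≤ 1) (hS : 0 ≤ S) (hz : 0 ≤ z) (hτ : 0 ≤ τ) :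
    0 ≤ rc β S z τ ∧ rc β S z τ ≤ 1 := by
  have hw : 0 < z + 1 + τ := by linarith
  have hu : 0 < z + 1 + τ + S := by linarith
  unfold rc
  constructor
  · rw [sub_nonneg, div_le_div_iff₀ hu hw]
    have h1 : (1 - β) * (z + 1) * (z + 1 + τ) ≤ 1 * (z + 1) * (z + 1 + τ) := by
      apply mul_le_mul_of_nonneg_right _ hw.le
      apply mul_le_mul_of_nonneg_right _ (by linarith)
      linarith
    have h2 : 0 ≤ (z + 1) * S := by positivity
    linarith
  · have h1 : (z + 1) / (z + 1 + τ) ≤ 1 := by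
      rw [div_le_one hw]; linarith
    have h2 : 0 ≤ (1 - β) * (z + 1) / (z + 1 + τ + S) := by
      apply div_nonneg _ hu.le
      apply mul_nonneg <;> linarith
    linarith

theorem Qf_tangent {q a E β S z z0 τ : ℝ} (ha : 0 < a) (hE : 0 < E) (hβ0 : 0 ≤ β) (hβ1 : β ≤ 1)
    (hS : 0 ≤ S) (hz : 0 ≤ z) (hz0 : 0 < z0) (hτ : 0 ≤ τ) :
    Qf q a E β S z τ ≤ Qf q a E β S z0 τ + a * Dc E β S z0 τ * (1 - rc β S z0 τ) / z0 * (z - z0) := by
  have h1 := Gf_tangent hβ0 hβ1 hS hz hz0.le hτ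
  have hG := Gf_pos (β := β) hS hz hτ
  have hG0 := Gf_pos (β := β) hS hz0.le hτ
  have hp : 0 < 1 + E * Gf β S z τ := by positivity
  have hp0 : 0 < 1 + E * Gf β S z0 τ := by positivity
  have h2 : Real.log (1 + E * Gf β S z τ) ≤ Real.log (1 + E * Gf β S z0 τ) +
      E * (Gf β S z τ - Gf β S z0 τ) / (1 + E * Gf β S z0 τ) := by
    have h3 := Real.log_le_sub_one_of_pos (div_pos hp hp0)
    rw [Real.log_div hp.ne' hp0.ne'] at h3
    have h4 : (1 + E * Gf β S z τ) / (1 + E * Gf β S z0 τ) - 1 =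
        E * (Gf β S z τ - Gf β S z0 τ) / (1 + E * Gf β S z0 τ) := by
      field_simp; ring
    linarith
  have h5 : E * (Gf β S z τ - Gf β S z0 τ) / (1 + E * Gf β S z0 τ) ≤
      Dc E β S z0 τ * (1 - rc β S z0 τ) / z0 * (z - z0) := by
    have h6 : Dc E β S z0 τ * (1 - rc β S z0 τ) / z0 * (z - z0) =
        E * ((z0 + 1 + τ + S) ^ (1 - β) / (z0 + 1 + τ) * (1 - rc β S z0 τ) * (z - z0)) /
          (1 + E * Gf β S z0 τ) := by
      rw [Dc]
      have key : ∀ X G P ρ : ℝ, 0 < X → G = (z0 + 1) * P →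
          E * G / X * (z0 / (z0 + 1)) * (1 - ρ) / z0 * (z - z0) =
          E * (P * (1 - ρ) * (z - z0)) / X := by
        intro X G P ρ hX hG
        have hX' := hX.ne'
        have hz1 : z0 + 1 ≠ 0 := by positivity
        rw [hG]
        field_simp
      exact key _ _ _ _ hp0 rfl
    rw [h6]
    rw [div_le_div_iff_of_pos_right hp0]
    apply mul_le_mul_of_nonneg_left _ hE.le
    linarith
  unfold Qf
  have h7 := mul_le_mul_of_nonneg_left (h2.trans (add_le_add le_rfl h5)) ha.le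
  have e8 : a * (Real.log (1 + E * Gf β S z0 τ) + Dc E β S z0 τ * (1 - rc β S z0 τ) / z0 * (z - z0)) =
    a * Real.log (1 + E * Gf β S z0 τ) + a * Dc E β S z0 τ * (1 - rc β S z0 τ) / z0 * (z - z0) := by ring
  rw [e8] at h7
  linarith

/-- the supporting line in `x` -/
theorem Ff_tangent {q a E β S x x0 t : ℝ} (hq : 0 < q) (ha : 0 < a) (hE : 0 < E) (hβ0 : 0 ≤ β) (hβ1 : β ≤ 1)
    (hS : 0 ≤ S) (hx : 0 < x) (hx0 : 0 < x0) (ht : 0 ≤ t) :
    Ff q a E β S x0 t + (1 / Qf q a E β S (1 / x0) (4 * t) +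
      a * Dc E β S (1 / x0) (4 * t) * (1 - rc β S (1 / x0) (4 * t)) *
        (1 / Qf q a E β S (1 / x0) (4 * t)) ^ 2) * (x - x0) ≤ Ff q a E β S x t := by
  have hτ : 0 ≤ 4 * t := by linarith
  set τ := 4 * t with hτd
  have hz : 0 ≤ 1 / x := by positivity
  have hz0 : 0 < 1 / x0 := by positivity
  have h1 := Qf_tangent (q := q) ha hE hβ0 hβ1 hS hz hz0 hτ
  have hQ := hq.trans (Qf_gt (q := q) (β := β) ha hE hS hz hτ)
  have hQ0 := hq.trans (Qf_gt (q := q) (β := β) ha hE hS hz0.le hτ)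
  unfold Ff
  rw [← hτd]
  set Q := Qf q a E β S (1 / x) τ with hQd
  set Q0 := Qf q a E β S (1 / x0) τ with hQ0d
  set k := a * Dc E β S (1 / x0) τ * (1 - rc β S (1 / x0) τ) with hk
  set y := k / (1 / x0) * (1 / x - 1 / x0) with hy
  have hpos : 0 < Q0 + y := lt_of_lt_of_le hQ h1
  have h2 : 1 / Q0 - y / Q0 ^ 2 ≤ 1 / Q := by
    have h3 : 1 / Q0 - y / Q0 ^ 2 ≤ 1 / (Q0 + y) := by
      rw [le_div_iff₀ hpos]
      have : (1 / Q0 - y / Q0 ^ 2) * (Q0 + y) = 1 - (y / Q0) ^ 2 := by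
        field_simp; ring
      rw [this]
      nlinarith [sq_nonneg (y / Q0)]
    exact h3.trans (one_div_le_one_div_of_le hQ h1)
  have h4 : x * (1 / Q0 - y / Q0 ^ 2) ≤ x * (1 / Q) := mul_le_mul_of_nonneg_left h2 hx.le
  have h5 : x * (1 / Q0 - y / Q0 ^ 2) = x0 / Q0 + (1 / Q0 + k * (1 / Q0) ^ 2) * (x - x0) := by
    rw [hy]; field_simp; ring
  rw [h5] at h4
  calc x0 / Q0 + (1 / Q0 + k * (1 / Q0) ^ 2) * (x - x0) ≤ x * (1 / Q) := h4
    _ = x / Q := by ring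

/-- the time derivative -/
theorem Ff_deriv {q a E β S x t : ℝ} (hq : 0 < q) (ha : 0 < a) (hE : 0 < E) (hS : 0 ≤ S) (hx : 0 < x)
    (ht : 0 ≤ t) :
    HasDerivAt (fun t => Ff q a E β S x t)
      (4 * a * Dc E β S (1 / x) (4 * t) * rc β S (1 / x) (4 * t) * x ^ 2 *
        (1 / Qf q a E β S (1 / x) (4 * t)) ^ 2) t := by
  have hτ : 0 ≤ 4 * t := by linarith
  have hz : 0 < 1 / x := by positivity
  have hG := Gf_pos (β := β) hS hz.le hτ
  have hw : 0 < 1 / x + 1 + 4 * t := by linarith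
  have hu : 0 < 1 / x + 1 + 4 * t + S := by linarith
  have hQ := hq.trans (Qf_gt (q := q) (β := β) ha hE hS hz.le hτ)
  have h1 : HasDerivAt (fun t : ℝ => 1 / x + 1 + 4 * t) 4 t := by
    simpa using ((hasDerivAt_id t).const_mul 4).const_add (1 / x + 1)
  have h1' : HasDerivAt (fun t : ℝ => 1 / x + 1 + 4 * t + S) 4 t := h1.add_const S
  have h2 : HasDerivAt (fun t : ℝ => 1 + E * Gf β S (1 / x) (4 * t))
      (E * ((1 / x + 1) * ((4 * (1 - β) * (1 / x + 1 + 4 * t + S) ^ (1 - β - 1) * (1 / x + 1 + 4 * t) -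
        (1 / x + 1 + 4 * t + S) ^ (1 - β) * 4) / (1 / x + 1 + 4 * t) ^ 2))) t :=
    ((((h1'.rpow_const (p := 1 - β) (Or.inl hu.ne')).div h1 hw.ne').const_mul (1 / x + 1)).const_mul
      E).const_add 1
  have hp : 0 < 1 + E * Gf β S (1 / x) (4 * t) := by positivity
  have h4 : HasDerivAt (fun t : ℝ => Qf q a E β S (1 / x) (4 * t))
      (a * ((E * ((1 / x + 1) * ((4 * (1 - β) * (1 / x + 1 + 4 * t + S) ^ (1 - β - 1) * (1 / x + 1 + 4 * t) -
        (1 / x + 1 + 4 * t + S) ^ (1 - β) * 4) / (1 / x + 1 + 4 * t) ^ 2))) /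
        (1 + E * Gf β S (1 / x) (4 * t)))) t :=
    ((h2.log hp.ne').const_mul a).const_add q
  have h6 : HasDerivAt (fun t : ℝ => Ff q a E β S x t)
      ((0 * Qf q a E β S (1 / x) (4 * t) - x * (a * ((E * ((1 / x + 1) * ((4 * (1 - β) *
        (1 / x + 1 + 4 * t + S) ^ (1 - β - 1) * (1 / x + 1 + 4 * t) -
        (1 / x + 1 + 4 * t + S) ^ (1 - β) * 4) / (1 / x + 1 + 4 * t) ^ 2))) /
        (1 + E * Gf β S (1 / x) (4 * t))))) / Qf q a E β S (1 / x) (4 * t) ^ 2) t :=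
    (hasDerivAt_const t x).div h4 hQ.ne'
  refine h6.congr_deriv ?_
  have e1 : (1 / x + 1 + 4 * t + S) ^ (1 - β - 1) = (1 / x + 1 + 4 * t + S) ^ (1 - β) /
      (1 / x + 1 + 4 * t + S) := by
    rw [Real.rpow_sub_one hu.ne']
  rw [e1, Dc, rc]
  have e2 : Gf β S (1 / x) (4 * t) = (1 / x + 1) * ((1 / x + 1 + 4 * t + S) ^ (1 - β) / (1 / x + 1 + 4 * t)) := rfl
  have hp2 := hp
  rw [e2] at hp2
  simp only [zero_mul, zero_sub]
  rw [e2]
  set P := (1 / x + 1 + 4 * t + S) ^ (1 - β) with hP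
  set u := 1 / x + 1 + 4 * t + S with hud
  set w := 1 / x + 1 + 4 * t with hwd
  set Q := Qf q a E β S (1 / x) (4 * t) with hQd
  set z := 1 / x with hzd
  have hxz : x = 1 / z := by rw [hzd]; field_simp
  rw [hxz]
  have hz1 : z + 1 ≠ 0 := by positivity
  have hpn := hp2.ne'
  have hwn := hw.ne'
  have hun := hu.ne'
  have hQn := hQ.ne'
  have hzn := hz.ne'
  have hX : 1 + E * ((z + 1) * (P / w)) = (w + E * (z + 1) * P) / w := by field_simp
  have hXn : w + E * (z + 1) * P ≠ 0 := by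
    intro h0
    rw [hX, h0, zero_div] at hp2
    exact lt_irrefl _ hp2
  rw [hX]
  field_simp
  ring

end Run7.h967.GM
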