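import Mathlib
import Pool.Agent.Run7.h967.GM.Barrier

/-!
# The ODE inequality, initial values and limits of the barrier
-/

set_option autoImplicit false
set_option linter.all false
open Set Filter Topology

namespace Run7.h967.GM

theorem ode {a x φ D ρ lam S1 S2 b1 b2 b LQ XQ : ℝ} (ha : 0 < a) (hx : 0 < x) (hφ : 0 < φ)
    (hφ1 : φ < (1 - 4 * a) / 2) (hD : 0 ≤ D) (hD1 : D ≤ 1) (hρ : 0 ≤ ρ) (hρ1 : ρ ≤ 1) (hl : 0 < lam)
    (h1 : lam * S1 = φ * x) (h2 : lam⁻¹ * S2 = φ * x) (h3 : 3 * S1 ≤ 2 * x) (h4 : 3 * S2 ≤ 2 * x)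
    (hb1 : 0 ≤ b1) (hb2 : 0 ≤ b2) (hb : 2 * b ≤ 2 * ((x - S1) * (x - S2)) + b1 + b2)
    (hL : lam * (2 * x * S1 - 3 / 2 * S1 ^ 2 + b1) + lam⁻¹ * (2 * x * S2 - 3 / 2 * S2 ^ 2 + b2) ≤ LQ)
    (hX : XQ ≤ 2 * (x ^ 2 + b)) :
    0 < LQ - (φ + a * D * (1 - ρ) * φ ^ 2) * XQ - 4 * a * D * ρ * x ^ 2 * φ ^ 2 := by
  have ha4 : a < 1 / 4 := by linarith
  have hφ2 : φ < 1 / 2 := by linarith
  set δ := a * D * (1 - ρ) with hδ
  have hδ0 : 0 ≤ δ := by
    have : 0 ≤ 1 - ρ := by linarith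
    positivity
  have haD : a * D ≤ a := by nlinarith
  have hδ1 : δ ≤ 1 / 4 := by
    have : a * D * (1 - ρ) ≤ a * D * 1 := by
      apply mul_le_mul_of_nonneg_left _ (by positivity); linarith
    rw [hδ]; linarith
  set m := φ + δ * φ ^ 2 with hm
  have hm0 : 0 < m := by positivity
  have hm1 : φ ≤ m := by rw [hm]; nlinarith [mul_nonneg hδ0 (sq_nonneg φ)]
  have hm2 : m ≤ 3 / 2 * φ := by
    have : δ * φ ^ 2 ≤ 1 / 4 * φ ^ 2 := mul_le_mul_of_nonneg_right hδ1 (sq_nonneg _)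
    rw [hm]
    nlinarith
  have hS1 : 0 < S1 := by
    have : 0 < lam * S1 := by rw [h1]; positivity
    exact (mul_pos_iff_of_pos_left hl).1 this
  have hli : 0 < lam⁻¹ := inv_pos.2 hl
  have hS2 : 0 < S2 := by
    have : 0 < lam⁻¹ * S2 := by rw [h2]; positivity
    exact (mul_pos_iff_of_pos_left hli).1 this
  have hml : m ≤ lam := by
    refine hm2.trans ?_
    have : 3 * (φ * x) ≤ lam * (2 * x) := by
      rw [← h1]
      nlinarith [mul_le_mul_of_nonneg_left h3 hl.le]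
    have h5 : (3 / 2 * φ) * x ≤ lam * x := by linarith
    exact le_of_mul_le_mul_right h5 hx
  have hml' : m ≤ lam⁻¹ := by
    refine hm2.trans ?_
    have : 3 * (φ * x) ≤ lam⁻¹ * (2 * x) := by
      rw [← h2]
      nlinarith [mul_le_mul_of_nonneg_left h4 hli.le]
    have h5 : (3 / 2 * φ) * x ≤ lam⁻¹ * x := by linarith
    exact le_of_mul_le_mul_right h5 hx
  have hprod : S1 * S2 = φ ^ 2 * x ^ 2 := by
    have : (lam * S1) * (lam⁻¹ * S2) = S1 * S2 := by
      field_simp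
    rw [← this, h1, h2]; ring
  have hs : 2 * (φ * x) ≤ S1 + S2 := by
    have hpx : 0 < φ * x := by positivity
    have h6 : (2 * (φ * x)) ^ 2 ≤ (S1 + S2) ^ 2 := by
      have : (S1 + S2) ^ 2 = (S1 - S2) ^ 2 + 4 * (φ ^ 2 * x ^ 2) := by rw [← hprod]; ring
      rw [this]
      nlinarith [sq_nonneg (S1 - S2)]
    exact (abs_le_of_sq_le_sq' h6 (by linarith)).2
  set s := S1 + S2 with hsd
  have e1 : lam * (2 * x * S1 - 3 / 2 * S1 ^ 2 + b1) + lam⁻¹ * (2 * x * S2 - 3 / 2 * S2 ^ 2 + b2) =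
      (φ * x) * (4 * x - 3 / 2 * s) + lam * b1 + lam⁻¹ * b2 := by
    have k1 : lam * (2 * x * S1 - 3 / 2 * S1 ^ 2 + b1) = (lam * S1) * (2 * x - 3 / 2 * S1) + lam * b1 := by ring
    have k2 : lam⁻¹ * (2 * x * S2 - 3 / 2 * S2 ^ 2 + b2) = (lam⁻¹ * S2) * (2 * x - 3 / 2 * S2) + lam⁻¹ * b2 := by
      ring
    rw [k1, k2, h1, h2, hsd]; ring
  have e2 : (x - S1) * (x - S2) = x ^ 2 - x * s + φ ^ 2 * x ^ 2 := by
    rw [← hprod, hsd]; ring
  have h7 : m * XQ ≤ 2 * m * x ^ 2 + m * (2 * (x ^ 2 - x * s + φ ^ 2 * x ^ 2) + b1 + b2) := by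
    have : m * XQ ≤ m * (2 * (x ^ 2 + b)) := mul_le_mul_of_nonneg_left hX hm0.le
    rw [e2] at hb
    have h8 := mul_le_mul_of_nonneg_left hb hm0.le
    have h8' : m * (2 * (x ^ 2 + b)) = 2 * m * x ^ 2 + m * (2 * b) := by ring
    linarith
  have h9 : m * b1 ≤ lam * b1 := mul_le_mul_of_nonneg_right hml hb1
  have h10 : m * b2 ≤ lam⁻¹ * b2 := mul_le_mul_of_nonneg_right hml' hb2
  -- monotonicity in `s`
  have h11 : 0 ≤ x * (2 * m - 3 / 2 * φ) * (s - 2 * (φ * x)) := by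
    apply mul_nonneg
    · apply mul_nonneg hx.le; linarith
    · linarith
  have h12 : 0 < x ^ 2 * φ ^ 2 * (1 - 2 * φ - 4 * (a * D) + 2 * δ * (φ * (2 - φ))) := by
    have : 0 ≤ 2 * δ * (φ * (2 - φ)) := by
      have : 0 ≤ 2 - φ := by linarith
      positivity
    have h13 : 0 < 1 - 2 * φ - 4 * (a * D) + 2 * δ * (φ * (2 - φ)) := by linarith
    positivity
  have e3 : (φ * x) * (4 * x - 3 / 2 * (2 * (φ * x))) - 2 * m * x ^ 2
      - 2 * m * (x ^ 2 - x * (2 * (φ * x)) + φ ^ 2 * x ^ 2) - 4 * a * D * ρ * x ^ 2 * φ ^ 2 =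
      x ^ 2 * φ ^ 2 * (1 - 2 * φ - 4 * (a * D) + 2 * δ * (φ * (2 - φ))) := by
    rw [hm, hδ]; ring
  have e4 : (φ * x) * (4 * x - 3 / 2 * s) - 2 * m * x ^ 2 - m * (2 * (x ^ 2 - x * s + φ ^ 2 * x ^ 2) + b1 + b2) =
      ((φ * x) * (4 * x - 3 / 2 * (2 * (φ * x))) - 2 * m * x ^ 2
      - 2 * m * (x ^ 2 - x * (2 * (φ * x)) + φ ^ 2 * x ^ 2)) +
      x * (2 * m - 3 / 2 * φ) * (s - 2 * (φ * x)) - m * b1 - m * b2 := by ring
  rw [e1] at hL
  linarith

/-- initial values -/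
theorem init {q a E β S z K c1 : ℝ} (hq : 0 < q) (ha : 0 < a) (hE : 0 < E) (hβ0 : 0 ≤ β) (hβ1 : β ≤ 1)
    (hS : 0 ≤ S) (hz : 0 ≤ z) (hc : c1 ≤ a * (1 - β)) (hK : K ≤ a * Real.log E) :
    c1 * Real.log (1 + z + S) + K < Qf q a E β S z 0 := by
  have hw : 0 < z + 1 := by linarith
  have hu : 0 < z + 1 + S := by linarith
  have hG := Gf_pos (β := β) (τ := 0) hS hz le_rfl
  have hlog : 0 ≤ Real.log (1 + z + S) := Real.log_nonneg (by linarith)
  have h1 : Real.log E + Real.log (Gf β S z 0) ≤ Real.log (1 + E * Gf β S z 0) := by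
    rw [← Real.log_mul hE.ne' hG.ne']
    exact Real.log_le_log (by positivity) (by linarith)
  have h2 : Real.log (Gf β S z 0) = (1 - β) * Real.log (1 + z + S) := by
    have : Gf β S z 0 = (z + 1 + S) ^ (1 - β) := by
      unfold Gf
      rw [add_zero]
      field_simp
    rw [this, Real.log_rpow hu]
    have : z + 1 + S = 1 + z + S := by ring
    rw [this]
  unfold Qf
  rw [h2] at h1
  have h8 := mul_le_mul_of_nonneg_left h1 ha.le
  have h9 : c1 * Real.log (1 + z + S) ≤ a * (1 - β) * Real.log (1 + z + S) := mul_le_mul_of_nonneg_right hc hlog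
  linarith

/-- small curvature -/
theorem outb {q a E β S z τ K c1 : ℝ} (hq : 0 < q) (ha : 0 < a) (hE : 0 < E) (hβ0 : 0 ≤ β) (hβ1 : β ≤ 1)
    (hS : 0 ≤ S) (hz : 0 ≤ z) (hτ : 0 ≤ τ) (hτz : τ ≤ z + 1) (hc : c1 ≤ a * (1 - β))
    (hK : K + a * Real.log 2 ≤ a * Real.log E) :
    c1 * Real.log (1 + z) + K < Qf q a E β S z τ := by
  have hz1 : 0 < z + 1 := by linarith
  have hw : 0 < z + 1 + τ := by linarith
  have hG := Gf_pos (β := β) hS hz hτ
  have hlog : 0 ≤ Real.log (1 + z) := Real.log_nonneg (by linarith)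
  have h1 : Real.log E + Real.log (Gf β S z τ) ≤ Real.log (1 + E * Gf β S z τ) := by
    rw [← Real.log_mul hE.ne' hG.ne']
    exact Real.log_le_log (by positivity) (by linarith)
  have h2 : (1 - β) * Real.log (1 + z) - Real.log 2 ≤ Real.log (Gf β S z τ) := by
    have h3 : (z + 1) ^ (1 - β) / 2 ≤ Gf β S z τ := by
      unfold Gf
      have h4 : (z + 1) ^ (1 - β) ≤ (z + 1 + τ + S) ^ (1 - β) :=
        Real.rpow_le_rpow hz1.le (by linarith) (by linarith)
      have h5 : (z + 1) ^ (1 - β) / (2 * (z + 1)) ≤ (z + 1 + τ + S) ^ (1 - β) / (z + 1 + τ) := by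
        apply div_le_div₀ (by positivity) h4 hw (by linarith)
      calc (z + 1) ^ (1 - β) / 2 = (z + 1) * ((z + 1) ^ (1 - β) / (2 * (z + 1))) := by field_simp
        _ ≤ _ := mul_le_mul_of_nonneg_left h5 hz1.le
    have h6 := Real.log_le_log (by positivity) h3
    rw [Real.log_div (by positivity) (by norm_num), Real.log_rpow hz1] at h6
    have h7 : z + 1 = 1 + z := by ring
    rw [h7] at h6
    exact h6
  unfold Qf
  have h8 : a * (Real.log E + ((1 - β) * Real.log (1 + z) - Real.log 2)) ≤ a * Real.log (1 + E * Gf β S z τ) :=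
    mul_le_mul_of_nonneg_left (by linarith) ha.le
  have h9 : c1 * Real.log (1 + z) ≤ a * (1 - β) * Real.log (1 + z) := mul_le_mul_of_nonneg_right hc hlog
  nlinarith

/-- the limit for early initial times -/
theorem lim {q a E β z t : ℝ} (hE : 0 < E) (hβ0 : 0 < β) (hβ1 : β ≤ 1) (hz : 0 ≤ z) :
    Tendsto (fun s : ℝ => Qf q a E β s z (4 * (t + s))) atTop (𝓝 q) := by
  have hw : Tendsto (fun s : ℝ => z + 1 + 4 * (t + s)) atTop atTop := by
    apply tendsto_atTop_add_const_left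
    exact (tendsto_atTop_add_const_left _ _ tendsto_id).const_mul_atTop (by norm_num)
  have h1 : Tendsto (fun s : ℝ => 2 * (z + 1) * (z + 1 + 4 * (t + s)) ^ (-β)) atTop (𝓝 0) := by
    have := ((tendsto_rpow_neg_atTop hβ0).comp hw).const_mul (2 * (z + 1))
    simpa using this
  have h2 : Tendsto (fun s : ℝ => Gf β s z (4 * (t + s))) atTop (𝓝 0) := by
    refine squeeze_zero' ?_ ?_ h1
    · filter_upwards [eventually_ge_atTop 0, eventually_ge_atTop (-t)] with s hs hs2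
      exact (Gf_pos (β := β) hs hz (by linarith)).le
    · filter_upwards [eventually_ge_atTop 0, eventually_ge_atTop (-t), eventually_ge_atTop (-4 * t)] with s hs hs2 hs3
      unfold Gf
      set w := z + 1 + 4 * (t + s) with hwd
      have hwp : 0 < w := by rw [hwd]; linarith
      have hsw : w + s ≤ 2 * w := by rw [hwd]; linarith
      have h3 : (w + s) ^ (1 - β) ≤ 2 * w ^ (1 - β) := by
        calc (w + s) ^ (1 - β) ≤ (2 * w) ^ (1 - β) := Real.rpow_le_rpow (by linarith) hsw (by linarith)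
          _ = 2 ^ (1 - β) * w ^ (1 - β) := Real.mul_rpow (by norm_num) hwp.le
          _ ≤ 2 * w ^ (1 - β) := by
            apply mul_le_mul_of_nonneg_right _ (by positivity)
            calc (2 : ℝ) ^ (1 - β) ≤ 2 ^ (1 : ℝ) :=
                  Real.rpow_le_rpow_of_exponent_le (by norm_num) (by linarith)
              _ = 2 := Real.rpow_one 2
      have h4 : w ^ (1 - β) = w * w ^ (-β) := by
        rw [sub_eq_add_neg, Real.rpow_add hwp, Real.rpow_one]
      have h5 : (w + s) ^ (1 - β) / w ≤ 2 * w ^ (-β) := by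
        rw [div_le_iff₀ hwp]
        rw [h4] at h3
        linarith
      have h6 := mul_le_mul_of_nonneg_left h5 (by linarith : 0 ≤ z + 1)
      linarith
  have h3 : Tendsto (fun s : ℝ => 1 + E * Gf β s z (4 * (t + s))) atTop (𝓝 (1 + E * 0)) :=
    (h2.const_mul E).const_add 1
  have h4 : (1 : ℝ) + E * 0 = 1 := by ring
  rw [h4] at h3
  have h5 := ((Real.continuousAt_log (by norm_num : (1 : ℝ) ≠ 0)).tendsto.comp h3)
  rw [Real.log_one] at h5
  have h6 := (h5.const_mul a).const_add q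
  rw [mul_zero, add_zero] at h6
  exact h6

/-- smoothness -/
theorem Ff_smooth {q a E β S x t : ℝ} (hq : 0 < q) (ha : 0 < a) (hE : 0 < E) (hS : 0 ≤ S) (hx : 0 < x)
    (ht : 0 ≤ t) :
    ContDiffAt ℝ 1 (fun p : ℝ × ℝ => Ff q a E β S p.1 p.2) (x, t) := by
  have hτ : 0 ≤ 4 * t := by linarith
  have hz : 0 < 1 / x := by positivity
  have hG := Gf_pos (β := β) hS hz.le hτ
  have hw : 0 < 1 / x + 1 + 4 * t := by linarith
  have hu : 0 < 1 / x + 1 + 4 * t + S := by linarith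
  have hQ := hq.trans (Qf_gt (q := q) (β := β) ha hE hS hz.le hτ)
  have hf : ContDiffAt ℝ 1 (fun p : ℝ × ℝ => 1 / p.1) (x, t) :=
    contDiffAt_const.div contDiffAt_fst hx.ne'
  have hg : ContDiffAt ℝ 1 (fun p : ℝ × ℝ => 4 * p.2) (x, t) :=
    contDiffAt_const.mul contDiffAt_snd
  have h0 : ContDiffAt ℝ 1 (fun p : ℝ × ℝ => 1 / p.1 + 1 + 4 * p.2) (x, t) :=
    (hf.add contDiffAt_const).add hg
  have h1 : ContDiffAt ℝ 1 (fun p : ℝ × ℝ => (1 / p.1 + 1 + 4 * p.2 + S) ^ (1 - β)) (x, t) :=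
    (h0.add contDiffAt_const).rpow_const_of_ne hu.ne'
  have h2 : ContDiffAt ℝ 1 (fun p : ℝ × ℝ => 1 + E * Gf β S (1 / p.1) (4 * p.2)) (x, t) :=
    contDiffAt_const.add (contDiffAt_const.mul ((hf.add contDiffAt_const).mul (h1.div h0 hw.ne')))
  have h3 : ContDiffAt ℝ 1 (fun p : ℝ × ℝ => Qf q a E β S (1 / p.1) (4 * p.2)) (x, t) :=
    contDiffAt_const.add (contDiffAt_const.mul (h2.log (by
      show 1 + E * Gf β S (1 / x) (4 * t) ≠ 0
      positivity)))
  exact contDiffAt_fst.div h3 hQ.ne'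

end Run7.h967.GM
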