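import Mathlib
import Pool.Agent.Run7.h967.LG.Main
import Pool.Agent.Run7.h967.GM.MaxQ
import Pool.Agent.Run7.h967.GM.Ode
import Pool.Agent.Run7.h967.GM.React2

/-!
# The barrier is preserved
-/

set_option autoImplicit false
set_option linter.all false
open scoped ContDiff Manifold Topology Matrix
open Set Filter

namespace Run7.h967.GM

open Pool.Agent.QTot Pool.Agent.H858R2 Pool.Agent.Helper696_RF Run7.h967.LG

/-- orientation reversing orthogonal matrices -/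
def OrRev : Set (Mt 4) := {P | Pᵀ * P = 1 ∧ P.det = -1}

theorem entry_bd {P : Mt 4} (hP : Pᵀ * P = 1) (i j : Fin 4) : P i j ∈ Icc (-1 : ℝ) 1 := by
  have h2 : ∑ k, P k j * P k j = 1 := by
    have h4 := congrFun (congrFun hP j) j
    rw [Matrix.mul_apply, Matrix.one_apply] at h4
    simpa using h4
  have h3 : P i j * P i j ≤ 1 := by
    rw [← h2]
    exact Finset.single_le_sum (f := fun k => P k j * P k j) (fun k _ => mul_self_nonneg _) (Finset.mem_univ i)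
  constructor <;> nlinarith

theorem orRev_compact : IsCompact OrRev := by
  have h1 : IsCompact (Set.pi univ fun _ : Fin 4 => Set.pi univ fun _ : Fin 4 => Icc (-1 : ℝ) 1) :=
    isCompact_univ_pi fun _ => isCompact_univ_pi fun _ => isCompact_Icc
  have hc1 : Continuous (fun P : Mt 4 => Pᵀ * P) := by fun_prop
  have hc2 : Continuous (fun P : Mt 4 => P.det) := by fun_prop
  have hcl : IsClosed OrRev := (isClosed_eq hc1 continuous_const).inter (isClosed_eq hc2 continuous_const)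
  refine h1.of_isClosed_subset hcl ?_
  intro P hP i _ j _
  exact entry_bd hP.1 i j

instance : CompactSpace OrRev := isCompact_iff_compactSpace.1 orRev_compact

noncomputable def rotL (P : Mt 4) : T4 4 →ₗ[ℝ] T4 4 where
  toFun R := rot R P
  map_add' R S := G_rot_add R S P
  map_smul' c R := G_rot_smul c R P

/-- the linear functional `(lam S1 + S2 / lam) / 2` -/
noncomputable def Lf {Λ : ℝ} (θ : OrRev × Icc (1 / Λ) Λ) : T4 4 →ₗ[ℝ] ℝ :=
  ((θ.2 : ℝ) / 4) • iso4 vid + ((θ.2 : ℝ)⁻¹ / 4) • (iso4 vid ∘ₗ rotL θ.1)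

theorem Lf_apply {Λ : ℝ} (θ : OrRev × Icc (1 / Λ) Λ) (R : T4 4) :
    Lf θ R = ((θ.2 : ℝ) * sS R + (θ.2 : ℝ)⁻¹ * sS (rot R θ.1)) / 2 := by
  simp only [Lf, LinearMap.add_apply, LinearMap.smul_apply, smul_eq_mul, LinearMap.comp_apply, sS]
  have : rotL (θ.1 : Mt 4) R = rot R θ.1 := rfl
  rw [this]
  ring

theorem sS_rot_cont (R : T4 4) : Continuous fun P : Mt 4 => sS (rot R P) := by
  have h : ∀ i j k l : Fin 4, Continuous fun P : Mt 4 => rot R P i j k l := by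
    intro i j k l
    unfold rot
    fun_prop
  unfold sS
  simp only [iso_vid]
  exact ((((((h 0 2 0 2).add (h 0 3 0 3)).add (h 1 2 1 2)).add (h 1 3 1 3)).sub
    (continuous_const.mul (h 0 1 2 3)))).div_const 2

theorem Lf_cont {Λ : ℝ} (hΛ : 0 < Λ) (R : T4 4) :
    Continuous fun θ : OrRev × Icc (1 / Λ) Λ => Lf θ R := by
  simp only [Lf_apply]
  have h1 : Continuous fun θ : OrRev × Icc (1 / Λ) Λ => ((θ.2 : ℝ)) :=
    continuous_subtype_val.comp continuous_snd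
  have h2 : Continuous fun θ : OrRev × Icc (1 / Λ) Λ => ((θ.2 : ℝ))⁻¹ :=
    h1.inv₀ fun θ => by
      have : 0 < 1 / Λ := by positivity
      exact (lt_of_lt_of_le this θ.2.2.1).ne'
  have h3 : Continuous fun θ : OrRev × Icc (1 / Λ) Λ => sS (rot R θ.1) :=
    (sS_rot_cont R).comp (continuous_subtype_val.comp continuous_fst)
  exact ((h1.mul continuous_const).add (h2.mul h3)).div_const 2

/-- a quarter of the scalar curvature, as a linear functional -/
noncomputable def Xf : T4 4 →ₗ[ℝ] ℝ := (1 / 4 : ℝ) • scal4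

theorem Xf_apply (R : T4 4) : Xf R = sT R := by
  simp only [Xf, LinearMap.smul_apply, smul_eq_mul, sT]
  ring

theorem iso_nonneg {R : T4 4} (hR : IsAlg R) (hop : ∀ φ : Mt 4, φᵀ = -φ → 0 ≤ qf R φ) : 0 ≤ sS R := by
  have n22 : 0 ≤ A22 R := by
    have h1 := hop _ (WA_anti 0 1 0)
    rw [qf_WA hR] at h1
    linarith
  have n33 : 0 ≤ A33 R := by
    have h1 := hop _ (WA_anti 0 0 1)
    rw [qf_WA hR] at h1
    linarith
  rw [sS, iso_block hR]
  linarith

theorem iso_le {R : T4 4} (hR : IsAlg R) (hop : ∀ φ : Mt 4, φᵀ = -φ → 0 ≤ qf R φ) : sS R ≤ sT R := by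
  have n11 : 0 ≤ A11 R := by
    have h1 := hop _ (WA_anti 1 0 0)
    rw [qf_WA hR] at h1
    linarith
  rw [sS, sT, iso_block hR, scal_block hR]
  linarith

theorem amgm {l S1 S2 : ℝ} (hl : 0 < l) (h1 : 0 ≤ S1) (h2 : 0 ≤ S2) :
    Real.sqrt (S1 * S2) ≤ (l * S1 + l⁻¹ * S2) / 2 := by
  have hli : 0 < l⁻¹ := inv_pos.2 hl
  apply Real.sqrt_le_iff.2
  refine ⟨by positivity, ?_⟩
  have e : S1 * S2 = (l * S1) * (l⁻¹ * S2) := by field_simp
  rw [e]
  nlinarith [sq_nonneg (l * S1 - l⁻¹ * S2)]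

/-- from the linear inequalities to the geometric mean -/
theorem geo {Λ F S1 S2 x : ℝ} (hΛ : 1 ≤ Λ) (hx : 0 < x) (hF : x < Λ * F) (h1 : 0 ≤ S1) (h2 : 0 ≤ S2)
    (h3 : S1 ≤ x) (h4 : S2 ≤ x)
    (h : ∀ l ∈ Icc (1 / Λ) Λ, F ≤ (l * S1 + l⁻¹ * S2) / 2) : F ^ 2 ≤ S1 * S2 := by
  have hΛ0 : 0 < Λ := by linarith
  have hF0 : 0 < F := by
    by_contra hcon
    push Not at hcon
    have : Λ * F ≤ 0 := mul_nonpos_of_nonneg_of_nonpos hΛ0.le hcon
    linarith
  have hmem1 : Λ ∈ Icc (1 / Λ) Λ := ⟨by rw [div_le_iff₀ hΛ0]; nlinarith, le_rfl⟩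
  have hmem2 : 1 / Λ ∈ Icc (1 / Λ) Λ := ⟨le_rfl, hmem1.1⟩
  have a1 := h Λ hmem1
  have a2 := h (1 / Λ) hmem2
  have e1 : (1 / Λ)⁻¹ = Λ := by rw [one_div, inv_inv]
  rw [e1] at a2
  have e2 : Λ⁻¹ * S2 < F := by
    rw [inv_mul_lt_iff₀ hΛ0]; linarith
  have e3 : 1 / Λ * S1 < F := by
    rw [one_div, inv_mul_lt_iff₀ hΛ0]; linarith
  have b1 : F < Λ * S1 := by linarith
  have b2 : F < Λ * S2 := by linarith
  have hS1 : 0 < S1 := by
    by_contra hcon
    push Not at hcon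
    have : Λ * S1 ≤ 0 := mul_nonpos_of_nonneg_of_nonpos hΛ0.le hcon
    linarith
  have hS2 : 0 < S2 := by
    by_contra hcon
    push Not at hcon
    have : Λ * S2 ≤ 0 := mul_nonpos_of_nonneg_of_nonpos hΛ0.le hcon
    linarith
  set μ := Real.sqrt (S2 / S1) with hμ
  have hr : 0 < S2 / S1 := div_pos hS2 hS1
  have hμ0 : 0 < μ := Real.sqrt_pos.2 hr
  have hμ2 : μ ^ 2 = S2 / S1 := Real.sq_sqrt hr.le
  -- `S2 / Λ < F < Λ S1`
  have c1 : μ ≤ Λ := by
    apply Real.sqrt_le_iff.2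
    refine ⟨hΛ0.le, ?_⟩
    rw [div_le_iff₀ hS1]
    have : Λ⁻¹ * S2 ≤ Λ * S1 := by linarith
    rw [inv_mul_le_iff₀ hΛ0] at this
    nlinarith
  have c2 : 1 / Λ ≤ μ := by
    apply Real.le_sqrt_of_sq_le
    rw [le_div_iff₀ hS1]
    have : 1 / Λ * S1 ≤ Λ * S2 := by linarith
    have h5 : (1 / Λ) ^ 2 * S1 = 1 / Λ * (1 / Λ * S1) := by ring
    rw [h5]
    calc 1 / Λ * (1 / Λ * S1) ≤ 1 / Λ * (Λ * S2) := mul_le_mul_of_nonneg_left this (by positivity)
      _ = S2 := by field_simp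
  have h6 := h μ ⟨c2, c1⟩
  have h7 : μ * S1 = μ⁻¹ * S2 := by
    have : μ * (μ * S1) = S2 := by
      rw [← mul_assoc, ← sq, hμ2]; field_simp
    rw [eq_inv_mul_iff_mul_eq₀ hμ0.ne']
    exact this
  have h8 : F ≤ μ * S1 := by linarith
  have h9 : (μ * S1) ^ 2 = S1 * S2 := by
    rw [mul_pow, hμ2]; field_simp
  rw [← h9]
  exact pow_le_pow_left₀ hF0.le h8 2

theorem geo_eq {F S1 S2 l : ℝ} (hl : 0 < l) (h1 : F ^ 2 ≤ S1 * S2) (h2 : (l * S1 + l⁻¹ * S2) / 2 = F) :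
    l * S1 = F ∧ l⁻¹ * S2 = F := by
  have e : S1 * S2 = (l * S1) * (l⁻¹ * S2) := by field_simp
  rw [e] at h1
  set p := l * S1
  set r := l⁻¹ * S2
  have h3 : (p - r) ^ 2 ≤ 0 := by
    have : (p - r) ^ 2 = 4 * (((p + r) / 2) ^ 2 - p * r) := by ring
    rw [this, h2]
    linarith
  have h4 : p - r = 0 := by
    have := le_antisymm h3 (sq_nonneg _)
    exact pow_eq_zero_iff (two_ne_zero) |>.1 this
  constructor <;> linarith

theorem qf_nonneg_rot {M : Type} [TopologicalSpace M] [ChartedSpace (En 4) M] {g : Metric 4 M}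
    (hop : NonnegOp g) {e : OpenPartialHomeomorph M (En 4)} (he : e ∈ atlas (En 4) M) {y : Eu 4}
    (hy : y ∈ ctarget e) (E : Mt 4) : ∀ φ : Mt 4, φᵀ = -φ → 0 ≤ qf (rot (Rc (g.G e) y) E) φ := by
  intro φ hφ
  have h1 : qf (rot (Rc (g.G e) y) E) φ = qf (Rc (g.G e) y) (E * φ * Eᵀ) := I_quad_rot _ _ _
  rw [h1]
  apply hop e he y hy
  rw [Matrix.transpose_mul, Matrix.transpose_mul, Matrix.transpose_transpose, hφ]
  simp only [Matrix.neg_mul, Matrix.mul_neg, Matrix.mul_assoc]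

/-- The barrier is preserved. -/
theorem preserve2 {M : Type} [TopologicalSpace M] [ChartedSpace (En 4) M]
    [IsManifold (𝓡 4) ∞ M] {T : ℝ} {g : ℝ → Metric 4 M} (hg : IsRicciFlow T g) {t1 : ℝ} (ht01 : 0 ≤ t1)
    (ht1 : t1 < T)
    {Kc : Set M} (hKc : IsCompact Kc)
    (hop : ∀ t ∈ Icc 0 t1, NonnegOp (g t))
    (hsc : ∀ t ∈ Icc 0 t1, ∀ e ∈ atlas (En 4) M, ∀ y ∈ ctarget e, ∀ F : Mt 4,
      Fᵀ * (g t).G e y * F = 1 → 0 < sT (rot (Rc ((g t).G e) y) F))
    {q a E β S : ℝ} (hS : 0 ≤ S) (ha : 0 < a) (ha4 : a < 1 / 4) (hq : q = 2 / (1 - 4 * a)) (hE : 0 < E) (hβ0 : 0 ≤ β)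
    (hβ1 : β ≤ 1)
    (hinit : ∀ e ∈ atlas (En 4) M, ∀ y ∈ ctarget e, ∀ F : Mt 4, Fᵀ * (g 0).G e y * F = 1 →
      ∀ P ∈ OrRev, Ff q a E β S (sT (rot (Rc ((g 0).G e) y) F)) 0 <
        Real.sqrt (sS (rot (Rc ((g 0).G e) y) F) * sS (rot (rot (Rc ((g 0).G e) y) F) P)))
    (hout : ∀ t ∈ Icc 0 t1, ∀ e ∈ atlas (En 4) M, ∀ y ∈ ctarget e,
      e.symm (WithLp.toLp 2 y) ∉ Kc → ∀ F : Mt 4, Fᵀ * (g t).G e y * F = 1 →
      ∀ P ∈ OrRev, Ff q a E β S (sT (rot (Rc ((g t).G e) y) F)) t <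
        Real.sqrt (sS (rot (Rc ((g t).G e) y) F) * sS (rot (rot (Rc ((g t).G e) y) F) P))) :
    ∀ t ∈ Icc 0 t1, ∀ e ∈ atlas (En 4) M, ∀ y ∈ ctarget e, ∀ F : Mt 4,
      Fᵀ * (g t).G e y * F = 1 → ∀ P ∈ OrRev, Ff q a E β S (sT (rot (Rc ((g t).G e) y) F)) t ≤
        Real.sqrt (sS (rot (Rc ((g t).G e) y) F) * sS (rot (rot (Rc ((g t).G e) y) F) P)) := by
  have hq0 : 0 < q := by rw [hq]; apply div_pos (by norm_num); linarith
  have hXi : ∀ (R : T4 4) (O : Mt 4), Oᵀ * O = 1 → Xf (rot R O) = Xf R := fun R O hO => by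
    rw [Xf_apply, Xf_apply, sT, sT, scal4_rot R hO]
  have hXp : ∀ t ∈ Icc 0 t1, ∀ e ∈ atlas (En 4) M, ∀ y ∈ ctarget e, ∀ F : Mt 4,
      Fᵀ * (g t).G e y * F = 1 → 0 < Xf (rot (Rc ((g t).G e) y) F) := fun t ht e he y hy F hF => by
    rw [Xf_apply]; exact hsc t ht e he y hy F hF
  obtain ⟨x0, hx0, hlow⟩ := low_bound hg ht1 hKc Xf hXp
  set Λ : ℝ := 1 + (q + a * Real.log (1 + E * (1 / x0 + 1 + 4 * t1 + S))) with hΛd
  have hlog0 : 0 < Real.log (1 + E * (1 / x0 + 1 + 4 * t1 + S)) := Real.log_pos (by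
    have : 0 < E * (1 / x0 + 1 + 4 * t1 + S) := by positivity
    linarith)
  have hΛ1 : 1 ≤ Λ := by rw [hΛd]; nlinarith [mul_pos ha hlog0]
  have hΛ0 : 0 < Λ := by linarith
  -- the bound for the barrier over the compact set
  have hQΛ : ∀ t ∈ Icc 0 t1, ∀ x ≥ x0, Qf q a E β S (1 / x) (4 * t) < Λ := by
    intro t ht x hx
    have hxp : 0 < x := lt_of_lt_of_le hx0 hx
    have hz : 0 < 1 / x := by positivity
    have hτ : 0 ≤ 4 * t := by have := ht.1; linarith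
    have h1 : Gf β S (1 / x) (4 * t) ≤ 1 / x0 + 1 + 4 * t1 + S := by
      unfold Gf
      have hw : 0 < 1 / x + 1 + 4 * t := by linarith
      have h3 : 1 / x ≤ 1 / x0 := one_div_le_one_div_of_le hx0 hx
      have h2 : (1 / x + 1 + 4 * t + S) ^ (1 - β) ≤ 1 / x + 1 + 4 * t + S := by
        calc (1 / x + 1 + 4 * t + S) ^ (1 - β) ≤ (1 / x + 1 + 4 * t + S) ^ (1 : ℝ) :=
              Real.rpow_le_rpow_of_exponent_le (by linarith) (by linarith)
          _ = _ := Real.rpow_one _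
      have h5 : (1 / x + 1) * ((1 / x + 1 + 4 * t + S) ^ (1 - β) / (1 / x + 1 + 4 * t)) ≤
          (1 / x + 1 + 4 * t + S) := by
        rw [← mul_div_assoc, div_le_iff₀ hw]
        have h6 := mul_le_mul_of_nonneg_left h2 (by positivity : 0 ≤ 1 / x + 1)
        have h7 : (1 / x + 1) * (1 / x + 1 + 4 * t + S) ≤ (1 / x + 1 + 4 * t) * (1 / x + 1 + 4 * t + S) := by
          apply mul_le_mul_of_nonneg_right _ (by linarith)
          linarith
        linarith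
      have h8 := ht.2
      linarith
    have hG := Gf_pos (β := β) hS hz.le hτ
    have h4 : Real.log (1 + E * Gf β S (1 / x) (4 * t)) ≤ Real.log (1 + E * (1 / x0 + 1 + 4 * t1 + S)) := by
      apply Real.log_le_log (by positivity)
      have := mul_le_mul_of_nonneg_left h1 hE.le
      linarith
    unfold Qf
    rw [hΛd]
    have := mul_le_mul_of_nonneg_left h4 ha.le
    linarith
  have hFp : ∀ t ∈ Icc 0 t1, ∀ x > 0, 0 < Ff q a E β S x t := by
    intro t ht x hx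
    have hτ : 0 ≤ 4 * t := by have := ht.1; linarith
    exact div_pos hx (hq0.trans (Qf_gt (q := q) (β := β) ha hE hS (by positivity) hτ))
  -- algebra at a point
  have halg : ∀ t ∈ Icc 0 t1, ∀ e ∈ atlas (En 4) M, ∀ y ∈ ctarget e, ∀ F : Mt 4,
      IsAlg (rot (Rc ((g t).G e) y) F) := fun t ht e he y hy F => L.isAlg_rot (L.isAlg_Rc (g t) he hy) F
  have hgeo : ∀ t ∈ Icc 0 t1, ∀ e ∈ atlas (En 4) M, ∀ y ∈ ctarget e,
      e.symm (WithLp.toLp 2 y) ∈ Kc → ∀ F : Mt 4, Fᵀ * (g t).G e y * F = 1 → ∀ P ∈ OrRev,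
      (∀ l ∈ Icc (1 / Λ) Λ, Ff q a E β S (sT (rot (Rc ((g t).G e) y) F)) t ≤
        (l * sS (rot (Rc ((g t).G e) y) F) + l⁻¹ * sS (rot (rot (Rc ((g t).G e) y) F) P)) / 2) →
      (Ff q a E β S (sT (rot (Rc ((g t).G e) y) F)) t) ^ 2 ≤
        sS (rot (Rc ((g t).G e) y) F) * sS (rot (rot (Rc ((g t).G e) y) F) P) := by
    intro t ht e he y hy hyK F hF P hP h
    have hA := halg t ht e he y hy F
    have hqf := qf_nonneg_rot (hop t ht) he hy F
    have hA2 := L.isAlg_rot hA P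
    have hqf2 : ∀ φ : Mt 4, φᵀ = -φ → 0 ≤ qf (rot (rot (Rc ((g t).G e) y) F) P) φ := by
      rw [G_rot_mul]; exact qf_nonneg_rot (hop t ht) he hy (F * P)
    have hxl := hlow t ht e he y hy hyK F hF
    rw [Xf_apply] at hxl
    have hxp := hsc t ht e he y hy F hF
    refine geo hΛ1 hxp ?_ (iso_nonneg hA hqf) (iso_nonneg hA2 hqf2) (iso_le hA hqf) ?_ h
    · have h1 := hQΛ t ht _ hxl
      have hτ : 0 ≤ 4 * t := by have := ht.1; linarith
      have hQp := hq0.trans (Qf_gt (q := q) (β := β) ha hE hS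
        (by positivity : 0 ≤ 1 / sT (rot (Rc ((g t).G e) y) F)) hτ)
      unfold Ff
      rw [← mul_div_assoc, lt_div_iff₀ hQp]
      nlinarith
    · have h1 := iso_le hA2 hqf2
      have h2 : sT (rot (rot (Rc ((g t).G e) y) F) P) = sT (rot (Rc ((g t).G e) y) F) := by
        rw [sT, sT, scal4_rot _ hP.1]
      rwa [h2] at h1
  -- the maximum principle
  have hmax := maxq hg ht1 hKc (Θ := OrRev × Icc (1 / Λ) Λ) Lf (Lf_cont hΛ0) Xf hXi hXp
    (fun x t => Ff q a E β S x t)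
    (fun x hx t ht => Ff_smooth hq0 ha hE hS hx ht.1)
    (by
      intro e he y hy F hF θ
      rw [Xf_apply, Lf_apply]
      have hl : 0 < ((θ.2 : ℝ)) := lt_of_lt_of_le (by positivity) θ.2.2.1
      refine lt_of_lt_of_le (hinit e he y hy F hF θ.1 θ.1.2) ?_
      have hA := halg 0 ⟨le_rfl, ht01⟩ e he y hy F
      have hqf := qf_nonneg_rot (hop 0 ⟨le_rfl, ht01⟩) he hy F
      have hA2 := L.isAlg_rot hA (θ.1 : Mt 4)
      have hqf2 : ∀ φ : Mt 4, φᵀ = -φ → 0 ≤ qf (rot (rot (Rc ((g 0).G e) y) F) θ.1) φ := by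
        rw [G_rot_mul]; exact qf_nonneg_rot (hop 0 ⟨le_rfl, ht01⟩) he hy (F * θ.1)
      exact amgm hl (iso_nonneg hA hqf) (iso_nonneg hA2 hqf2))
    (by
      intro t ht e he y hy hyK F hF θ
      rw [Xf_apply, Lf_apply]
      have hl : 0 < ((θ.2 : ℝ)) := lt_of_lt_of_le (by positivity) θ.2.2.1
      refine lt_of_lt_of_le (hout t ht e he y hy hyK F hF θ.1 θ.1.2) ?_
      have hA := halg t ht e he y hy F
      have hqf := qf_nonneg_rot (hop t ht) he hy F
      have hA2 := L.isAlg_rot hA (θ.1 : Mt 4)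
      have hqf2 : ∀ φ : Mt 4, φᵀ = -φ → 0 ≤ qf (rot (rot (Rc ((g t).G e) y) F) θ.1) φ := by
        rw [G_rot_mul]; exact qf_nonneg_rot (hop t ht) he hy (F * θ.1)
      exact amgm hl (iso_nonneg hA hqf) (iso_nonneg hA2 hqf2))
    (by
      intro t ht e he y hy hyK hall E0 hE0 θ hz
      have htI : t ∈ Icc 0 t1 := ⟨ht.1.le, ht.2⟩
      rw [Xf_apply, Lf_apply] at hz
      have hl : 0 < ((θ.2 : ℝ)) := lt_of_lt_of_le (by positivity) θ.2.2.1
      have hli : 0 < ((θ.2 : ℝ))⁻¹ := inv_pos.2 hl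
      have hA := halg t htI e he y hy E0
      have hqf := qf_nonneg_rot (hop t htI) he hy E0
      have hall' : ∀ O : Mt 4, Oᵀ * O = 1 → ∀ P ∈ OrRev, ∀ l ∈ Icc (1 / Λ) Λ,
          Ff q a E β S (sT (rot (Rc ((g t).G e) y) E0)) t ≤
          (l * sS (rot (rot (Rc ((g t).G e) y) E0) O) +
            l⁻¹ * sS (rot (rot (rot (Rc ((g t).G e) y) E0) O) P)) / 2 := by
        intro O hO P hP l hlI
        have h1 := hall (E0 * O) (L.frame_mul hE0 hO) (⟨P, hP⟩, ⟨l, hlI⟩)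
        rw [Xf_apply, Lf_apply, ← G_rot_mul] at h1
        have h2 : sT (rot (rot (Rc ((g t).G e) y) E0) O) = sT (rot (Rc ((g t).G e) y) E0) := by
          rw [sT, sT, scal4_rot _ hO]
        rw [h2] at h1
        exact h1
      have hone : (1 : Mt 4)ᵀ * 1 = 1 := by simp
      have hF2 := hgeo t htI e he y hy hyK E0 hE0 θ.1 θ.1.2 (fun l hl => by
        have h1 := hall' 1 hone θ.1 θ.1.2 l hl
        rw [G_rot_one] at h1
        exact h1)
      set R := rot (Rc ((g t).G e) y) E0 with hRd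
      set x := sT R with hxd
      have hxp : 0 < x := hsc t htI e he y hy E0 hE0
      obtain ⟨g1, g2⟩ := geo_eq hl hF2 hz
      have hτ : 0 ≤ 4 * t := by have := ht.1; linarith
      have hzp : 0 < 1 / x := by positivity
      have hQ := Qf_gt (q := q) (a := a) (E := E) (β := β) ha hE hS hzp.le hτ
      have hQp := hq0.trans hQ
      set φ := 1 / Qf q a E β S (1 / x) (4 * t) with hφ
      have hFφ : Ff q a E β S x t = φ * x := by rw [Ff, hφ]; ring
      have hφ0 : 0 < φ := by positivity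
      have hφ1 : φ < (1 - 4 * a) / 2 := by
        have h1 : φ < 1 / q := one_div_lt_one_div_of_lt hq0 hQ
        have h2 : 1 / q = (1 - 4 * a) / 2 := by rw [hq]; rw [one_div_div]
        rwa [h2] at h1
      obtain ⟨D0, D1⟩ := Dc_bd (E := E) (β := β) hE hS hzp.le hτ
      obtain ⟨r0, r1⟩ := rc_bd (β := β) hβ0 hβ1 hS hzp.le hτ
      -- the minimality of the two frames
      have hm1 : ∀ O : Mt 4, Oᵀ * O = 1 → O.det = 1 → iso4 vid R ≤ iso4 vid (rot R O) := by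
        intro O hO hd
        have hO' : O * Oᵀ = 1 := mul_eq_one_comm.1 hO
        have hP' : Oᵀ * (θ.1 : Mt 4) ∈ OrRev := by
          refine ⟨?_, ?_⟩
          · rw [Matrix.transpose_mul, Matrix.transpose_transpose, Matrix.mul_assoc,
              ← Matrix.mul_assoc O, hO', Matrix.one_mul, θ.1.2.1]
          · rw [Matrix.det_mul, Matrix.det_transpose, hd, θ.1.2.2]; norm_num
        have h1 := hall' O hO _ hP' θ.2 θ.2.2
        rw [G_rot_mul R O, ← Matrix.mul_assoc, hO', Matrix.one_mul, ← hz] at h1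
        have h2 : (θ.2 : ℝ) * sS R ≤ (θ.2 : ℝ) * sS (rot R O) := by linarith
        have h3 := le_of_mul_le_mul_left h2 hl
        rw [sS, sS] at h3
        linarith
      have hm2 : ∀ O : Mt 4, Oᵀ * O = 1 → O.det = -1 → iso4 vid (rot R θ.1) ≤ iso4 vid (rot R O) := by
        intro O hO hd
        have h1 := hall' 1 hone O ⟨hO, hd⟩ θ.2 θ.2.2
        rw [G_rot_one, ← hz] at h1
        have h2 : (θ.2 : ℝ)⁻¹ * sS (rot R θ.1) ≤ (θ.2 : ℝ)⁻¹ * sS (rot R O) := by linarith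
        have h3 := le_of_mul_le_mul_left h2 hli
        rw [sS, sS] at h3
        linarith
      obtain ⟨c1, c2, c3, c4, β1, β2, c5, c6, c7, c8, c9⟩ := react2 hA hqf θ.1.2.1 θ.1.2.2 hm1 hm2
        (S1 := sS R) (S2 := sS (rot R θ.1)) (T := x) rfl rfl rfl
      have hxe : Xf R = x := Xf_apply R
      refine ⟨φ + a * Dc E β S (1 / x) (4 * t) * (1 - rc β S (1 / x) (4 * t)) * φ ^ 2,
        4 * a * Dc E β S (1 / x) (4 * t) * rc β S (1 / x) (4 * t) * x ^ 2 * φ ^ 2, ?_, ?_, ?_⟩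
      · intro x' hx'
        rw [hxe]
        exact Ff_tangent hq0 ha hE hβ0 hβ1 hS hx' hxp ht.1.le
      · rw [hxe]
        exact Ff_deriv hq0 ha hE hS hxp ht.1.le
      · rw [hFφ] at g1 g2
        refine ode (b1 := β1) (b2 := β2) (b := (x - sS R) * (x - sS (rot R θ.1)) + (β1 + β2) / 2)
          ha hxp hφ0 hφ1 D0 D1 r0 r1 hl g1 g2 c3 c4 c5 c6 (by linarith) ?_ ?_
        · rw [Lf_apply]
          have d1 : 2 * x * sS R - 3 / 2 * sS R ^ 2 + β1 ≤ sS (QQ R) / 2 := by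
            have : sS (QQ R) = iso4 vid (QQ R) / 2 := rfl
            rw [this]; linarith
          have d2 : 2 * x * sS (rot R θ.1) - 3 / 2 * sS (rot R θ.1) ^ 2 + β2 ≤ sS (rot (QQ R) θ.1) / 2 := by
            have : sS (rot (QQ R) θ.1) = iso4 vid (rot (QQ R) θ.1) / 2 := rfl
            rw [this]; linarith
          have k1 := mul_le_mul_of_nonneg_left d1 hl.le
          have k2 := mul_le_mul_of_nonneg_left d2 hli.le
          linarith
        · rw [Xf_apply, sT]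
          exact c9)
  intro t ht e he y hy F hF P hP
  by_cases hyK : e.symm (WithLp.toLp 2 y) ∈ Kc
  · have h1 := hgeo t ht e he y hy hyK F hF P hP (fun l hl => by
      have h2 := hmax t ht e he y hy F hF (⟨P, hP⟩, ⟨l, hl⟩)
      rw [Xf_apply, Lf_apply] at h2
      exact h2.le)
    exact Real.le_sqrt_of_sq_le h1
  · exact (hout t ht e he y hy hyK F hF P hP).le

end Run7.h967.GM
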