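import Mathlib
import Pool.Agent.Helper696_RF.G
import Pool.Agent.QTot.N3

/-!
# The pointwise maximum test with a perturbation depending on space and time

The proofs of `G_lowx`, `G_mainx` and `ptlx` follow those of `G_low`, `G_main` and `ptl` in the starting file
`Pool/Agent/Helper696_RF/G.lean`.
-/

set_option autoImplicit false
set_option linter.all false
open scoped ContDiff Manifold Topology Matrix
open Set Filter

namespace Run7.h967.GM

open Pool.Agent.QTot Pool.Agent.H858R2 Pool.Agent.Helper696_RF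

theorem G_lowx {n : ℕ} {G : ℝ → Eu n → Mt n} {t0 : ℝ} (h : LocFlow G t0 0) (h1 : G t0 0 = 1)
    (L : T4 n →ₗ[ℝ] ℝ) (E : Mt n) (hE : Eᵀ * E = 1) (H : ℝ → Eu n → ℝ)
    (hmin : ∀ᶠ p : ℝ × Eu n in 𝓝 (t0, 0), p.1 ≤ t0 → ∀ F : Mt n, Fᵀ * G p.1 p.2 * F = 1 →
      0 ≤ L (rot (Rc (G p.1) p.2) F) + H p.1 p.2) :
    ∃ C : ℝ, 0 ≤ C ∧ ∀ᶠ q : (ℝ × Eu n) × (Fin n → Fin n → ℝ) in 𝓝 ((t0, 0), E),
      q.1.1 ≤ t0 → ∀ δ : ℝ, 0 ≤ δ →
        (∀ i j, |((Matrix.of q.2)ᵀ * G q.1.1 q.1.2 * Matrix.of q.2) i j - (1 : Mt n) i j| ≤ δ) →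
        -(C * δ) ≤ L (rot (Rc (G q.1.1) q.1.2) (Matrix.of q.2)) + H q.1.1 q.1.2 := by
  classical
  obtain ⟨Ω, hΩ, hm, hG, hd⟩ := G_open h
  set R0 : T4 n := Rc (G t0) 0 with hR0
  set E0 : Fin n → Fin n → ℝ := E with hE0
  obtain ⟨K, s, hs, hK⟩ := ((G_val_smooth L).contDiffAt (x := (R0, E0))).of_le
    (show (1 : WithTop ℕ∞) ≤ ∞ by exact_mod_cast le_top) |>.exists_lipschitzOnWith
  obtain ⟨r, hr, hrs⟩ := Metric.mem_nhds_iff.1 hs
  set B : ℝ := ‖E0‖ + 1 with hB
  have hB0 : 0 < B := by positivity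
  set c : ℝ := (n : ℝ) * (B * (n : ℝ) ^ 3) with hc
  have hc0 : 0 ≤ c := by positivity
  set d0 : ℝ := min (1 / (2 * ((n : ℝ) ^ 2 + 1))) (r / (4 * (c + 1))) with hd0
  have hd00 : 0 < d0 := lt_min (by positivity) (by positivity)
  refine ⟨K * c, by positivity, ?_⟩
  -- continuity of the data
  have hRcont : ContinuousAt (fun p : ℝ × Eu n => Rc (G p.1) p.2) (t0, 0) := by
    refine continuousAt_pi.2 fun i => continuousAt_pi.2 fun j => continuousAt_pi.2 fun k =>
      continuousAt_pi.2 fun l => ?_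
    exact (G_smf_at hΩ (G_Rc_smooth hΩ hG hd i j k l) hm).continuousAt
  have hGcont : ∀ i j, ContinuousAt (fun p : ℝ × Eu n => G p.1 p.2 i j) (t0, 0) := fun i j =>
    (G_smf_at hΩ (hG i j) hm).continuousAt
  have hfst : Tendsto (fun q : (ℝ × Eu n) × (Fin n → Fin n → ℝ) => q.1) (𝓝 ((t0, 0), E0))
      (𝓝 (t0, 0)) := continuous_fst.tendsto _
  have hsnd : Tendsto (fun q : (ℝ × Eu n) × (Fin n → Fin n → ℝ) => q.2) (𝓝 ((t0, 0), E0))
      (𝓝 E0) := continuous_snd.tendsto _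
  have ev1 : ∀ᶠ q : (ℝ × Eu n) × (Fin n → Fin n → ℝ) in 𝓝 ((t0, 0), E0),
      dist (Rc (G q.1.1) q.1.2) R0 < r := by
    have h2 : ∀ᶠ p : ℝ × Eu n in 𝓝 (t0, 0), dist (Rc (G p.1) p.2) R0 < r :=
      hRcont.tendsto.eventually (Metric.ball_mem_nhds _ hr)
    exact hfst.eventually h2
  have ev2 : ∀ᶠ q : (ℝ × Eu n) × (Fin n → Fin n → ℝ) in 𝓝 ((t0, 0), E0),
      dist q.2 E0 < min (r / 2) 1 :=
    hsnd.eventually (Metric.ball_mem_nhds _ (lt_min (by positivity) one_pos))
  have ev3 : ∀ᶠ q : (ℝ × Eu n) × (Fin n → Fin n → ℝ) in 𝓝 ((t0, 0), E0), ∀ i j,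
      |((Matrix.of q.2)ᵀ * G q.1.1 q.1.2 * Matrix.of q.2) i j - (1 : Mt n) i j| < d0 := by
    refine eventually_all.2 fun i => eventually_all.2 fun j => ?_
    have hcont : ContinuousAt (fun q : (ℝ × Eu n) × (Fin n → Fin n → ℝ) =>
        ((Matrix.of q.2)ᵀ * G q.1.1 q.1.2 * Matrix.of q.2) i j - (1 : Mt n) i j) ((t0, 0), E0) := by
      simp only [Matrix.mul_apply, Matrix.transpose_apply, Matrix.of_apply]
      refine ContinuousAt.sub ?_ continuousAt_const
      refine tendsto_finsetSum _ fun b _ => ?_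
      refine Tendsto.mul ?_ ?_
      · refine tendsto_finsetSum _ fun a _ => ?_
        refine Tendsto.mul ?_ ?_
        · exact ((continuous_apply i).comp ((continuous_apply a).comp continuous_snd)).tendsto _
        · exact (hGcont a b).tendsto.comp hfst
      · exact ((continuous_apply j).comp ((continuous_apply b).comp continuous_snd)).tendsto _
    have hval : ((Matrix.of E0)ᵀ * G t0 0 * Matrix.of E0) i j - (1 : Mt n) i j = 0 := by
      rw [h1, Matrix.mul_one]
      have : (Matrix.of E0)ᵀ * Matrix.of E0 = 1 := hE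
      rw [this, sub_self]
    have h3 := hcont.abs.tendsto
    simp only [hval, abs_zero] at h3
    exact h3.eventually (gt_mem_nhds hd00)
  have ev4 : ∀ᶠ q : (ℝ × Eu n) × (Fin n → Fin n → ℝ) in 𝓝 ((t0, 0), E0),
      (G q.1.1 q.1.2).IsSymm := hfst.eventually h.symm
  have ev5 := hfst.eventually hmin
  filter_upwards [ev1, ev2, ev3, ev4, ev5] with q q1 q2 q3 q4 q5 hqt δ hδ0 hδ
  set F : Mt n := Matrix.of q.2 with hF
  set g : Mt n := G q.1.1 q.1.2 with hg
  set N : Mt n := Fᵀ * g * F with hN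
  have hNs : N.IsSymm := by
    rw [Matrix.IsSymm, hN, Matrix.transpose_mul, Matrix.transpose_mul, Matrix.transpose_transpose,
      q4.eq, Matrix.mul_assoc]
  set δ' := min δ d0 with hδ'
  have hδ'0 : 0 ≤ δ' := le_min hδ0 hd00.le
  have hb : ∀ i j, |N i j - (1 : Mt n) i j| ≤ δ' := fun i j => le_min (hδ i j) (q3 i j).le
  have hnd : (n : ℝ) ^ 2 * δ' ≤ 1 / 2 := by
    have h2 : δ' ≤ 1 / (2 * ((n : ℝ) ^ 2 + 1)) := (min_le_right _ _).trans (min_le_left _ _)
    calc (n : ℝ) ^ 2 * δ' ≤ (n : ℝ) ^ 2 * (1 / (2 * ((n : ℝ) ^ 2 + 1))) := by gcongr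
      _ ≤ 1 / 2 := by
          rw [mul_one_div, div_le_div_iff₀ (by positivity) (by positivity)]
          linarith
  obtain ⟨S, hS, hS1⟩ := G_correct N hNs δ' hb hnd
  have hFS : (F * S)ᵀ * g * (F * S) = 1 := by
    rw [← hS, hN, Matrix.transpose_mul]
    simp only [Matrix.mul_assoc]
  have hFle : ∀ i j, |F i j| ≤ B := by
    intro i j
    have h2 : ‖q.2‖ ≤ B := by
      have h3 : dist q.2 E0 < 1 := lt_of_lt_of_le q2 (min_le_right _ _)
      rw [dist_eq_norm] at h3
      calc ‖q.2‖ = ‖E0 + (q.2 - E0)‖ := by rw [add_sub_cancel]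
        _ ≤ ‖E0‖ + ‖q.2 - E0‖ := norm_add_le _ _
        _ ≤ B := by rw [hB]; linarith
    exact (G_entry_le q.2 i j).trans h2
  set FS : Fin n → Fin n → ℝ := fun i j => (F * S) i j with hFSdef
  have hdist : dist FS q.2 ≤ c * δ' := by
    rw [dist_pi_le_iff (by positivity)]
    intro i
    rw [dist_pi_le_iff (by positivity)]
    intro j
    rw [Real.dist_eq]
    have h2 : FS i j - q.2 i j = ∑ k, F i k * (S k j - (1 : Mt n) k j) := by
      have h3 : q.2 i j = (F * 1) i j := by rw [Matrix.mul_one]; rfl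
      rw [h3, hFSdef]
      simp only [Matrix.mul_apply]
      rw [← Finset.sum_sub_distrib]
      refine Finset.sum_congr rfl fun k _ => ?_
      ring
    rw [h2]
    refine (Finset.abs_sum_le_sum_abs _ _).trans ?_
    have h3 : ∀ k ∈ (Finset.univ : Finset (Fin n)), |F i k * (S k j - (1 : Mt n) k j)| ≤
        B * ((n : ℝ) ^ 3 * δ') := by
      intro k _
      rw [abs_mul]
      exact mul_le_mul (hFle i k) (hS1 k j) (abs_nonneg _) hB0.le
    refine (Finset.sum_le_sum h3).trans (le_of_eq ?_)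
    simp [hc]
    ring
  have hcd : c * δ' < r / 2 := by
    have h2 : δ' ≤ r / (4 * (c + 1)) := (min_le_right _ _).trans (min_le_right _ _)
    calc c * δ' ≤ c * (r / (4 * (c + 1))) := by gcongr
      _ < r / 2 := by
          rw [mul_div_assoc', div_lt_div_iff₀ (by positivity) (by positivity)]
          nlinarith
  have hin1 : ((Rc (G q.1.1) q.1.2 : T4 n), q.2) ∈ s := by
    apply hrs
    rw [Metric.mem_ball, Prod.dist_eq, max_lt_iff]
    refine ⟨q1, lt_of_lt_of_le q2 ((min_le_left _ _).trans (by linarith))⟩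
  have hin2 : ((Rc (G q.1.1) q.1.2 : T4 n), FS) ∈ s := by
    apply hrs
    rw [Metric.mem_ball, Prod.dist_eq, max_lt_iff]
    refine ⟨q1, ?_⟩
    calc dist FS E0 ≤
        dist FS q.2 + dist q.2 E0 := dist_triangle _ _ _
      _ < r / 2 + r / 2 := add_lt_add_of_le_of_lt (hdist.trans hcd.le)
          (lt_of_lt_of_le q2 (min_le_left _ _))
      _ = r := by ring
  have hlip := hK.dist_le_mul _ hin2 _ hin1
  rw [Prod.dist_eq, dist_self, max_eq_right dist_nonneg, Real.dist_eq] at hlip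
  have hval2 : G_val L ((Rc (G q.1.1) q.1.2 : T4 n), FS) =
      L (rot (Rc (G q.1.1) q.1.2) (F * S)) := rfl
  have hval1 : G_val L ((Rc (G q.1.1) q.1.2 : T4 n), q.2) =
      L (rot (Rc (G q.1.1) q.1.2) F) := rfl
  rw [hval1, hval2] at hlip
  have h5 := q5 hqt (F * S) hFS
  have h6 := (abs_le.1 hlip).2
  have h7 : (K : ℝ) * dist FS q.2 ≤ K * c * δ := by
    calc (K : ℝ) * dist FS q.2 ≤ K * (c * δ') := by gcongr
      _ ≤ K * (c * δ) := by
          gcongr
          exact min_le_left _ _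
      _ = K * c * δ := by ring
  linarith




theorem G_mainx {n : ℕ} {G : ℝ → Eu n → Mt n} {t0 : ℝ} (h : LocFlow G t0 0) (h1 : G t0 0 = 1)
    (hd : ∀ m i j, pd m (fun y => G t0 y i j) 0 = 0)
    (L : T4 n →ₗ[ℝ] ℝ) (E : Mt n) (hE : Eᵀ * E = 1) (H : ℝ → Eu n → ℝ)
    (hH : ContDiffAt ℝ ∞ (fun p : ℝ × Eu n => H p.1 p.2) (t0, 0))
    (hmin : ∀ᶠ p : ℝ × Eu n in 𝓝 (t0, 0), p.1 ≤ t0 → ∀ F : Mt n, Fᵀ * G p.1 p.2 * F = 1 →
      0 ≤ L (rot (Rc (G p.1) p.2) F) + H p.1 p.2)
    (h0 : L (rot (Rc (G t0) 0) E) + H t0 0 = 0) :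
    L (QQ (rot (Rc (G t0) 0) E)) + deriv (fun t => H t 0) t0 - ∑ m, pd m (pd m (fun y => H t0 y)) 0 ≤ 0 := by
  classical
  set H' := deriv (fun t => H t 0) t0 with hH'
  have hEE : E * Eᵀ = 1 := mul_eq_one_comm.1 hE
  obtain ⟨C, hC0, hlow⟩ := G_lowx h h1 L E hE H hmin
  obtain ⟨Ω, hΩ, hm, hG, hnd⟩ := G_open h
  set R0 : T4 n := Rc (G t0) 0 with hR0
  set Λ : T4 n →ₗ[ℝ] ℝ := G_Lam L E with hΛ
  set T : ℝ → Eu n → T4 n := fun t y => rot (Rc (G t) y) (fr (G t y)) with hT
  have hfr1 : fr (1 : Mt n) = 1 := by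
    rw [fr, ← sub_smul]
    norm_num
  have hTE : ∀ t y, Λ (T t y) = L (rot (Rc (G t) y) (fr (G t y) * E)) := by
    intro t y
    rw [hΛ, G_Lam_apply, hT, G_rot_mul]
  have hT0 : T t0 0 = R0 := by
    simp only [hT]
    rw [h1, hfr1, G_rot_one]
  have hΛ0 : Λ R0 + H t0 0 = 0 := h0
  set B : ℝ := ‖(fun i j => E i j : Fin n → Fin n → ℝ)‖ with hB
  have hBE : ∀ i j, |E i j| ≤ B := G_entry_le (fun i j => E i j)
  set c : ℝ := (n : ℝ) ^ 2 * (B ^ 2 * (1 + n)) with hc
  have hc0 : 0 ≤ c := by positivity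
  set u : Fin n → Fin n → ℝ → Eu n → ℝ := fun i j t y => G t y i j - (1 : Mt n) i j with hu
  have hu0 : ∀ i j, u i j t0 0 = 0 := by
    intro i j
    simp only [hu]
    rw [h1, sub_self]
  set w : ℝ → Eu n → ℝ := fun t y =>
    Λ (T t y) + H t y + (C * c) * ∑ i, ∑ j, u i j t y * u i j t y with hw
  have hw0 : w t0 0 = 0 := by
    simp only [hw, hu0, hT0, mul_zero, Finset.sum_const_zero, add_zero]
    exact hΛ0
  -- the comparison function is nonnegative
  have hGcont : ∀ i j, ContinuousAt (fun p : ℝ × Eu n => G p.1 p.2 i j) (t0, 0) := fun i j =>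
    (G_smf_at hΩ (hG i j) hm).continuousAt
  have hclaim : ∀ᶠ p : ℝ × Eu n in 𝓝 (t0, 0), p.1 ≤ t0 → 0 ≤ w p.1 p.2 := by
    have ht : Tendsto (fun p : ℝ × Eu n => ((p, fun i j => (fr (G p.1 p.2) * E) i j) :
        (ℝ × Eu n) × (Fin n → Fin n → ℝ))) (𝓝 (t0, 0)) (𝓝 ((t0, 0), E)) := by
      refine Tendsto.prodMk_nhds tendsto_id ?_
      refine tendsto_pi_nhds.2 fun i => tendsto_pi_nhds.2 fun j => ?_
      have h2 : E i j = ∑ k, ((3 / 2 : ℝ) * (1 : Mt n) i k - (1 / 2 : ℝ) * G t0 0 i k) * E k j := by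
        rw [h1]
        have h3 : E i j = (fr (1 : Mt n) * E) i j := by rw [hfr1, Matrix.one_mul]
        rw [h3, Matrix.mul_apply]
        rfl
      rw [h2]
      simp only [Matrix.mul_apply]
      refine tendsto_finsetSum _ fun k _ => ?_
      refine Tendsto.mul ?_ tendsto_const_nhds
      exact (tendsto_const_nhds (x := (3 / 2 : ℝ) * (1 : Mt n) i k)).sub
        ((hGcont i k).tendsto.const_mul (1 / 2 : ℝ))
    have e1 := ht.eventually hlow
    have e2 : ∀ᶠ p : ℝ × Eu n in 𝓝 (t0, 0), ∀ i j, |u i j p.1 p.2| < 1 := by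
      refine eventually_all.2 fun i => eventually_all.2 fun j => ?_
      have h3 : ContinuousAt (fun p : ℝ × Eu n => u i j p.1 p.2) (t0, 0) :=
        (hGcont i j).sub continuousAt_const
      have h4 := h3.abs.tendsto
      simp only [hu0, abs_zero] at h4
      exact h4.eventually (gt_mem_nhds one_pos)
    filter_upwards [e1, e2, h.symm] with p p1 p2 p3 hpt
    have hq0 : 0 ≤ ∑ i, ∑ j, u i j p.1 p.2 * u i j p.1 p.2 :=
      Finset.sum_nonneg fun a _ => Finset.sum_nonneg fun b _ => mul_self_nonneg _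
    have h5 := p1 hpt (c * ∑ i, ∑ j, u i j p.1 p.2 * u i j p.1 p.2) (by positivity) (by
      intro i j
      have h6 := G_frame_bd (G p.1 p.2) E p3 hE B hBE (fun i j => (p2 i j).le) i j
      refine h6.trans (le_of_eq ?_)
      simp only [hc, hu]
      ring)
    simp only [hw]
    rw [hTE]
    have h7 : (Matrix.of fun i j => (fr (G p.1 p.2) * E) i j) = fr (G p.1 p.2) * E := rfl
    simp only [h7] at h5
    linarith
  -- (a) time derivative
  set T' : T4 n := fun i j k l => deriv (fun t => rot (Rc (G t) 0) (fr (G t 0)) i j k l) t0 with hT'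
  have ha : Λ T' + H' ≤ 0 := by
    have hTd : HasDerivAt (fun t => T t 0) T' t0 := by
      rw [hasDerivAt_pi]; intro i
      rw [hasDerivAt_pi]; intro j
      rw [hasDerivAt_pi]; intro k
      rw [hasDerivAt_pi]; intro l
      exact (G_smf_t hΩ (G_T_smooth hΩ hG hnd i j k l) hm).hasDerivAt
    have hΛd : HasDerivAt (fun t => Λ (T t 0)) (Λ T') t0 :=
      (LinearMap.toContinuousLinearMap Λ).hasFDerivAt.comp_hasDerivAt t0 hTd
    have hud : ∀ i j, HasDerivAt (fun t => u i j t 0 * u i j t 0) 0 t0 := by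
      intro i j
      have h3 : DifferentiableAt ℝ (fun t => u i j t 0) t0 :=
        (G_smf_t hΩ (hG i j) hm).sub_const _
      have h4 := h3.hasDerivAt.fun_mul h3.hasDerivAt
      rw [hu0, mul_zero, zero_mul, add_zero] at h4
      exact h4
    have hqd : HasDerivAt (fun t => ∑ i, ∑ j, u i j t 0 * u i j t 0) 0 t0 := by
      have h3 : HasDerivAt (fun t => ∑ i, ∑ j, u i j t 0 * u i j t 0)
          (∑ _i : Fin n, ∑ _j : Fin n, (0 : ℝ)) t0 :=
        HasDerivAt.fun_sum fun i _ => HasDerivAt.fun_sum fun j _ => hud i j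
      simpa using h3
    have hHd : HasDerivAt (fun t => H t 0) H' t0 := by
      have h5 : DifferentiableAt ℝ (fun t : ℝ => H t 0) t0 := by
        have h6 : DifferentiableAt ℝ (fun p : ℝ × Eu n => H p.1 p.2) (t0, 0) :=
          hH.differentiableAt (by norm_num)
        exact h6.comp (f := fun t : ℝ => ((t, 0) : ℝ × Eu n)) t0 (by fun_prop)
      exact h5.hasDerivAt
    have hwd : HasDerivAt (fun t => w t 0) (Λ T' + H' + (C * c) * 0) t0 :=
      (hΛd.fun_add hHd).fun_add (hqd.const_mul (C * c))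
    rw [mul_zero, add_zero] at hwd
    apply G_left_min hwd
    have ht : Tendsto (fun t : ℝ => ((t, 0) : ℝ × Eu n)) (𝓝 t0) (𝓝 (t0, 0)) :=
      (continuous_id.prodMk continuous_const).tendsto t0
    have h3 := ht.eventually hclaim
    filter_upwards [h3] with t ht3 htt
    rw [hw0]
    exact ht3 htt
  -- (b) space derivatives
  have hHs : ContDiffAt ℝ ∞ (fun y : Eu n => H t0 y) 0 :=
    hH.comp (f := fun y : Eu n => ((t0, y) : ℝ × Eu n)) 0 (contDiffAt_const.prodMk contDiffAt_id)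
  have hb : ∀ m : Fin n,
      0 ≤ Λ (fun i j k l => pd m (pd m (fun y => T t0 y i j k l)) 0) +
        pd m (pd m (fun y => H t0 y)) 0 := by
    intro m
    have hTs : ∀ i j k l, ContDiffAt ℝ ∞ (fun y => T t0 y i j k l) 0 := fun i j k l =>
      G_smf_x hΩ (G_T_smooth hΩ hG hnd i j k l) hm
    have hus : ∀ i j, ContDiffAt ℝ ∞ (fun y => u i j t0 y) 0 := fun i j =>
      (G_smf_x hΩ (hG i j) hm).sub contDiffAt_const
    have hpu : ∀ i j, pd m (fun y => u i j t0 y) 0 = 0 := by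
      intro i j
      have h3 : pd m (fun y => u i j t0 y) 0 = pd m (fun y => G t0 y i j) 0 := by
        unfold pd
        simp only [hu]
        rw [fderiv_sub_const]
      rw [h3, hd]
    -- one sum
    let f : (G_I4 n ⊕ (Fin n × Fin n)) ⊕ Unit → Eu n → ℝ := fun x => match x with
      | Sum.inl (Sum.inl x) => fun y => T t0 y x.1 x.2.1 x.2.2.1 x.2.2.2
      | Sum.inl (Sum.inr x) => fun y => u x.1 x.2 t0 y * u x.1 x.2 t0 y
      | Sum.inr _ => fun y => H t0 y
    let cf : (G_I4 n ⊕ (Fin n × Fin n)) ⊕ Unit → ℝ := fun x => match x with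
      | Sum.inl (Sum.inl x) => Λ (G_e x)
      | Sum.inl (Sum.inr _) => C * c
      | Sum.inr _ => 1
    have hwf : (fun y => w t0 y) = fun y => ∑ x, cf x * f x y := by
      funext y
      simp only [hw, Fintype.sum_sum_type, Fintype.sum_prod_type, f, cf, Finset.univ_unique,
        Finset.sum_singleton, one_mul]
      rw [G_lin_eq Λ (T t0 y)]
      simp only [Fintype.sum_prod_type, Finset.mul_sum]
      ring
    have hfs : ∀ x, ContDiffAt ℝ ∞ (f x) 0 := by
      intro x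
      rcases x with (x | x) | x
      · exact hTs _ _ _ _
      · exact (hus _ _).mul (hus _ _)
      · exact hHs
    have hws : ContDiffAt ℝ ∞ (fun y => w t0 y) 0 := by
      rw [hwf]
      exact ContDiffAt.sum fun x _ => contDiffAt_const.mul (hfs x)
    have h3 : 0 ≤ pd m (pd m (fun y => w t0 y)) 0 := by
      apply G_second hws
      have ht : Tendsto (fun y : Eu n => ((t0, y) : ℝ × Eu n)) (𝓝 0) (𝓝 (t0, 0)) :=
        (continuous_const.prodMk continuous_id).tendsto 0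
      filter_upwards [ht.eventually hclaim] with y hy
      rw [hw0]
      exact hy le_rfl
    rw [hwf, G_pd2_lin cf f hfs m] at h3
    simp only [Fintype.sum_sum_type, f, cf, Finset.univ_unique, Finset.sum_singleton] at h3
    have h4 : ∀ x : Fin n × Fin n, pd m (pd m (fun y => u x.1 x.2 t0 y * u x.1 x.2 t0 y)) 0 = 0 :=
      fun x => G_pd2_sq _ (hus _ _) (hu0 _ _) m (hpu _ _)
    simp only [h4, mul_zero, Finset.sum_const_zero, add_zero, one_mul] at h3
    rw [G_lin_eq]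
    exact h3
  -- (c) first variation
  obtain ⟨A, hA, hev⟩ := evol h h1 hd
  set Z : T4 n := fun i j k l => ∑ p, (A p i * R0 p j k l + A p j * R0 i p k l
    + A p k * R0 i j p l + A p l * R0 i j k p) with hZ
  have hcZ : Λ Z = 0 := by
    set D : Mt n := Eᵀ * (A * A) * E with hD
    set b : ℝ := ∑ i, ∑ j, |D i j| with hbdef
    have hb0 : 0 ≤ b := Finset.sum_nonneg fun i _ => Finset.sum_nonneg fun j _ => abs_nonneg _
    have hbD : ∀ i j, |D i j| ≤ b := fun i j =>
      (Finset.single_le_sum (f := fun j => |D i j|) (fun j _ => abs_nonneg _)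
        (Finset.mem_univ j)).trans
      (Finset.single_le_sum (f := fun i => ∑ j, |D i j|)
        (fun i _ => Finset.sum_nonneg fun j _ => abs_nonneg _) (Finset.mem_univ i))
    set v : ℝ → ℝ := fun s => Λ (rot R0 (1 + s • A)) + H t0 0 + C * (b * (s * s)) with hv
    have hv0 : v 0 = 0 := by
      simp only [hv, zero_smul, add_zero, G_rot_one, mul_zero]
      exact hΛ0
    have hvd : HasDerivAt v (Λ Z) 0 := by
      have hTd : HasDerivAt (fun s : ℝ => rot R0 (1 + s • A)) Z 0 := by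
        rw [hasDerivAt_pi]; intro i
        rw [hasDerivAt_pi]; intro j
        rw [hasDerivAt_pi]; intro k
        rw [hasDerivAt_pi]; intro l
        exact G_rot_deriv R0 A i j k l
      have hΛd : HasDerivAt (fun s : ℝ => Λ (rot R0 (1 + s • A))) (Λ Z) 0 :=
        (LinearMap.toContinuousLinearMap Λ).hasFDerivAt.comp_hasDerivAt 0 hTd
      have hsq : HasDerivAt (fun s : ℝ => C * (b * (s * s))) 0 0 := by
        have h3 := (((hasDerivAt_id (0 : ℝ)).fun_mul (hasDerivAt_id (0 : ℝ))).const_mul b).const_mul C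
        simpa using h3
      have h4 := (hΛd.add_const (H t0 0)).fun_add hsq
      rw [add_zero] at h4
      exact h4
    have hvmin : IsLocalMin v 0 := by
      have ht : Tendsto (fun s : ℝ => (((t0, 0), fun i j => (((1 : Mt n) + s • A) * E) i j) :
          (ℝ × Eu n) × (Fin n → Fin n → ℝ))) (𝓝 0) (𝓝 ((t0, 0), E)) := by
        refine Tendsto.prodMk_nhds tendsto_const_nhds ?_
        refine tendsto_pi_nhds.2 fun i => tendsto_pi_nhds.2 fun j => ?_
        have h2 : E i j = ∑ k, ((1 : Mt n) i k + 0 * A i k) * E k j := by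
          have h3 : E i j = ((1 : Mt n) * E) i j := by rw [Matrix.one_mul]
          conv_lhs => rw [h3, Matrix.mul_apply]
          simp
        rw [h2]
        simp only [Matrix.mul_apply]
        refine tendsto_finsetSum _ fun k _ => ?_
        refine Tendsto.mul ?_ tendsto_const_nhds
        exact (tendsto_const_nhds (x := (1 : Mt n) i k)).add (tendsto_id.mul_const (A i k))
      have e1 := ht.eventually hlow
      filter_upwards [e1] with s hs
      rw [hv0]
      have hF : ((((1 : Mt n) + s • A) * E)ᵀ * G t0 0 * (((1 : Mt n) + s • A) * E)) - 1 =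
          (-(s * s)) • D := by
        rw [h1, Matrix.mul_one, Matrix.transpose_mul, Matrix.transpose_add, Matrix.transpose_one,
          Matrix.transpose_smul, hA, hD]
        have h3 : Eᵀ * (1 + s • -A) * ((1 + s • A) * E) =
            Eᵀ * ((1 + s • -A) * (1 + s • A)) * E := by
          simp only [Matrix.mul_assoc]
        have h4 : (1 + s • -A) * (1 + s • A) = 1 - (s * s) • (A * A) := by
          simp only [add_mul, mul_add, one_mul, mul_one, smul_mul_assoc, mul_smul_comm, neg_mul,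
            smul_neg]
          module
        rw [h3, h4, Matrix.mul_sub, Matrix.sub_mul, Matrix.mul_one, hE, Matrix.mul_smul,
          Matrix.smul_mul, neg_smul]
        abel
      have h5 := hs le_rfl (b * (s * s)) (mul_nonneg hb0 (mul_self_nonneg s)) (by
        intro i j
        have h6 : (((Matrix.of fun i j => (((1 : Mt n) + s • A) * E) i j)ᵀ * G t0 0 *
            (Matrix.of fun i j => (((1 : Mt n) + s • A) * E) i j)) i j - (1 : Mt n) i j) =
            (-(s * s)) * D i j := by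
          have h7 : (Matrix.of fun i j => (((1 : Mt n) + s • A) * E) i j) =
            ((1 : Mt n) + s • A) * E := rfl
          rw [h7, ← Matrix.sub_apply, hF, Matrix.smul_apply, smul_eq_mul]
        rw [h6, abs_mul, abs_neg, abs_of_nonneg (mul_self_nonneg s), mul_comm]
        exact mul_le_mul_of_nonneg_right (hbD i j) (mul_self_nonneg s))
      have h7 : (Matrix.of fun i j => (((1 : Mt n) + s • A) * E) i j) =
            ((1 : Mt n) + s • A) * E := rfl
      simp only [h7] at h5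
      simp only [hv]
      rw [hΛ, G_Lam_apply, G_rot_mul]
      linarith
    have h8 := hvmin.deriv_eq_zero
    rw [hvd.deriv] at h8
    exact h8
  -- assembly
  have hTeq : T' = (∑ m, fun i j k l => pd m (pd m (fun y => T t0 y i j k l)) 0) + QQ R0 + Z := by
    funext i j k l
    simp only [hT', Pi.add_apply, Finset.sum_apply, hZ]
    exact hev i j k l
  rw [hTeq, map_add, map_add, map_sum, hcZ, add_zero] at ha
  have hsum : 0 ≤ ∑ m, (Λ (fun i j k l => pd m (pd m (fun y => T t0 y i j k l)) 0) +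
      pd m (pd m (fun y => H t0 y)) 0) :=
    Finset.sum_nonneg fun m _ => hb m
  rw [Finset.sum_add_distrib] at hsum
  have hfin : Λ (QQ R0) = L (QQ (rot R0 E)) := by
    rw [hΛ, G_Lam_apply, G_QQ_rot R0 E hEE]
  rw [hfin] at ha
  linarith

/-- a metric that is the identity with vanishing first derivatives at a point -/
theorem lap_flat {n : ℕ} {G : Eu n → Mt n} (h1 : G 0 = 1) (hd : ∀ m i j, pd m (fun y => G y i j) 0 = 0)
    (f : Eu n → ℝ) : Lap G f 0 = ∑ m, pd m (pd m f) 0 := by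
  have hg : ∀ k i j, Gam G k i j 0 = 0 := by
    intro k i j
    simp [Gam, hd]
  unfold Lap
  rw [h1, inv_one]
  simp only [hg, zero_mul, Finset.sum_const_zero, sub_zero, Matrix.one_apply]
  refine Finset.sum_congr rfl fun i _ => ?_
  simp

/-- The pointwise test with a perturbation depending on space and time. -/
theorem ptlx {n : ℕ} {G : ℝ → Eu n → Mt n} {t0 : ℝ} {x0 : Eu n} (h : LocFlow G t0 x0)
    (L : T4 n →ₗ[ℝ] ℝ) (E : Mt n) (hE : Eᵀ * G t0 x0 * E = 1) (H : ℝ → Eu n → ℝ)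
    (hH : ContDiffAt ℝ ∞ (fun p : ℝ × Eu n => H p.1 p.2) (t0, x0))
    (hmin : ∀ᶠ p : ℝ × Eu n in 𝓝 (t0, x0), p.1 ≤ t0 → ∀ F : Mt n, Fᵀ * G p.1 p.2 * F = 1 →
      0 ≤ L (rot (Rc (G p.1) p.2) F) + H p.1 p.2)
    (h0 : L (rot (Rc (G t0) x0) E) + H t0 x0 = 0) :
    L (QQ (rot (Rc (G t0) x0) E)) + deriv (fun t => H t x0) t0 - Lap (G t0) (fun y => H t0 y) x0 ≤ 0 := by
  obtain ⟨φ, hφ, hφ0, hJ, hflow, hone, hpd, hrot⟩ := norm_coord h
  set G' : ℝ → Eu n → Mt n := fun t => pull φ (G t) with hG'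
  set J : Mt n := Jac φ 0 with hJdef
  have hJu : IsUnit J.det := isUnit_iff_ne_zero.2 hJ
  have hJE : J * (J⁻¹ * E) = E := by
    rw [← Matrix.mul_assoc, Matrix.mul_nonsing_inv _ hJu, Matrix.one_mul]
  have hpull : Jᵀ * G t0 x0 * J = 1 := by
    rw [← hone, pull, hφ0]
  have hE' : (J⁻¹ * E)ᵀ * (J⁻¹ * E) = 1 := by
    calc (J⁻¹ * E)ᵀ * (J⁻¹ * E) = (J⁻¹ * E)ᵀ * (Jᵀ * G t0 x0 * J) * (J⁻¹ * E) := by
          rw [hpull, Matrix.mul_one]
      _ = (J * (J⁻¹ * E))ᵀ * G t0 x0 * (J * (J⁻¹ * E)) := by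
          rw [Matrix.transpose_mul J]
          simp only [Matrix.mul_assoc]
      _ = 1 := by rw [hJE, hE]
  have hr0 : rot (Rc (G' t0) 0) (J⁻¹ * E) = rot (Rc (G t0) x0) E := by
    have h1 := (hrot.self_of_nhds).2 (J⁻¹ * E)
    rw [hφ0, hJE] at h1
    exact h1
  have hΦ : Tendsto (fun p : ℝ × Eu n => ((p.1, φ p.2) : ℝ × Eu n)) (𝓝 (t0, 0)) (𝓝 (t0, x0)) := by
    have h1 : Continuous fun p : ℝ × Eu n => ((p.1, φ p.2) : ℝ × Eu n) :=
      continuous_fst.prodMk (hφ.continuous.comp continuous_snd)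
    have h2 := h1.tendsto (t0, 0)
    rw [hφ0] at h2
    exact h2
  have hmin' : ∀ᶠ p : ℝ × Eu n in 𝓝 (t0, 0), p.1 ≤ t0 → ∀ F : Mt n, Fᵀ * G' p.1 p.2 * F = 1 →
      0 ≤ L (rot (Rc (G' p.1) p.2) F) + H p.1 (φ p.2) := by
    filter_upwards [hΦ.eventually hmin, hrot] with p p1 p2 hpt F hF
    rw [p2.2 F]
    apply p1 hpt
    rw [← hF]
    simp only [hG', pull, Matrix.transpose_mul, Matrix.mul_assoc]
  have hHφ : ContDiffAt ℝ ∞ (fun p : ℝ × Eu n => H p.1 (φ p.2)) (t0, 0) := by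
    have h1 : ContDiffAt ℝ ∞ (fun p : ℝ × Eu n => ((p.1, φ p.2) : ℝ × Eu n)) (t0, 0) :=
      contDiffAt_fst.prodMk (hφ.contDiffAt.comp (t0, 0) contDiffAt_snd)
    refine ContDiffAt.comp (g := fun p : ℝ × Eu n => H p.1 p.2) (t0, 0) ?_ h1
    simp only [hφ0]
    exact hH
  have hmain := G_mainx hflow hone hpd L (J⁻¹ * E) hE' (fun t y => H t (φ y)) hHφ hmin' (by
    rw [hr0, hφ0]
    exact h0)
  change L (QQ (rot (Rc (G' t0) 0) (J⁻¹ * E))) + deriv (fun t => H t (φ 0)) t0
    - ∑ m, pd m (pd m (fun y => H t0 (φ y))) 0 ≤ 0 at hmain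
  rw [hr0, hφ0] at hmain
  -- the Laplacian
  have hs : ∀ᶠ x in 𝓝 (φ 0), (G t0 x).IsSymm := by
    rw [hφ0]
    exact ((Continuous.prodMk_right t0).tendsto x0).eventually h.symm
  have hsm : ∀ i j, ContDiffAt ℝ ∞ (fun x => G t0 x i j) (φ 0) := by
    rw [hφ0]
    intro i j
    exact (h.smooth.self_of_nhds i j).comp (f := fun y : Eu n => ((t0, y) : ℝ × Eu n)) x0
      (contDiffAt_const.prodMk contDiffAt_id)
  have hdet : (G t0 (φ 0)).det ≠ 0 := by
    rw [hφ0]
    exact h.pos.self_of_nhds.det_pos.ne'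
  have hHx : ContDiffAt ℝ ∞ (fun y : Eu n => H t0 y) (φ 0) := by
    rw [hφ0]
    exact hH.comp (f := fun y : Eu n => ((t0, y) : ℝ × Eu n)) x0 (contDiffAt_const.prodMk contDiffAt_id)
  have hlap := N3.lap_pull hφ.contDiffAt hJ hsm hs hdet hHx
  rw [lap_flat hone hpd, hφ0] at hlap
  rw [hlap] at hmain
  exact hmain

end Run7.h967.GM
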