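import Mathlib
import Pool.Agent.Run7.h967.GM.MaxQ
import Pool.Agent.Run7.h967.GM.Ptx

/-!
# A maximum principle with a moving barrier and an exhaustion function
-/

set_option autoImplicit false
set_option linter.all false
open scoped ContDiff Manifold Topology Matrix
open Set Filter

namespace Run7.h967.GM

open Pool.Agent.QTot Pool.Agent.H858R2 Pool.Agent.Helper696_RF Pool.Agent.Helper696_RF.MaxP

theorem pd_smul_add {n : ℕ} (k c : ℝ) (f : Eu n → ℝ) (m : Fin n) :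
    pd m (fun y => k * f y + c) = fun y => k * pd m f y := by
  funext x
  unfold pd
  rw [fderiv_add_const]
  have h := congrFun (fderiv_const_smul_field (𝕜 := ℝ) (f := f) k) x
  have e : (fun y => k * f y) = k • f := by funext y; rfl
  rw [e, h]
  rfl

theorem lap_smul_add {n : ℕ} (G : Eu n → Mt n) (k c : ℝ) (f : Eu n → ℝ) (x : Eu n) :
    Lap G (fun y => k * f y + c) x = k * Lap G f x := by
  have h2 : ∀ i j : Fin n, pd i (pd j (fun y => k * f y + c)) x = k * pd i (pd j f) x := by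
    intro i j
    rw [pd_smul_add]
    have := congrFun (pd_smul_add k 0 (pd j f) i) x
    simp only [add_zero] at this
    exact this
  unfold Lap
  simp only [h2]
  rw [Finset.mul_sum]
  refine Finset.sum_congr rfl fun i _ => ?_
  rw [Finset.mul_sum]
  refine Finset.sum_congr rfl fun j _ => ?_
  have h3 : ∀ l : Fin n, pd l (fun y => k * f y + c) x = k * pd l f x := fun l => by rw [pd_smul_add]
  simp only [h3]
  have h4 : ∑ l, Gam G l i j x * (k * pd l f x) = k * ∑ l, Gam G l i j x * pd l f x := by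
    rw [Finset.mul_sum]
    refine Finset.sum_congr rfl fun l _ => ?_
    ring
  rw [h4]
  ring

section
variable {n : ℕ} {M : Type} [TopologicalSpace M] [ChartedSpace (En n) M] [IsManifold (𝓡 n) ∞ M]

/-- limits of frames over points of a compact set -/
theorem closure_cptx {T : ℝ} {g : ℝ → Metric n M} (hg : IsRicciFlow T g)
    {Kc : Set M} (hKc : IsCompact Kc)
    {ι : Type} (𝒰 : Ultrafilter ι) (t : ι → ℝ) (t0 : ℝ) (ht0 : t0 ∈ Ico 0 T)
    (htD : ∀ k, t k ∈ Ico 0 T) (ht : Tendsto t 𝒰 (𝓝 t0))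
    (e : ι → OpenPartialHomeomorph M (En n)) (he : ∀ k, e k ∈ atlas (En n) M) (y : ι → Eu n)
    (hy : ∀ k, y k ∈ ctarget (e k)) (hK : ∀ k, (e k).symm (WithLp.toLp 2 (y k)) ∈ Kc)
    (F : ι → Mt n) (hF : ∀ k, (F k)ᵀ * (g (t k)).G (e k) (y k) * F k = 1) :
    ∃ e0 ∈ atlas (En n) M, ∃ y0 ∈ ctarget e0, ∃ F0 : Mt n,
      F0ᵀ * (g t0).G e0 y0 * F0 = 1 ∧
      Tendsto (fun k => (e k).symm (WithLp.toLp 2 (y k))) 𝒰 (𝓝 (e0.symm (WithLp.toLp 2 y0))) ∧
      Tendsto (fun k => rot (Rc ((g (t k)).G (e k)) (y k)) (F k)) 𝒰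
        (𝓝 (rot (Rc ((g t0).G e0) y0) F0)) := by
  -- the limit point
  obtain ⟨x0, -, hx0⟩ := hKc.ultrafilter_le_nhds
    (𝒰.map fun k => (e k).symm (WithLp.toLp 2 (y k))) (by
      rw [le_principal_iff]
      exact Filter.mem_map.2 (Filter.univ_mem' hK))
  have hx : Tendsto (fun k => (e k).symm (WithLp.toLp 2 (y k))) 𝒰 (𝓝 x0) := hx0
  set e0 := chartAt (En n) x0 with he0
  have he0m : e0 ∈ atlas (En n) M := chart_mem_atlas _ _
  have hx0s : x0 ∈ e0.source := mem_chart_source _ _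
  set y0 : Eu n := WithLp.ofLp (e0 x0) with hy0
  have hy0m : y0 ∈ ctarget e0 := by
    show WithLp.toLp 2 (WithLp.ofLp (e0 x0)) ∈ e0.target
    rw [WithLp.toLp_ofLp]
    exact e0.map_source hx0s
  have hev : ∀ᶠ k in (𝒰 : Filter ι), y k ∈ cdm (e k) e0 := by
    filter_upwards [hx.eventually (e0.open_source.mem_nhds hx0s)] with k hk
    exact ⟨hy k, hk⟩
  set y' : ι → Eu n := fun k => ctrn (e k) e0 (y k) with hy'
  have hy'l : Tendsto y' 𝒰 (𝓝 y0) := by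
    have h1 : Tendsto (fun k => e0 ((e k).symm (WithLp.toLp 2 (y k)))) 𝒰 (𝓝 (e0 x0)) :=
      (e0.continuousAt hx0s).tendsto.comp hx
    exact ((PiLp.continuous_ofLp 2 _).tendsto _).comp h1
  have hy'm : ∀ᶠ k in (𝒰 : Filter ι), y' k ∈ ctarget e0 := hev.mono fun k hk => ctrn_mem hk
  obtain ⟨lG, lI, lR⟩ := tendsto_G hg he0m ht0 hy0m (Eventually.of_forall htD) hy'm ht hy'l
  set F' : ι → Mt n := fun k => Jac (ctrn (e k) e0) (y k) * F k with hF'
  have hfr : ∀ᶠ k in (𝒰 : Filter ι), (F' k)ᵀ * (g (t k)).G e0 (y' k) * F' k = 1 ∧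
      rot (Rc ((g (t k)).G (e k)) (y k)) (F k) = rot (Rc ((g (t k)).G e0) (y' k)) (F' k) := by
    filter_upwards [hev] with k hk
    obtain ⟨c1, c2⟩ := rc_change (g (t k)) (he k) he0m hk
    constructor
    · rw [← hF k, c1]
      simp only [hF', hy', Matrix.transpose_mul, Matrix.mul_assoc]
    · rw [c2, MaxP.rot_rot]
  -- the limit of the frames
  have hlim : ∀ i j : Fin n, ∃ a : ℝ, Tendsto (fun k => F' k i j) 𝒰 (𝓝 a) := by
    intro i j
    have hb : ∀ᶠ k in (𝒰 : Filter ι), F' k i j ∈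
        Icc (-(((g t0).G e0 y0)⁻¹ i i + 2)) (((g t0).G e0 y0)⁻¹ i i + 2) := by
      filter_upwards [hfr, (lI i i).eventually (gt_mem_nhds
        (show ((g t0).G e0 y0)⁻¹ i i < ((g t0).G e0 y0)⁻¹ i i + 1 by linarith))] with k h1 h2
      have h3 := frame_bound h1.1 i j
      constructor <;> nlinarith [sq_nonneg (F' k i j - 1), sq_nonneg (F' k i j + 1)]
    obtain ⟨a, -, ha⟩ := (isCompact_Icc (a := -(((g t0).G e0 y0)⁻¹ i i + 2))
      (b := ((g t0).G e0 y0)⁻¹ i i + 2)).ultrafilter_le_nhds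
      (𝒰.map fun k => F' k i j) (by rw [le_principal_iff]; exact hb)
    exact ⟨a, ha⟩
  choose F00 hF00 using hlim
  obtain ⟨F0, hF0⟩ : ∃ F0 : Mt n, ∀ i j, Tendsto (fun k => F' k i j) 𝒰 (𝓝 (F0 i j)) :=
    ⟨F00, hF00⟩
  have hF0l : Tendsto F' 𝒰 (𝓝 F0) :=
    tendsto_pi_nhds.mpr fun i => tendsto_pi_nhds.mpr fun j => hF0 i j
  refine ⟨e0, he0m, y0, hy0m, F0, ?_, ?_, ?_⟩
  · have hT : Tendsto (fun k => (F' k)ᵀ) 𝒰 (𝓝 F0ᵀ) :=
      (Continuous.matrix_transpose continuous_id).continuousAt.tendsto.comp hF0l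
    have h1 : Tendsto (fun k => (F' k)ᵀ * (g (t k)).G e0 (y' k) * F' k) 𝒰
        (𝓝 (F0ᵀ * (g t0).G e0 y0 * F0)) := (hT.mul lG).mul hF0l
    have h2 : Tendsto (fun k => (F' k)ᵀ * (g (t k)).G e0 (y' k) * F' k) 𝒰 (𝓝 1) :=
      tendsto_const_nhds.congr' (hfr.mono fun k hk => hk.1.symm)
    exact tendsto_nhds_unique h1 h2
  · have : e0.symm (WithLp.toLp 2 y0) = x0 := by
      rw [hy0, WithLp.toLp_ofLp]
      exact e0.left_inv hx0s
    rw [this]
    exact hx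
  · have h1 : Tendsto (fun k => rot (Rc ((g (t k)).G e0) (y' k)) (F' k)) 𝒰
        (𝓝 (rot (Rc ((g t0).G e0) y0) F0)) := tendsto_rot lR hF0l
    exact h1.congr' (hfr.mono fun k hk => hk.2.symm)


/-- a function that is smooth in the charts is continuous -/
theorem chart_cont {ψ : M → ℝ} (hψ : ∀ e ∈ atlas (En n) M,
    ContDiffOn ℝ ∞ (fun y : Eu n => ψ (e.symm (WithLp.toLp 2 y))) (ctarget e)) : Continuous ψ := by
  rw [continuous_iff_continuousAt]
  intro p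
  set e := chartAt (En n) p with he
  have hp : p ∈ e.source := mem_chart_source _ _
  have hy : WithLp.ofLp (e p) ∈ ctarget e := by
    show WithLp.toLp 2 (WithLp.ofLp (e p)) ∈ e.target
    rw [WithLp.toLp_ofLp]
    exact e.map_source hp
  have h1 : ContinuousAt (fun y : Eu n => ψ (e.symm (WithLp.toLp 2 y))) (WithLp.ofLp (e p)) :=
    ((hψ e (chart_mem_atlas _ _)).continuousOn).continuousAt ((isOpen_ctarget e).mem_nhds hy)
  have h2 : ContinuousAt (fun q : M => (WithLp.ofLp (e q) : Eu n)) p :=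
    ((PiLp.continuous_ofLp 2 _).continuousAt).comp (e.continuousAt hp)
  have h3 : ContinuousAt ((fun y : Eu n => ψ (e.symm (WithLp.toLp 2 y))) ∘
      (fun q : M => (WithLp.ofLp (e q) : Eu n))) p := ContinuousAt.comp h1 h2
  refine h3.congr ?_
  filter_upwards [e.open_source.mem_nhds hp] with q hq
  simp only [Function.comp_apply, WithLp.toLp_ofLp]
  rw [e.left_inv hq]

/-- The maximum principle with an exhaustion function. -/
theorem maxr {T : ℝ} {g : ℝ → Metric n M} (hg : IsRicciFlow T g) {t1 : ℝ} (ht1 : t1 < T)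
    {Kc : Set M} (hKc : IsCompact Kc)
    {Θ : Type} [TopologicalSpace Θ] [CompactSpace Θ] (L : Θ → T4 n →ₗ[ℝ] ℝ)
    (hL : ∀ R : T4 n, Continuous fun θ => L θ R) (X : T4 n →ₗ[ℝ] ℝ)
    (hX : ∀ (R : T4 n) (O : Mt n), Oᵀ * O = 1 → X (rot R O) = X R)
    (hXp : ∀ t ∈ Icc 0 t1, ∀ e ∈ atlas (En n) M, ∀ y ∈ ctarget e, ∀ F : Mt n,
      Fᵀ * (g t).G e y * F = 1 → 0 < X (rot (Rc ((g t).G e) y) F))
    (B : ℝ → ℝ → ℝ) (hB : ∀ x > 0, ∀ t ∈ Icc 0 t1, ContDiffAt ℝ 1 (fun p : ℝ × ℝ => B p.1 p.2) (x, t))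
    {ψ : M → ℝ} (hψ : ∀ e ∈ atlas (En n) M,
      ContDiffOn ℝ ∞ (fun y : Eu n => ψ (e.symm (WithLp.toLp 2 y))) (ctarget e)) {ε C : ℝ}
    (hinit : ∀ e ∈ atlas (En n) M, ∀ y ∈ ctarget e, ∀ F : Mt n, Fᵀ * (g 0).G e y * F = 1 →
      ∀ θ, B (X (rot (Rc ((g 0).G e) y) F)) 0 <
        L θ (rot (Rc ((g 0).G e) y) F) + ε * ψ (e.symm (WithLp.toLp 2 y)))
    (hout : ∀ t ∈ Icc 0 t1, ∀ e ∈ atlas (En n) M, ∀ y ∈ ctarget e,
      e.symm (WithLp.toLp 2 y) ∉ Kc → ∀ F : Mt n, Fᵀ * (g t).G e y * F = 1 →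
      ∀ θ, B (X (rot (Rc ((g t).G e) y) F)) t <
        L θ (rot (Rc ((g t).G e) y) F) + ε * Real.exp (C * t) * ψ (e.symm (WithLp.toLp 2 y)))
    (hode : ∀ t ∈ Ioc 0 t1, ∀ e ∈ atlas (En n) M, ∀ y ∈ ctarget e,
      e.symm (WithLp.toLp 2 y) ∈ Kc →
      (∀ F : Mt n, Fᵀ * (g t).G e y * F = 1 → ∀ θ,
        B (X (rot (Rc ((g t).G e) y) F)) t ≤
          L θ (rot (Rc ((g t).G e) y) F) + ε * Real.exp (C * t) * ψ (e.symm (WithLp.toLp 2 y))) →
      ∀ E : Mt n, Eᵀ * (g t).G e y * E = 1 → ∀ θ,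
        L θ (rot (Rc ((g t).G e) y) E) + ε * Real.exp (C * t) * ψ (e.symm (WithLp.toLp 2 y)) =
          B (X (rot (Rc ((g t).G e) y) E)) t →
        ∃ m d : ℝ, (∀ x > 0, B (X (rot (Rc ((g t).G e) y) E)) t +
            m * (x - X (rot (Rc ((g t).G e) y) E)) ≤ B x t) ∧
          HasDerivAt (fun τ => B (X (rot (Rc ((g t).G e) y) E)) τ) d t ∧
          0 < L θ (QQ (rot (Rc ((g t).G e) y) E)) - m * X (QQ (rot (Rc ((g t).G e) y) E)) - d
            + C * (ε * Real.exp (C * t) * ψ (e.symm (WithLp.toLp 2 y)))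
            - ε * Real.exp (C * t) * Lap ((g t).G e) (fun y => ψ (e.symm (WithLp.toLp 2 y))) y) :
    ∀ t ∈ Icc 0 t1, ∀ e ∈ atlas (En n) M, ∀ y ∈ ctarget e, ∀ F : Mt n,
      Fᵀ * (g t).G e y * F = 1 → ∀ θ,
        B (X (rot (Rc ((g t).G e) y) F)) t <
          L θ (rot (Rc ((g t).G e) y) F) + ε * Real.exp (C * t) * ψ (e.symm (WithLp.toLp 2 y)) := by
  classical
  by_contra hcon
  push Not at hcon
  obtain ⟨t', ht', e', he', y', hy', F', hF', θ', hΨ'⟩ := hcon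
  let S : Set ℝ := {t | t ∈ Icc 0 t1 ∧ ∃ e ∈ atlas (En n) M, ∃ y ∈ ctarget e, ∃ F : Mt n,
    Fᵀ * (g t).G e y * F = 1 ∧ ∃ θ, L θ (rot (Rc ((g t).G e) y) F) +
      ε * Real.exp (C * t) * ψ (e.symm (WithLp.toLp 2 y)) ≤ B (X (rot (Rc ((g t).G e) y) F)) t}
  have hSne : S.Nonempty := ⟨t', ht', e', he', y', hy', F', hF', θ', hΨ'⟩
  have hSb : BddBelow S := ⟨0, fun t ht => ht.1.1⟩
  set t0 := sInf S with ht0def
  have ht00 : 0 ≤ t0 := le_csInf hSne fun t ht => ht.1.1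
  have ht01 : t0 ≤ t1 := (csInf_le hSb ⟨ht', e', he', y', hy', F', hF', θ', hΨ'⟩).trans ht'.2
  have ht0T : t0 ∈ Ico 0 T := ⟨ht00, lt_of_le_of_lt ht01 ht1⟩
  have hLc := continuous_L L hL
  have hXc : Continuous (fun R : T4 n => X R) := LinearMap.continuous_of_finiteDimensional X
  have hψc := chart_cont hψ
  -- before `t0` everything is positive
  have hbefore : ∀ t, 0 ≤ t → t < t0 → ∀ e ∈ atlas (En n) M, ∀ y ∈ ctarget e, ∀ F : Mt n,
      Fᵀ * (g t).G e y * F = 1 → ∀ θ,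
        B (X (rot (Rc ((g t).G e) y) F)) t <
          L θ (rot (Rc ((g t).G e) y) F) + ε * Real.exp (C * t) * ψ (e.symm (WithLp.toLp 2 y)) := by
    intro t h0 hlt e he y hy F hF θ
    by_contra hneg
    push Not at hneg
    have : t ∈ S := ⟨⟨h0, hlt.le.trans ht01⟩, e, he, y, hy, F, hF, θ, hneg⟩
    exact absurd (csInf_le hSb this) (not_le.mpr hlt)
  -- `t0` is in `S`
  have ht0S : ∃ e ∈ atlas (En n) M, ∃ y ∈ ctarget e, ∃ F : Mt n,
      Fᵀ * (g t0).G e y * F = 1 ∧ ∃ θ, L θ (rot (Rc ((g t0).G e) y) F) +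
        ε * Real.exp (C * t0) * ψ (e.symm (WithLp.toLp 2 y)) ≤
        B (X (rot (Rc ((g t0).G e) y) F)) t0 := by
    obtain ⟨u, -, hu, huS⟩ := exists_seq_tendsto_sInf hSne hSb
    choose hu1 e he y hy F hF θ hθ using huS
    let 𝒰 : Ultrafilter ℕ := hyperfilter ℕ
    have hle : (𝒰 : Filter ℕ) ≤ atTop := Nat.hyperfilter_le_atTop
    have hu' : Tendsto u 𝒰 (𝓝 t0) := hu.mono_left hle
    have hin : ∀ k, (e k).symm (WithLp.toLp 2 (y k)) ∈ Kc := by
      intro k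
      by_contra hk
      exact absurd (hθ k) (not_le.mpr (hout (u k) (hu1 k) (e k) (he k) (y k) (hy k) hk (F k) (hF k) (θ k)))
    obtain ⟨e0, he0, y0, hy0, F0, hF0, hplim, hlim⟩ := closure_cptx hg hKc 𝒰 u t0 ht0T
      (fun k => ⟨(hu1 k).1, lt_of_le_of_lt (hu1 k).2 ht1⟩) hu' e he y hy hin F hF
    obtain ⟨θ0, -, hθ0⟩ := isCompact_univ.ultrafilter_le_nhds (𝒰.map θ) (by simp)
    have hθ0' : Tendsto θ 𝒰 (𝓝 θ0) := hθ0
    refine ⟨e0, he0, y0, hy0, F0, hF0, θ0, ?_⟩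
    have h1 : Tendsto (fun k => L (θ k) (rot (Rc ((g (u k)).G (e k)) (y k)) (F k))) 𝒰
        (𝓝 (L θ0 (rot (Rc ((g t0).G e0) y0) F0))) :=
      (hLc.tendsto (θ0, rot (Rc ((g t0).G e0) y0) F0)).comp (hθ0'.prodMk_nhds hlim)
    have h1w : Tendsto (fun k => ε * Real.exp (C * u k) * ψ ((e k).symm (WithLp.toLp 2 (y k)))) 𝒰
        (𝓝 (ε * Real.exp (C * t0) * ψ (e0.symm (WithLp.toLp 2 y0)))) := by
      refine Tendsto.mul ?_ ((hψc.tendsto _).comp hplim)
      have hc : Continuous (fun t : ℝ => ε * Real.exp (C * t)) := by fun_prop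
      exact (hc.tendsto t0).comp hu'
    have h2 : Tendsto (fun k => B (X (rot (Rc ((g (u k)).G (e k)) (y k)) (F k))) (u k)) 𝒰
        (𝓝 (B (X (rot (Rc ((g t0).G e0) y0) F0)) t0)) := by
      have hc := (hB _ (hXp t0 ⟨ht00, ht01⟩ e0 he0 y0 hy0 F0 hF0) t0 ⟨ht00, ht01⟩).continuousAt
      exact hc.tendsto.comp (((hXc.tendsto _).comp hlim).prodMk_nhds hu')
    exact le_of_tendsto_of_tendsto' (h1.add h1w) h2 hθ
  -- `0 < t0`
  have ht0pos : 0 < t0 := by
    rcases ht00.lt_or_eq with h | h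
    · exact h
    · exfalso
      obtain ⟨e, he, y, hy, F, hF, θ, hθ⟩ := ht0S
      rw [← h] at hF hθ
      rw [mul_zero, Real.exp_zero, mul_one] at hθ
      exact absurd hθ (not_le.mpr (hinit e he y hy F hF θ))
  -- at `t0` everything is nonnegative
  obtain ⟨r, hr1, hr2⟩ := root_exists n
  have hnonneg : ∀ e ∈ atlas (En n) M, ∀ y ∈ ctarget e, ∀ F : Mt n,
      Fᵀ * (g t0).G e y * F = 1 → ∀ θ,
        B (X (rot (Rc ((g t0).G e) y) F)) t0 ≤ L θ (rot (Rc ((g t0).G e) y) F)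
          + ε * Real.exp (C * t0) * ψ (e.symm (WithLp.toLp 2 y)) := by
    intro e he y hy F hF θ
    have hIoo : ∀ᶠ t in 𝓝[<] t0, t ∈ Ioo 0 t0 := Ioo_mem_nhdsLT ht0pos
    have htD : ∀ᶠ t in 𝓝[<] t0, t ∈ Ico 0 T := hIoo.mono fun t ht =>
      ⟨ht.1.le, ht.2.trans ht0T.2⟩
    have lt0 : Tendsto (fun t : ℝ => t) (𝓝[<] t0) (𝓝 t0) := tendsto_id.mono_left nhdsWithin_le_nhds
    obtain ⟨lG, -, lR⟩ := tendsto_G (l := 𝓝[<] t0) (t := fun t => t) (y := fun _ => y) hg he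
      ht0T hy htD (Eventually.of_forall fun _ => hy) lt0 tendsto_const_nhds
    have hpos : ∀ t, (Fᵀ * (g t).G e y * F).PosDef := fun t =>
      posDef_conj ((g t).posDef e he y hy) (det_frame hF)
    have lA : Tendsto (fun t => Fᵀ * (g t).G e y * F) (𝓝[<] t0) (𝓝 1) := by
      rw [← hF]
      exact (tendsto_const_nhds.mul lG).mul tendsto_const_nhds
    have lA' : Tendsto (fun t => Fᵀ * (g t).G e y * F) (𝓝[<] t0)
        (𝓝[{A : Mt n | A.PosDef}] 1) := by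
      rw [tendsto_nhdsWithin_iff]
      exact ⟨lA, Eventually.of_forall fun t => hpos t⟩
    have lr : Tendsto (fun t => F * r (Fᵀ * (g t).G e y * F)) (𝓝[<] t0) (𝓝 F) := by
      have := (tendsto_const_nhds (x := F)).mul (hr2.comp lA')
      rwa [mul_one] at this
    have hfr : ∀ t, (F * r (Fᵀ * (g t).G e y * F))ᵀ * (g t).G e y *
        (F * r (Fᵀ * (g t).G e y * F)) = 1 := by
      intro t
      have := hr1 _ (hpos t)
      rw [← this]
      simp only [Matrix.transpose_mul, Matrix.mul_assoc]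
    have k1 : Tendsto (fun t => rot (Rc ((g t).G e) y) (F * r (Fᵀ * (g t).G e y * F)))
        (𝓝[<] t0) (𝓝 (rot (Rc ((g t0).G e) y) F)) := tendsto_rot lR lr
    have k2 : Continuous (fun R : T4 n => L θ R) :=
      LinearMap.continuous_of_finiteDimensional (L θ)
    have lim1 := (k2.tendsto _).comp k1
    have limw : Tendsto (fun t => ε * Real.exp (C * t) * ψ (e.symm (WithLp.toLp 2 y))) (𝓝[<] t0)
        (𝓝 (ε * Real.exp (C * t0) * ψ (e.symm (WithLp.toLp 2 y)))) := by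
      have hc : Continuous (fun t : ℝ => ε * Real.exp (C * t) * ψ (e.symm (WithLp.toLp 2 y))) := by fun_prop
      exact (hc.tendsto t0).comp lt0
    have lim2 : Tendsto (fun t => B (X (rot (Rc ((g t).G e) y) (F * r (Fᵀ * (g t).G e y * F)))) t)
        (𝓝[<] t0) (𝓝 (B (X (rot (Rc ((g t0).G e) y) F)) t0)) := by
      have hc := (hB _ (hXp t0 ⟨ht00, ht01⟩ e he y hy F hF) t0 ⟨ht00, ht01⟩).continuousAt
      exact hc.tendsto.comp (((hXc.tendsto _).comp k1).prodMk_nhds lt0)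
    refine le_of_tendsto_of_tendsto lim2 (lim1.add limw) ?_
    filter_upwards [hIoo] with t ht
    exact (hbefore t ht.1.le ht.2 e he y hy _ (hfr t) θ).le
  -- the contradiction
  obtain ⟨e, he, y, hy, E, hE, θ, hθ⟩ := ht0S
  have hz : L θ (rot (Rc ((g t0).G e) y) E) + ε * Real.exp (C * t0) * ψ (e.symm (WithLp.toLp 2 y)) =
      B (X (rot (Rc ((g t0).G e) y) E)) t0 :=
    le_antisymm hθ (hnonneg e he y hy E hE θ)
  have hyK : e.symm (WithLp.toLp 2 y) ∈ Kc := by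
    by_contra hk
    exact absurd hθ (not_le.mpr (hout t0 ⟨ht00, ht01⟩ e he y hy hk E hE θ))
  obtain ⟨m, d, hm, hd, hmd⟩ := hode t0 ⟨ht0pos, ht01⟩ e he y hy hyK
    (fun F hF θ => hnonneg e he y hy F hF θ) E hE θ hz
  set x0 := X (rot (Rc ((g t0).G e) y) E) with hx0
  have hx0p : 0 < x0 := hXp t0 ⟨ht00, ht01⟩ e he y hy E hE
  set ψe : Eu n → ℝ := fun y => ψ (e.symm (WithLp.toLp 2 y)) with hψe
  set η := (L θ (QQ (rot (Rc ((g t0).G e) y) E)) - m * X (QQ (rot (Rc ((g t0).G e) y) E)) - d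
      + C * (ε * Real.exp (C * t0) * ψ (e.symm (WithLp.toLp 2 y)))
      - ε * Real.exp (C * t0) * Lap ((g t0).G e) ψe y) / 2 with hη
  have hη0 : 0 < η := by rw [hη]; linarith
  have hopen : Ioo 0 T ×ˢ ctarget e ∈ 𝓝 (t0, y) :=
    (isOpen_Ioo.prod (isOpen_ctarget e)).mem_nhds ⟨⟨ht0pos, ht0T.2⟩, hy⟩
  have hloc : LocFlow (fun t => (g t).G e) t0 y := by
    refine ⟨?_, ?_, ?_, ?_⟩
    · filter_upwards [hopen] with p hp i j
      have hn : Ico 0 T ×ˢ ctarget e ∈ 𝓝 p := by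
        have : Ioo 0 T ×ˢ ctarget e ∈ 𝓝 p :=
          (isOpen_Ioo.prod (isOpen_ctarget e)).mem_nhds hp
        exact mem_of_superset this (prod_mono Ioo_subset_Ico_self le_rfl)
      exact (hg.1 e he i j).contDiffAt hn
    · filter_upwards [hopen] with p hp
      exact isSymm_of_posDef ((g p.1).posDef e he p.2 hp.2)
    · filter_upwards [hopen] with p hp
      exact (g p.1).posDef e he p.2 hp.2
    · filter_upwards [hopen] with p hp i j
      exact (hg.2 e he p.2 hp.2 p.1 ⟨hp.1.1.le, hp.1.2⟩ i j).hasDerivAt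
        (Ico_mem_nhds hp.1.1 hp.1.2)
  -- strict differentiability of the barrier
  have hBs := (hB x0 hx0p t0 ⟨ht00, ht01⟩).hasStrictFDerivAt one_ne_zero
  have hBd : (fderiv ℝ (fun p : ℝ × ℝ => B p.1 p.2) (x0, t0)) (0, 1) = d := by
    have h1 : HasDerivAt (fun τ : ℝ => ((x0, τ) : ℝ × ℝ)) (0, 1) t0 :=
      (hasDerivAt_const t0 x0).prodMk (hasDerivAt_id t0)
    have h2 : HasFDerivAt (fun p : ℝ × ℝ => B p.1 p.2) (fderiv ℝ (fun p : ℝ × ℝ => B p.1 p.2) (x0, t0))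
        ((fun τ : ℝ => ((x0, τ) : ℝ × ℝ)) t0) := hBs.hasFDerivAt
    have h3 := h2.comp_hasDerivAt t0 h1
    exact h3.unique hd
  have hBe : ∀ᶠ q : (ℝ × ℝ) in 𝓝 (x0, t0), q.2 ≤ t0 → B q.1 t0 + (d + η) * (q.2 - t0) ≤ B q.1 q.2 := by
    have h1 := hBs.isLittleO.def hη0
    have hc : Continuous (fun q : ℝ × ℝ => (((q.1, q.2), (q.1, t0)) : (ℝ × ℝ) × (ℝ × ℝ))) := by fun_prop
    have h2 : ∀ᶠ q : ℝ × ℝ in 𝓝 (x0, t0), _ := (hc.tendsto (x0, t0)).eventually h1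
    filter_upwards [h2] with q hq hle
    have e1 : ((q.1, q.2) : ℝ × ℝ) - (q.1, t0) = (q.2 - t0) • ((0, 1) : ℝ × ℝ) := by
      ext <;> simp
    simp only [e1] at hq
    rw [map_smul, hBd, norm_smul] at hq
    have e2 : ‖((0, 1) : ℝ × ℝ)‖ = 1 := by simp [Prod.norm_def]
    rw [e2, mul_one, smul_eq_mul, Real.norm_eq_abs, Real.norm_eq_abs] at hq
    have e3 : |q.2 - t0| = -(q.2 - t0) := abs_of_nonpos (by linarith)
    rw [e3] at hq
    have h4 := (abs_le.1 hq).1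
    nlinarith
  obtain ⟨W, hW, hWs⟩ : ∃ W ∈ 𝓝 x0, ∀ᶠ s : ℝ in 𝓝 t0, ∀ x ∈ W, 0 < x ∧
      (s ≤ t0 → B x t0 + (d + η) * (s - t0) ≤ B x s) := by
    rw [nhds_prod_eq, eventually_prod_iff] at hBe
    obtain ⟨pa, hpa, pb, hpb, hab⟩ := hBe
    refine ⟨{x | pa x} ∩ Ioi 0, inter_mem hpa (Ioi_mem_nhds hx0p), ?_⟩
    filter_upwards [hpb] with s hs x hx
    exact ⟨hx.2, fun hle => hab hx.1 hs hle⟩
  have hXe : ∀ᶠ p : ℝ × Eu n in 𝓝 (t0, y), ∀ F : Mt n, Fᵀ * (g p.1).G e p.2 * F = 1 →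
      X (rot (Rc ((g p.1).G e) p.2) F) ∈ W := by
    refine inv_cont (l := 𝓝 (t0, y)) (t := fun p : ℝ × Eu n => p.1) (y := fun p : ℝ × Eu n => p.2)
      hg he ht0T hy ?_ ?_ continuous_fst.continuousAt continuous_snd.continuousAt X hX hE hW
    · filter_upwards [hopen] with p hp
      exact ⟨hp.1.1.le, hp.1.2⟩
    · filter_upwards [hopen] with p hp
      exact hp.2
  have hWt : ∀ᶠ p : ℝ × Eu n in 𝓝 (t0, y), ∀ x ∈ W, 0 < x ∧
      (p.1 ≤ t0 → B x t0 + (d + η) * (p.1 - t0) ≤ B x p.1) :=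
    (continuous_fst.tendsto (t0, y)).eventually hWs
  have hψy : ContDiffAt ℝ ∞ ψe y := (hψ e he).contDiffAt ((isOpen_ctarget e).mem_nhds hy)
  have h2 := ptlx hloc (L θ - m • X) E hE
    (fun t z => ε * Real.exp (C * t) * ψe z + (-(B x0 t0 - m * x0) - (d + η) * (t - t0))) (by
      have h1 : ContDiffAt ℝ ∞ (fun p : ℝ × Eu n => ψe p.2) (t0, y) :=
        ContDiffAt.comp (g := ψe) (t0, y) hψy contDiffAt_snd
      have h3 : ContDiffAt ℝ ∞ (fun p : ℝ × Eu n => ε * Real.exp (C * p.1)) (t0, y) :=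
        contDiffAt_const.mul (Real.contDiff_exp.contDiffAt.comp (t0, y) (contDiffAt_const.mul contDiffAt_fst))
      have h4 : ContDiffAt ℝ ∞ (fun p : ℝ × Eu n => -(B x0 t0 - m * x0) - (d + η) * (p.1 - t0)) (t0, y) :=
        contDiffAt_const.sub (contDiffAt_const.mul (contDiffAt_fst.sub contDiffAt_const))
      exact (h3.mul h1).add h4) (by
    filter_upwards [hopen, hXe, hWt] with p hp hpX hpW hle F hF
    have hmem := hpX F hF
    obtain ⟨hxp, hxB⟩ := hpW _ hmem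
    have hxB' := hxB hle
    have hlow : B (X (rot (Rc ((g p.1).G e) p.2) F)) p.1 ≤ L θ (rot (Rc ((g p.1).G e) p.2) F)
        + ε * Real.exp (C * p.1) * ψe p.2 := by
      rcases hle.lt_or_eq with h | h
      · exact (hbefore p.1 hp.1.1.le h e he p.2 hp.2 F hF θ).le
      · have hF2 : Fᵀ * (g t0).G e p.2 * F = 1 := by rw [← h]; exact hF
        have := hnonneg e he p.2 hp.2 F hF2 θ
        rw [← h] at this
        exact this
    have htan := hm _ hxp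
    simp only [LinearMap.sub_apply, LinearMap.smul_apply, smul_eq_mul]
    linarith) (by
      simp only [LinearMap.sub_apply, LinearMap.smul_apply, smul_eq_mul]
      have hz' : L θ (rot (Rc ((g t0).G e) y) E) + ε * Real.exp (C * t0) * ψe y = B x0 t0 := hz
      rw [← hx0]
      linear_combination hz')
  have hder : deriv (fun t => ε * Real.exp (C * t) * ψe y + (-(B x0 t0 - m * x0) - (d + η) * (t - t0))) t0
      = C * (ε * Real.exp (C * t0) * ψe y) - (d + η) := by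
    have h0 : HasDerivAt (fun t : ℝ => t - t0) 1 t0 := (hasDerivAt_id t0).sub_const t0
    have h1 : HasDerivAt (fun t : ℝ => -(B x0 t0 - m * x0) - (d + η) * (t - t0)) (-((d + η) * 1)) t0 :=
      (h0.const_mul (d + η)).const_sub _
    have h3 : HasDerivAt (fun t : ℝ => Real.exp (C * t)) (Real.exp (C * t0) * (C * 1)) t0 :=
      ((hasDerivAt_id t0).const_mul C).exp
    have h4 := ((h3.const_mul ε).mul_const (ψe y)).add h1
    have h5 := h4.deriv
    rw [show (fun t => ε * Real.exp (C * t) * ψe y + (-(B x0 t0 - m * x0) - (d + η) * (t - t0))) =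
      ((fun t => ε * Real.exp (C * t) * ψe y) + fun t => -(B x0 t0 - m * x0) - (d + η) * (t - t0)) from rfl, h5]
    ring
  rw [hder, lap_smul_add] at h2
  simp only [LinearMap.sub_apply, LinearMap.smul_apply, smul_eq_mul] at h2
  have h3 : ψ (e.symm (WithLp.toLp 2 y)) = ψe y := rfl
  rw [h3] at hη
  linarith

end

end Run7.h967.GM
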