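import Mathlib
import Pool.Agent.Run7.h967.GM.Barrier

/-!
# The ODE inequality with a perturbation `κ`
-/

set_option autoImplicit false
set_option linter.all false
open Set Filter Topology

namespace Run7.h967.GM

/-- large perturbation -/
theorem odeA {a x φ D ρ LQ XQ κ : ℝ} (ha : 0 < a) (hx : 0 < x) (hφ : 0 < φ)
    (hφ1 : φ < (1 - 4 * a) / 2) (hD : 0 ≤ D) (hD1 : D ≤ 1) (hρ : 0 ≤ ρ) (hρ1 : ρ ≤ 1)
    (hLQ : 0 ≤ LQ) (hX : XQ ≤ 4 * x ^ 2) (hκ : φ * x ≤ 9 * κ) :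
    0 < LQ - (φ + a * D * (1 - ρ) * φ ^ 2) * XQ - 4 * a * D * ρ * x ^ 2 * φ ^ 2 + 50 * x * κ := by
  have ha4 : a < 1 / 4 := by linarith
  have hφ2 : φ < 1 / 2 := by linarith
  set δ := a * D * (1 - ρ) with hδ
  have hδ0 : 0 ≤ δ := by
    have : 0 ≤ 1 - ρ := by linarith
    positivity
  have haD : a * D ≤ a := by nlinarith
  have haD0 : 0 ≤ a * D := by positivity
  have hδ1 : δ ≤ 1 / 4 := by
    have : a * D * (1 - ρ) ≤ a * D * 1 := by
      apply mul_le_mul_of_nonneg_left _ (by positivity); linarith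
    rw [hδ]; linarith
  set m := φ + δ * φ ^ 2 with hm
  have hm0 : 0 < m := by positivity
  have hm2 : m ≤ 9 / 8 * φ := by
    have h1 : δ * φ ^ 2 ≤ 1 / 4 * φ ^ 2 := mul_le_mul_of_nonneg_right hδ1 (sq_nonneg _)
    rw [hm]
    nlinarith
  have h1 : m * XQ ≤ 9 / 8 * φ * (4 * x ^ 2) := by
    calc m * XQ ≤ m * (4 * x ^ 2) := mul_le_mul_of_nonneg_left hX hm0.le
      _ ≤ 9 / 8 * φ * (4 * x ^ 2) := mul_le_mul_of_nonneg_right hm2 (by positivity)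
  have h2 : 4 * a * D * ρ * x ^ 2 * φ ^ 2 ≤ x ^ 2 * φ * (1 / 2) := by
    have h3 : a * D * ρ ≤ 1 / 4 := by
      calc a * D * ρ ≤ a * D * 1 := mul_le_mul_of_nonneg_left hρ1 haD0
        _ ≤ 1 / 4 := by linarith
    have h4 : 4 * a * D * ρ * x ^ 2 * φ ^ 2 = (4 * (a * D * ρ)) * (x ^ 2 * φ * φ) := by ring
    have h5 : 0 ≤ x ^ 2 * φ * φ := by positivity
    have h6 : (4 * (a * D * ρ)) * (x ^ 2 * φ * φ) ≤ 1 * (x ^ 2 * φ * φ) :=
      mul_le_mul_of_nonneg_right (by linarith) h5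
    have h7 : x ^ 2 * φ * φ ≤ x ^ 2 * φ * (1 / 2) := mul_le_mul_of_nonneg_left hφ2.le (by positivity)
    linarith
  have h3 : x * (φ * x) ≤ x * (9 * κ) := mul_le_mul_of_nonneg_left hκ hx.le
  have h4 : 0 < x * (φ * x) := by positivity
  nlinarith

theorem odeB {a x φ D ρ lam S1 S2 b1 b2 b LQ XQ κ : ℝ} (ha : 0 < a) (hx : 0 < x) (hφ : 0 < φ)
    (hφ1 : φ < (1 - 4 * a) / 2) (hD : 0 ≤ D) (hD1 : D ≤ 1) (hρ : 0 ≤ ρ) (hρ1 : ρ ≤ 1) (hl : 0 < lam)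
    (hκ : 0 ≤ κ) (hκ1 : 9 * κ < φ * x)
    (h1 : lam * S1 = φ * x - κ) (h2 : lam⁻¹ * S2 = φ * x - κ) (h3 : 3 * S1 ≤ 2 * x) (h4 : 3 * S2 ≤ 2 * x)
    (hb1 : 0 ≤ b1) (hb2 : 0 ≤ b2) (hb : 2 * b ≤ 2 * ((x - S1) * (x - S2)) + b1 + b2)
    (hL : lam * (2 * x * S1 - 3 / 2 * S1 ^ 2 + b1) + lam⁻¹ * (2 * x * S2 - 3 / 2 * S2 ^ 2 + b2) ≤ LQ)
    (hX : XQ ≤ 2 * (x ^ 2 + b)) :
    0 < LQ - (φ + a * D * (1 - ρ) * φ ^ 2) * XQ - 4 * a * D * ρ * x ^ 2 * φ ^ 2 + 50 * x * κ := by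
  have ha4 : a < 1 / 4 := by linarith
  have hφ2 : φ < 1 / 2 := by linarith
  set δ := a * D * (1 - ρ) with hδ
  have hδ0 : 0 ≤ δ := by
    have : 0 ≤ 1 - ρ := by linarith
    positivity
  have haD : a * D ≤ a := by nlinarith
  have hδ1 : δ ≤ 1 / 4 := by
    have : a * D * (1 - ρ) ≤ a * D * 1 := by
      apply mul_le_mul_of_nonneg_left _ (by positivity); linarith
    rw [hδ]; linarith
  set m := φ + δ * φ ^ 2 with hm
  have hm0 : 0 < m := by positivity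
  have hm1 : φ ≤ m := by rw [hm]; nlinarith [mul_nonneg hδ0 (sq_nonneg φ)]
  have hm2 : m ≤ 9 / 8 * φ := by
    have : δ * φ ^ 2 ≤ 1 / 4 * φ ^ 2 := mul_le_mul_of_nonneg_right hδ1 (sq_nonneg _)
    rw [hm]
    nlinarith
  set G := φ * x - κ with hG
  have hpx : 0 < φ * x := by positivity
  have hG0 : 0 < G := by rw [hG]; linarith
  have hG8 : 8 / 9 * (φ * x) ≤ G := by rw [hG]; linarith
  have hG1 : G ≤ φ * x := by rw [hG]; linarith
  have hS1 : 0 < S1 := by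
    have : 0 < lam * S1 := by rw [h1]; exact hG0
    exact (mul_pos_iff_of_pos_left hl).1 this
  have hli : 0 < lam⁻¹ := inv_pos.2 hl
  have hS2 : 0 < S2 := by
    have : 0 < lam⁻¹ * S2 := by rw [h2]; exact hG0
    exact (mul_pos_iff_of_pos_left hli).1 this
  have hml : m ≤ lam := by
    have h5 : 3 * G ≤ lam * (2 * x) := by
      rw [← h1]
      nlinarith [mul_le_mul_of_nonneg_left h3 hl.le]
    have h6 : m * x ≤ lam * x := by
      have := mul_le_mul_of_nonneg_right hm2 hx.le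
      nlinarith
    exact le_of_mul_le_mul_right h6 hx
  have hml' : m ≤ lam⁻¹ := by
    have h5 : 3 * G ≤ lam⁻¹ * (2 * x) := by
      rw [← h2]
      nlinarith [mul_le_mul_of_nonneg_left h4 hli.le]
    have h6 : m * x ≤ lam⁻¹ * x := by
      have := mul_le_mul_of_nonneg_right hm2 hx.le
      nlinarith
    exact le_of_mul_le_mul_right h6 hx
  have hprod : S1 * S2 = G ^ 2 := by
    have : (lam * S1) * (lam⁻¹ * S2) = S1 * S2 := by
      field_simp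
    rw [← this, h1, h2]; ring
  have hs : 2 * G ≤ S1 + S2 := by
    have h6 : (2 * G) ^ 2 ≤ (S1 + S2) ^ 2 := by
      have : (S1 + S2) ^ 2 = (S1 - S2) ^ 2 + 4 * G ^ 2 := by rw [← hprod]; ring
      rw [this]
      nlinarith [sq_nonneg (S1 - S2)]
    exact (abs_le_of_sq_le_sq' h6 (by linarith)).2
  set s := S1 + S2 with hsd
  have e1 : lam * (2 * x * S1 - 3 / 2 * S1 ^ 2 + b1) + lam⁻¹ * (2 * x * S2 - 3 / 2 * S2 ^ 2 + b2) =
      G * (4 * x - 3 / 2 * s) + lam * b1 + lam⁻¹ * b2 := by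
    have k1 : lam * (2 * x * S1 - 3 / 2 * S1 ^ 2 + b1) = (lam * S1) * (2 * x - 3 / 2 * S1) + lam * b1 := by ring
    have k2 : lam⁻¹ * (2 * x * S2 - 3 / 2 * S2 ^ 2 + b2) = (lam⁻¹ * S2) * (2 * x - 3 / 2 * S2) + lam⁻¹ * b2 := by
      ring
    rw [k1, k2, h1, h2, hsd]; ring
  have e2 : (x - S1) * (x - S2) = x ^ 2 - x * s + G ^ 2 := by
    rw [← hprod, hsd]; ring
  have h7 : m * XQ ≤ 2 * m * x ^ 2 + m * (2 * (x ^ 2 - x * s + G ^ 2) + b1 + b2) := by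
    have : m * XQ ≤ m * (2 * (x ^ 2 + b)) := mul_le_mul_of_nonneg_left hX hm0.le
    rw [e2] at hb
    have h8 := mul_le_mul_of_nonneg_left hb hm0.le
    have h8' : m * (2 * (x ^ 2 + b)) = 2 * m * x ^ 2 + m * (2 * b) := by ring
    linarith
  have h9 : m * b1 ≤ lam * b1 := mul_le_mul_of_nonneg_right hml hb1
  have h10 : m * b2 ≤ lam⁻¹ * b2 := mul_le_mul_of_nonneg_right hml' hb2
  -- monotonicity in `s`
  have h11 : 0 ≤ (2 * m * x - 3 / 2 * G) * (s - 2 * G) := by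
    apply mul_nonneg
    · nlinarith [mul_le_mul_of_nonneg_right hm1 hx.le]
    · linarith
  have h12 : 0 < x ^ 2 * φ ^ 2 * (1 - 2 * φ - 4 * (a * D) + 2 * δ * (φ * (2 - φ))) := by
    have : 0 ≤ 2 * δ * (φ * (2 - φ)) := by
      have : 0 ≤ 2 - φ := by linarith
      positivity
    have h13 : 0 < 1 - 2 * φ - 4 * (a * D) + 2 * δ * (φ * (2 - φ)) := by linarith
    positivity
  have e3 : (φ * x) * (4 * x - 3 * (φ * x)) - 2 * m * x ^ 2
      - 2 * m * (x ^ 2 - x * (2 * (φ * x)) + (φ * x) ^ 2) - 4 * a * D * ρ * x ^ 2 * φ ^ 2 =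
      x ^ 2 * φ ^ 2 * (1 - 2 * φ - 4 * (a * D) + 2 * δ * (φ * (2 - φ))) := by
    rw [hm, hδ]; ring
  -- the effect of `κ`
  have e5 : (φ * x) * (4 * x - 3 * (φ * x)) - 2 * m * (x ^ 2 - x * (2 * (φ * x)) + (φ * x) ^ 2)
      - (G * (4 * x - 3 * G) - 2 * m * (x ^ 2 - x * (2 * G) + G ^ 2)) =
      κ * (4 * x + 4 * m * x - (3 + 2 * m) * (φ * x + G)) := by
    have : G = φ * x - κ := hG
    rw [this]; ring
  have h14 : κ * (4 * x + 4 * m * x - (3 + 2 * m) * (φ * x + G)) ≤ κ * (50 * x) := by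
    apply mul_le_mul_of_nonneg_left _ hκ
    have hm3 : m ≤ 1 := by linarith
    have h15 : 0 ≤ (3 + 2 * m) * (φ * x + G) := by positivity
    have h16 : m * x ≤ 1 * x := mul_le_mul_of_nonneg_right hm3 hx.le
    linarith
  rw [e1] at hL
  have e6 : G * (4 * x - 3 / 2 * s) + 2 * m * x * s =
    G * (4 * x - 3 * G) + 2 * m * x * (2 * G) + (2 * m * x - 3 / 2 * G) * (s - 2 * G) := by ring
  have e7 : 2 * m * x ^ 2 + m * (2 * (x ^ 2 - x * s + G ^ 2) + b1 + b2) =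
    2 * m * x ^ 2 + 2 * m * (x ^ 2 - x * (2 * G) + G ^ 2) + 2 * m * x * (2 * G) - 2 * m * x * s
      + m * b1 + m * b2 := by ring
  have e8 : κ * (50 * x) = 50 * x * κ := by ring
  linarith

end Run7.h967.GM
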