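import Mathlib
import Pool.Agent.Run7.h967.GM.Fam
import Pool.Agent.Run7.h967.LG.Zero
import Pool.Agent.Run7.h967.GM.MaxR
import Pool.Agent.Run7.h967.GM.OdeK
import Pool.Agent.Run7.h967.GM.Alg5

/-!
# The barrier is preserved on a noncompact manifold with an exhaustion function
-/

set_option autoImplicit false
set_option linter.all false
open scoped ContDiff Manifold Topology Matrix
open Set Filter

namespace Run7.h967.GM

open Pool.Agent.QTot Pool.Agent.H858R2 Pool.Agent.Helper696_RF Run7.h967.LG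

/-- a bound for the denominator -/
theorem Qf_le {q a E β S x0 t1 x t : ℝ} (ha : 0 < a) (hE : 0 < E) (hβ0 : 0 ≤ β) (hβ1 : β ≤ 1) (hS : 0 ≤ S)
    (hx0 : 0 < x0) (ht : t ∈ Icc 0 t1) (hx : x0 ≤ x) :
    Qf q a E β S (1 / x) (4 * t) ≤ q + a * Real.log (1 + E * (1 / x0 + 1 + 4 * t1 + S)) := by
  have hxp : 0 < x := lt_of_lt_of_le hx0 hx
  have hz : 0 < 1 / x := by positivity
  have hτ : 0 ≤ 4 * t := by have := ht.1; linarith
  have h1 : Gf β S (1 / x) (4 * t) ≤ 1 / x0 + 1 + 4 * t1 + S := by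
    unfold Gf
    have hw : 0 < 1 / x + 1 + 4 * t := by linarith
    have h3 : 1 / x ≤ 1 / x0 := one_div_le_one_div_of_le hx0 hx
    have h2 : (1 / x + 1 + 4 * t + S) ^ (1 - β) ≤ 1 / x + 1 + 4 * t + S := by
      calc (1 / x + 1 + 4 * t + S) ^ (1 - β) ≤ (1 / x + 1 + 4 * t + S) ^ (1 : ℝ) :=
            Real.rpow_le_rpow_of_exponent_le (by linarith) (by linarith)
        _ = _ := Real.rpow_one _
    have h5 : (1 / x + 1) * ((1 / x + 1 + 4 * t + S) ^ (1 - β) / (1 / x + 1 + 4 * t)) ≤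
        (1 / x + 1 + 4 * t + S) := by
      rw [← mul_div_assoc, div_le_iff₀ hw]
      have h6 := mul_le_mul_of_nonneg_left h2 (by positivity : 0 ≤ 1 / x + 1)
      have h7 : (1 / x + 1) * (1 / x + 1 + 4 * t + S) ≤ (1 / x + 1 + 4 * t) * (1 / x + 1 + 4 * t + S) := by
        apply mul_le_mul_of_nonneg_right _ (by linarith)
        linarith
      linarith
    have h8 := ht.2
    linarith
  have hG := Gf_pos (β := β) hS hz.le hτ
  have h4 : Real.log (1 + E * Gf β S (1 / x) (4 * t)) ≤ Real.log (1 + E * (1 / x0 + 1 + 4 * t1 + S)) := by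
    apply Real.log_le_log (by positivity)
    have := mul_le_mul_of_nonneg_left h1 hE.le
    linarith
  unfold Qf
  have := mul_le_mul_of_nonneg_left h4 ha.le
  linarith

section
variable {M : Type} [TopologicalSpace M] [ChartedSpace (En 4) M] [IsManifold (𝓡 4) ∞ M]

/-- `ψ ≥ 1` is smooth and proper, and along the flow on `[s, t]` the Laplacian of `ψ` and the scalar curvature are
bounded from above by `C`. -/
structure IsExhaustion (g : ℝ → Metric 4 M) (s t : ℝ) (ψ : M → ℝ) (C : ℝ) : Prop where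
  smooth : ∀ e ∈ atlas (En 4) M,
    ContDiffOn ℝ ∞ (fun y : Eu 4 => ψ (e.symm (WithLp.toLp 2 y))) (ctarget e)
  one_le : ∀ p, 1 ≤ ψ p
  proper : ∀ r : ℝ, ∃ K : Set M, IsCompact K ∧ ∀ p ∉ K, r < ψ p
  lap_le : ∀ τ ∈ Icc s t, ∀ e ∈ atlas (En 4) M, ∀ y ∈ ctarget e,
    Lap ((g τ).G e) (fun y => ψ (e.symm (WithLp.toLp 2 y))) y ≤ C
  scal_le : ∀ τ ∈ Icc s t, ∀ e ∈ atlas (En 4) M, ∀ y ∈ ctarget e, scalCurv (g τ) e y ≤ C

/-- one value of the perturbation -/
theorem preserveE {T : ℝ} {g : ℝ → Metric 4 M} (hg : IsRicciFlow T g) {t1 : ℝ} (ht01 : 0 ≤ t1)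
    (ht1 : t1 < T)
    (hop : ∀ t ∈ Icc 0 t1, NonnegOp (g t))
    (hsc : ∀ t ∈ Icc 0 t1, ∀ e ∈ atlas (En 4) M, ∀ y ∈ ctarget e, ∀ F : Mt 4,
      Fᵀ * (g t).G e y * F = 1 → 0 < sT (rot (Rc ((g t).G e) y) F))
    {ψ : M → ℝ} {C : ℝ} (hC : 0 ≤ C) (hψ : IsExhaustion g 0 t1 ψ C)
    {q a E β S : ℝ} (hS : 0 ≤ S) (ha : 0 < a) (ha4 : a < 1 / 4) (hq : q = 2 / (1 - 4 * a)) (hE : 0 < E) (hβ0 : 0 ≤ β)
    (hβ1 : β ≤ 1)
    (hinit : ∀ e ∈ atlas (En 4) M, ∀ y ∈ ctarget e, ∀ F : Mt 4, Fᵀ * (g 0).G e y * F = 1 →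
      ∀ P ∈ OrRev, Ff q a E β S (sT (rot (Rc ((g 0).G e) y) F)) 0 <
        Real.sqrt (sS (rot (Rc ((g 0).G e) y) F) * sS (rot (rot (Rc ((g 0).G e) y) F) P)))
    {ε : ℝ} (hε : 0 < ε) :
    ∀ t ∈ Icc 0 t1, ∀ e ∈ atlas (En 4) M, ∀ y ∈ ctarget e, ∀ F : Mt 4,
      Fᵀ * (g t).G e y * F = 1 → ∀ P ∈ OrRev, ∀ l ∈ Icc ε (1 / ε),
        Ff q a E β S (sT (rot (Rc ((g t).G e) y) F)) t <
        (l * sS (rot (Rc ((g t).G e) y) F) + l⁻¹ * sS (rot (rot (Rc ((g t).G e) y) F) P)) / 2 +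
          ε * Real.exp (20 * C * t) * ψ (e.symm (WithLp.toLp 2 y)) := by
  have hq2 : 2 ≤ q := by
    rw [hq, le_div_iff₀ (by linarith)]; linarith
  have hq0 : 0 < q := by linarith
  have hXi : ∀ (R : T4 4) (O : Mt 4), Oᵀ * O = 1 → Xf (rot R O) = Xf R := fun R O hO => by
    rw [Xf_apply, Xf_apply, sT, sT, scal4_rot R hO]
  have hXp : ∀ t ∈ Icc 0 t1, ∀ e ∈ atlas (En 4) M, ∀ y ∈ ctarget e, ∀ F : Mt 4,
      Fᵀ * (g t).G e y * F = 1 → 0 < Xf (rot (Rc ((g t).G e) y) F) := fun t ht e he y hy F hF => by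
    rw [Xf_apply]; exact hsc t ht e he y hy F hF
  have hxC : ∀ t ∈ Icc 0 t1, ∀ e ∈ atlas (En 4) M, ∀ y ∈ ctarget e, ∀ F : Mt 4,
      Fᵀ * (g t).G e y * F = 1 → 4 * sT (rot (Rc ((g t).G e) y) F) ≤ C := by
    intro t ht e he y hy F hF
    have h1 := hψ.scal_le t ht e he y hy
    rw [scalCurv_eq (g t) he hy hF] at h1
    exact h1
  obtain ⟨Kc, hKc, hψK⟩ := hψ.proper (C / ε)
  obtain ⟨x0, hx0, hlow⟩ := low_bound hg ht1 hKc Xf hXp
  set Λ : ℝ := 1 + 1 / ε + 2 * (q + a * Real.log (1 + E * (1 / x0 + 1 + 4 * t1 + S))) with hΛd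
  have hlog0 : 0 < Real.log (1 + E * (1 / x0 + 1 + 4 * t1 + S)) := Real.log_pos (by
    have : 0 < E * (1 / x0 + 1 + 4 * t1 + S) := by positivity
    linarith)
  have hε' : 0 < 1 / ε := by positivity
  have hΛ1 : 1 ≤ Λ := by rw [hΛd]; nlinarith [mul_pos ha hlog0]
  have hΛ0 : 0 < Λ := by linarith
  have hΛε : 1 / ε ≤ Λ := by rw [hΛd]; nlinarith [mul_pos ha hlog0]
  have hQΛ : ∀ t ∈ Icc 0 t1, ∀ x ≥ x0, 2 * Qf q a E β S (1 / x) (4 * t) < Λ := by
    intro t ht x hx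
    have := Qf_le (q := q) ha hE hβ0 hβ1 hS hx0 ht hx
    rw [hΛd]
    linarith
  have halg : ∀ t ∈ Icc 0 t1, ∀ e ∈ atlas (En 4) M, ∀ y ∈ ctarget e, ∀ F : Mt 4,
      IsAlg (rot (Rc ((g t).G e) y) F) := fun t ht e he y hy F => L.isAlg_rot (L.isAlg_Rc (g t) he hy) F
  have hL0 : ∀ t ∈ Icc 0 t1, ∀ e ∈ atlas (En 4) M, ∀ y ∈ ctarget e, ∀ F : Mt 4,
      Fᵀ * (g t).G e y * F = 1 → ∀ P ∈ OrRev, 0 ≤ sS (rot (Rc ((g t).G e) y) F) ∧
        0 ≤ sS (rot (rot (Rc ((g t).G e) y) F) P) ∧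
        sS (rot (Rc ((g t).G e) y) F) ≤ sT (rot (Rc ((g t).G e) y) F) ∧
        sS (rot (rot (Rc ((g t).G e) y) F) P) ≤ sT (rot (Rc ((g t).G e) y) F) := by
    intro t ht e he y hy F hF P hP
    have hA := halg t ht e he y hy F
    have hqf := qf_nonneg_rot (hop t ht) he hy F
    have hA2 := L.isAlg_rot hA (P : Mt 4)
    have hqf2 : ∀ φ : Mt 4, φᵀ = -φ → 0 ≤ qf (rot (rot (Rc ((g t).G e) y) F) P) φ := by
      rw [G_rot_mul]; exact qf_nonneg_rot (hop t ht) he hy (F * P)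
    refine ⟨iso_nonneg hA hqf, iso_nonneg hA2 hqf2, iso_le hA hqf, ?_⟩
    have h1 := iso_le hA2 hqf2
    have h2 : sT (rot (rot (Rc ((g t).G e) y) F) P) = sT (rot (Rc ((g t).G e) y) F) := by
      rw [sT, sT, scal4_rot _ hP.1]
    rwa [h2] at h1
  -- the maximum principle
  have hmax := maxr hg ht1 hKc (Θ := OrRev × Icc (1 / Λ) Λ) Lf (Lf_cont hΛ0) Xf hXi hXp
    (fun x t => Ff q a E β S x t)
    (fun x hx t ht => Ff_smooth hq0 ha hE hS hx ht.1) hψ.smooth (ε := ε) (C := 20 * C)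
    (by
      intro e he y hy F hF θ
      rw [Xf_apply, Lf_apply]
      have hl : 0 < ((θ.2 : ℝ)) := lt_of_lt_of_le (by positivity) θ.2.2.1
      have h0 : (0 : ℝ) ∈ Icc 0 t1 := ⟨le_rfl, ht01⟩
      obtain ⟨a1, a2, -, -⟩ := hL0 0 h0 e he y hy F hF θ.1 θ.1.2
      have h1 := lt_of_lt_of_le (hinit e he y hy F hF θ.1 θ.1.2) (amgm hl a1 a2)
      have h2 : 0 < ε * ψ (e.symm (WithLp.toLp 2 y)) := mul_pos hε (by linarith [hψ.one_le (e.symm (WithLp.toLp 2 y))])
      linarith)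
    (by
      intro t ht e he y hy hyK F hF θ
      rw [Xf_apply, Lf_apply]
      have hl : 0 < ((θ.2 : ℝ)) := lt_of_lt_of_le (by positivity) θ.2.2.1
      have hli : 0 < ((θ.2 : ℝ))⁻¹ := inv_pos.2 hl
      obtain ⟨a1, a2, -, -⟩ := hL0 t ht e he y hy F hF θ.1 θ.1.2
      have hxp := hsc t ht e he y hy F hF
      have hxc := hxC t ht e he y hy F hF
      have hτ : 0 ≤ 4 * t := by have := ht.1; linarith
      have hQ := Qf_gt (q := q) (a := a) (E := E) (β := β) ha hE hS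
        (by positivity : 0 ≤ 1 / sT (rot (Rc ((g t).G e) y) F)) hτ
      have h1 : Ff q a E β S (sT (rot (Rc ((g t).G e) y) F)) t ≤ C := by
        unfold Ff
        rw [div_le_iff₀ (by linarith)]
        nlinarith
      have h2 := hψK _ hyK
      rw [div_lt_iff₀ hε] at h2
      have h3 : 1 ≤ Real.exp (20 * C * t) := Real.one_le_exp (by have := ht.1; positivity)
      have hψp : 0 < ψ (e.symm (WithLp.toLp 2 y)) := by linarith [hψ.one_le (e.symm (WithLp.toLp 2 y))]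
      have h4 : ε * ψ (e.symm (WithLp.toLp 2 y)) ≤
          ε * Real.exp (20 * C * t) * ψ (e.symm (WithLp.toLp 2 y)) := by
        have : ε * 1 ≤ ε * Real.exp (20 * C * t) := mul_le_mul_of_nonneg_left h3 hε.le
        have := mul_le_mul_of_nonneg_right this hψp.le
        linarith
      have h5 : 0 ≤ ((θ.2 : ℝ) * sS (rot (Rc ((g t).G e) y) F) +
        ((θ.2 : ℝ))⁻¹ * sS (rot (rot (Rc ((g t).G e) y) F) θ.1)) / 2 := by positivity
      linarith)
    (by
      intro t ht e he y hy hyK hall E0 hE0 θ hz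
      have htI : t ∈ Icc 0 t1 := ⟨ht.1.le, ht.2⟩
      rw [Xf_apply, Lf_apply] at hz
      set κ := ε * Real.exp (20 * C * t) * ψ (e.symm (WithLp.toLp 2 y)) with hκ
      have hψ1 := hψ.one_le (e.symm (WithLp.toLp 2 y))
      have hεe : 0 < ε * Real.exp (20 * C * t) := by positivity
      have hκ0 : 0 < κ := by rw [hκ]; exact mul_pos hεe (by linarith)
      have hl : 0 < ((θ.2 : ℝ)) := lt_of_lt_of_le (by positivity) θ.2.2.1
      have hli : 0 < ((θ.2 : ℝ))⁻¹ := inv_pos.2 hl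
      have hA := halg t htI e he y hy E0
      have hqf := qf_nonneg_rot (hop t htI) he hy E0
      have hall' : ∀ O : Mt 4, Oᵀ * O = 1 → ∀ P ∈ OrRev, ∀ l ∈ Icc (1 / Λ) Λ,
          Ff q a E β S (sT (rot (Rc ((g t).G e) y) E0)) t ≤
          (l * sS (rot (rot (Rc ((g t).G e) y) E0) O) +
            l⁻¹ * sS (rot (rot (rot (Rc ((g t).G e) y) E0) O) P)) / 2 + κ := by
        intro O hO P hP l hlI
        have h1 := hall (E0 * O) (L.frame_mul hE0 hO) (⟨P, hP⟩, ⟨l, hlI⟩)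
        rw [Xf_apply, Lf_apply, ← G_rot_mul] at h1
        have h2 : sT (rot (rot (Rc ((g t).G e) y) E0) O) = sT (rot (Rc ((g t).G e) y) E0) := by
          rw [sT, sT, scal4_rot _ hO]
        rw [h2] at h1
        exact h1
      have hone : (1 : Mt 4)ᵀ * 1 = 1 := by simp
      obtain ⟨s1, s2, s3, s4⟩ := hL0 t htI e he y hy E0 hE0 θ.1 θ.1.2
      have hxlow := hlow t htI e he y hy hyK E0 hE0
      rw [Xf_apply] at hxlow
      have hxup := hxC t htI e he y hy E0 hE0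
      set R := rot (Rc ((g t).G e) y) E0 with hRd
      set x := sT R with hxd
      have hxp : 0 < x := hsc t htI e he y hy E0 hE0
      have hτ : 0 ≤ 4 * t := by have := ht.1; linarith
      have hzp : 0 < 1 / x := by positivity
      have hQ := Qf_gt (q := q) (a := a) (E := E) (β := β) ha hE hS hzp.le hτ
      have hQp := hq0.trans hQ
      set φ := 1 / Qf q a E β S (1 / x) (4 * t) with hφ
      have hFφ : Ff q a E β S x t = φ * x := by rw [Ff, hφ]; ring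
      have hφ0 : 0 < φ := by positivity
      have hφ1 : φ < (1 - 4 * a) / 2 := by
        have h1 : φ < 1 / q := one_div_lt_one_div_of_lt hq0 hQ
        have h2 : 1 / q = (1 - 4 * a) / 2 := by rw [hq]; rw [one_div_div]
        rwa [h2] at h1
      obtain ⟨D0, D1⟩ := Dc_bd (E := E) (β := β) hE hS hzp.le hτ
      obtain ⟨r0, r1⟩ := rc_bd (β := β) hβ0 hβ1 hS hzp.le hτ
      -- the minimality of the two frames
      have hm1 : ∀ O : Mt 4, Oᵀ * O = 1 → O.det = 1 → iso4 vid R ≤ iso4 vid (rot R O) := by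
        intro O hO hd
        have hO' : O * Oᵀ = 1 := mul_eq_one_comm.1 hO
        have hP' : Oᵀ * (θ.1 : Mt 4) ∈ OrRev := by
          refine ⟨?_, ?_⟩
          · rw [Matrix.transpose_mul, Matrix.transpose_transpose, Matrix.mul_assoc,
              ← Matrix.mul_assoc O, hO', Matrix.one_mul, θ.1.2.1]
          · rw [Matrix.det_mul, Matrix.det_transpose, hd, θ.1.2.2]; norm_num
        have h1 := hall' O hO _ hP' θ.2 θ.2.2
        rw [G_rot_mul R O, ← Matrix.mul_assoc, hO', Matrix.one_mul, ← hz] at h1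
        have h2 : (θ.2 : ℝ) * sS R ≤ (θ.2 : ℝ) * sS (rot R O) := by linarith
        have h3 := le_of_mul_le_mul_left h2 hl
        rw [sS, sS] at h3
        linarith
      have hm2 : ∀ O : Mt 4, Oᵀ * O = 1 → O.det = -1 → iso4 vid (rot R θ.1) ≤ iso4 vid (rot R O) := by
        intro O hO hd
        have h1 := hall' 1 hone O ⟨hO, hd⟩ θ.2 θ.2.2
        rw [G_rot_one, ← hz] at h1
        have h2 : (θ.2 : ℝ)⁻¹ * sS (rot R θ.1) ≤ (θ.2 : ℝ)⁻¹ * sS (rot R O) := by linarith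
        have h3 := le_of_mul_le_mul_left h2 hli
        rw [sS, sS] at h3
        linarith
      obtain ⟨c1, c2, c3, c4, β1, β2, c5, c6, c7, c8, c9⟩ := react2 hA hqf θ.1.2.1 θ.1.2.2 hm1 hm2
        (S1 := sS R) (S2 := sS (rot R θ.1)) (T := x) rfl rfl rfl
      have hxe : Xf R = x := Xf_apply R
      have d1 : 2 * x * sS R - 3 / 2 * sS R ^ 2 + β1 ≤ sS (QQ R) / 2 := by
        have : sS (QQ R) = iso4 vid (QQ R) / 2 := rfl
        rw [this]; linarith
      have d2 : 2 * x * sS (rot R θ.1) - 3 / 2 * sS (rot R θ.1) ^ 2 + β2 ≤ sS (rot (QQ R) θ.1) / 2 := by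
        have : sS (rot (QQ R) θ.1) = iso4 vid (rot (QQ R) θ.1) / 2 := rfl
        rw [this]; linarith
      -- the main inequality
      have hmain : 0 < Lf θ (QQ R) - (φ + a * Dc E β S (1 / x) (4 * t) * (1 - rc β S (1 / x) (4 * t)) * φ ^ 2)
          * Xf (QQ R) - 4 * a * Dc E β S (1 / x) (4 * t) * rc β S (1 / x) (4 * t) * x ^ 2 * φ ^ 2
          + 50 * x * κ := by
        rcases le_or_gt (φ * x) (9 * κ) with hcase | hcase
        · refine odeA ha hxp hφ0 hφ1 D0 D1 r0 r1 ?_ ?_ hcase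
          · rw [Lf_apply]
            have e1 : 0 ≤ 2 * x * sS R - 3 / 2 * sS R ^ 2 + β1 := by nlinarith
            have e2 : 0 ≤ 2 * x * sS (rot R θ.1) - 3 / 2 * sS (rot R θ.1) ^ 2 + β2 := by nlinarith
            have k1 : 0 ≤ (θ.2 : ℝ) * sS (QQ R) := mul_nonneg hl.le (by linarith)
            have k2 : 0 ≤ (θ.2 : ℝ)⁻¹ * sS (rot (QQ R) θ.1) := mul_nonneg hli.le (by linarith)
            linarith
          · rw [Xf_apply]
            exact QQ_le hA hqf
        · have hF2 : (φ * x - κ) ^ 2 ≤ sS R * sS (rot R θ.1) := by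
            refine geo hΛ1 hxp ?_ s1 s2 s3 s4 fun l hl => ?_
            · have h1 := hQΛ t htI x hxlow
              have h2 : φ * x - κ ≥ 8 / 9 * (φ * x) := by linarith
              have h3 : Λ * (8 / 9 * (φ * x)) ≤ Λ * (φ * x - κ) := mul_le_mul_of_nonneg_left h2 hΛ0.le
              have h4 : 2 * Qf q a E β S (1 / x) (4 * t) * (8 / 9 * (φ * x)) = 16 / 9 * x := by
                rw [hφ]; field_simp; ring
              have h5 : 2 * Qf q a E β S (1 / x) (4 * t) * (8 / 9 * (φ * x)) ≤ Λ * (8 / 9 * (φ * x)) :=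
                mul_le_mul_of_nonneg_right h1.le (by positivity)
              linarith
            · have h1 := hall' 1 hone θ.1 θ.1.2 l hl
              rw [G_rot_one, hFφ] at h1
              linarith
          have hz' : ((θ.2 : ℝ) * sS R + ((θ.2 : ℝ))⁻¹ * sS (rot R θ.1)) / 2 = φ * x - κ := by
            rw [hFφ] at hz; linarith
          obtain ⟨g1, g2⟩ := geo_eq hl hF2 hz'
          refine odeB (b1 := β1) (b2 := β2) (b := (x - sS R) * (x - sS (rot R θ.1)) + (β1 + β2) / 2)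
            ha hxp hφ0 hφ1 D0 D1 r0 r1 hl hκ0.le hcase g1 g2 c3 c4 c5 c6 (by linarith) ?_ ?_
          · rw [Lf_apply]
            have k1 := mul_le_mul_of_nonneg_left d1 hl.le
            have k2 := mul_le_mul_of_nonneg_left d2 hli.le
            linarith
          · rw [Xf_apply, sT]
            exact c9
      refine ⟨φ + a * Dc E β S (1 / x) (4 * t) * (1 - rc β S (1 / x) (4 * t)) * φ ^ 2,
        4 * a * Dc E β S (1 / x) (4 * t) * rc β S (1 / x) (4 * t) * x ^ 2 * φ ^ 2, ?_, ?_, ?_⟩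
      · intro x' hx'
        rw [hxe]
        exact Ff_tangent hq0 ha hE hβ0 hβ1 hS hx' hxp ht.1.le
      · rw [hxe]
        exact Ff_deriv hq0 ha hE hS hxp ht.1.le
      · have hlap := hψ.lap_le t htI e he y hy
        have h1 : ε * Real.exp (20 * C * t) * Lap ((g t).G e) (fun y => ψ (e.symm (WithLp.toLp 2 y))) y ≤
            ε * Real.exp (20 * C * t) * C := mul_le_mul_of_nonneg_left hlap hεe.le
        have h2 : ε * Real.exp (20 * C * t) * C ≤ C * κ := by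
          have h3 : ε * Real.exp (20 * C * t) * 1 ≤ κ := by
            rw [hκ]; exact mul_le_mul_of_nonneg_left hψ1 hεe.le
          have h4 := mul_le_mul_of_nonneg_left h3 hC
          linarith
        have h5 : 50 * x * κ ≤ 50 / 4 * C * κ := by
          apply mul_le_mul_of_nonneg_right _ hκ0.le
          linarith
        have h6 : 0 ≤ C * κ := by positivity
        linarith)
  intro t ht e he y hy F hF P hP l hl
  have hl1 : l ∈ Icc (1 / Λ) Λ := by
    refine ⟨?_, hl.2.trans hΛε⟩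
    refine le_trans ?_ hl.1
    rw [div_le_iff₀ hΛ0]
    have : ε * (1 / ε) ≤ ε * Λ := mul_le_mul_of_nonneg_left hΛε hε.le
    have h2 : ε * (1 / ε) = 1 := by field_simp
    linarith
  have h2 := hmax t ht e he y hy F hF (⟨P, hP⟩, ⟨l, hl1⟩)
  rw [Xf_apply, Lf_apply] at h2
  exact h2

/-- The barrier is preserved. -/
theorem preserve3 {T : ℝ} {g : ℝ → Metric 4 M} (hg : IsRicciFlow T g) {t1 : ℝ} (ht01 : 0 ≤ t1)
    (ht1 : t1 < T)
    (hop : ∀ t ∈ Icc 0 t1, NonnegOp (g t))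
    (hsc : ∀ t ∈ Icc 0 t1, ∀ e ∈ atlas (En 4) M, ∀ y ∈ ctarget e, ∀ F : Mt 4,
      Fᵀ * (g t).G e y * F = 1 → 0 < sT (rot (Rc ((g t).G e) y) F))
    {ψ : M → ℝ} {C : ℝ} (hψ : IsExhaustion g 0 t1 ψ C)
    {q a E β S : ℝ} (hS : 0 ≤ S) (ha : 0 < a) (ha4 : a < 1 / 4) (hq : q = 2 / (1 - 4 * a)) (hE : 0 < E) (hβ0 : 0 ≤ β)
    (hβ1 : β ≤ 1)
    (hinit : ∀ e ∈ atlas (En 4) M, ∀ y ∈ ctarget e, ∀ F : Mt 4, Fᵀ * (g 0).G e y * F = 1 →
      ∀ P ∈ OrRev, Ff q a E β S (sT (rot (Rc ((g 0).G e) y) F)) 0 <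
        Real.sqrt (sS (rot (Rc ((g 0).G e) y) F) * sS (rot (rot (Rc ((g 0).G e) y) F) P))) :
    ∀ t ∈ Icc 0 t1, ∀ e ∈ atlas (En 4) M, ∀ y ∈ ctarget e, ∀ F : Mt 4,
      Fᵀ * (g t).G e y * F = 1 → ∀ P ∈ OrRev, Ff q a E β S (sT (rot (Rc ((g t).G e) y) F)) t ≤
        Real.sqrt (sS (rot (Rc ((g t).G e) y) F) * sS (rot (rot (Rc ((g t).G e) y) F) P)) := by
  have hψ' : IsExhaustion g 0 t1 ψ (max C 0) :=
    ⟨hψ.smooth, hψ.one_le, hψ.proper,
      fun τ hτ e he y hy => (hψ.lap_le τ hτ e he y hy).trans (le_max_left _ _),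
      fun τ hτ e he y hy => (hψ.scal_le τ hτ e he y hy).trans (le_max_left _ _)⟩
  intro t ht e he y hy F hF P hP
  have hq0 : 0 < q := by rw [hq]; apply div_pos (by norm_num); linarith
  have hA := L.isAlg_rot (L.isAlg_Rc (g t) he hy) F
  have hqf := qf_nonneg_rot (hop t ht) he hy F
  have hA2 := L.isAlg_rot hA (P : Mt 4)
  have hqf2 : ∀ φ : Mt 4, φᵀ = -φ → 0 ≤ qf (rot (rot (Rc ((g t).G e) y) F) P) φ := by
    rw [G_rot_mul]; exact qf_nonneg_rot (hop t ht) he hy (F * P)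
  have hS2 : sS (rot (rot (Rc ((g t).G e) y) F) P) ≤ sT (rot (Rc ((g t).G e) y) F) := by
    have h1 := iso_le hA2 hqf2
    have h2 : sT (rot (rot (Rc ((g t).G e) y) F) P) = sT (rot (Rc ((g t).G e) y) F) := by
      rw [sT, sT, scal4_rot _ hP.1]
    rwa [h2] at h1
  -- all positive values of the parameter
  have hl : ∀ l : ℝ, 0 < l → Ff q a E β S (sT (rot (Rc ((g t).G e) y) F)) t ≤
      (l * sS (rot (Rc ((g t).G e) y) F) + l⁻¹ * sS (rot (rot (Rc ((g t).G e) y) F) P)) / 2 := by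
    intro l hl
    refine le_of_forall_pos_le_add fun δ hδ => ?_
    set W := Real.exp (20 * (max C 0) * t) * ψ (e.symm (WithLp.toLp 2 y)) with hW
    have hWp : 0 < W := by
      have := hψ.one_le (e.symm (WithLp.toLp 2 y))
      have h2 : 0 < ψ (e.symm (WithLp.toLp 2 y)) := by linarith
      rw [hW]; positivity
    set ε := min (min l (1 / l)) (δ / W) with hε
    have hε0 : 0 < ε := by
      rw [hε]
      exact lt_min (lt_min hl (by positivity)) (by positivity)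
    have h1 := preserveE hg ht01 ht1 hop hsc (le_max_right C 0) hψ' hS ha ha4 hq hE hβ0 hβ1 hinit hε0
      t ht e he y hy F hF P hP l ⟨(min_le_left _ _).trans (min_le_left _ _), by
        rw [le_div_iff₀ hε0]
        have h3 : ε ≤ 1 / l := (min_le_left _ _).trans (min_le_right _ _)
        rw [le_div_iff₀ hl] at h3
        linarith⟩
    have h2 : ε * Real.exp (20 * (max C 0) * t) * ψ (e.symm (WithLp.toLp 2 y)) ≤ δ := by
      have h3 : ε ≤ δ / W := min_le_right _ _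
      rw [le_div_iff₀ hWp] at h3
      rw [mul_assoc]
      exact h3
    linarith
  have hxp := hsc t ht e he y hy F hF
  have hτ : 0 ≤ 4 * t := by have := ht.1; linarith
  have hQ := hq0.trans (Qf_gt (q := q) (a := a) (E := E) (β := β) ha hE hS
    (by positivity : 0 ≤ 1 / sT (rot (Rc ((g t).G e) y) F)) hτ)
  set Q := Qf q a E β S (1 / sT (rot (Rc ((g t).G e) y) F)) (4 * t) with hQd
  have h1 := geo (Λ := 1 + Q) (by linarith) hxp (by
    unfold Ff
    rw [← hQd, ← mul_div_assoc, lt_div_iff₀ hQ]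
    nlinarith) (iso_nonneg hA hqf) (iso_nonneg hA2 hqf2) (iso_le hA hqf) hS2
    (fun l hlm => hl l (lt_of_lt_of_le (by positivity) hlm.1))
  exact Real.le_sqrt_of_sq_le h1

end

end Run7.h967.GM
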