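import Mathlib
import Pool.Agent.Run7.h967.LG.Defs

/-!
# Pinching of the geometric mean of the isotropic curvatures
-/

set_option autoImplicit false
open scoped ContDiff Manifold Topology Matrix
open Set Filter

namespace Run7.h967.GM

open Pool.Agent.QTot Pool.Agent.H858R2 Pool.Agent.Helper696_RF Run7.h967.LG

section
variable {M : Type} [TopologicalSpace M] [ChartedSpace (En 4) M]

/-- `v` and `w` are orthonormal four-frames with opposite orientations at the point with coordinates `y` in the
chart `e`. -/
def IsOppFrames (g : Metric 4 M) (e : OpenPartialHomeomorph M (En 4)) (y : Eu 4)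
    (v w : Fin 4 → Eu 4) : Prop :=
  IsFrame g e y v ∧ IsFrame g e y w ∧ (Matrix.of v).det * (Matrix.of w).det < 0

/-- The scalar curvature is at most `A` times the geometric mean of the isotropic curvatures of any two oppositely
oriented orthonormal four-frames, at the point with coordinates `y` in the chart `e`. -/
def MeanPinched (A : ℝ) (g : Metric 4 M) (e : OpenPartialHomeomorph M (En 4)) (y : Eu 4) : Prop :=
  ∀ v w : Fin 4 → Eu 4, IsOppFrames g e y v w →
    scalCurv g e y ≤ A * Real.sqrt (isoCurv g e y v * isoCurv g e y w)

end

end Run7.h967.GM
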