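import Mathlib
import Pool.Agent.Run7.h967.LG.Zero
import Pool.Agent.Run7.h967.GM.Defs
import Pool.Agent.Run7.h967.GM.Fam

/-!
# Ancient solutions whose isotropic curvature degenerates slowly
-/

set_option autoImplicit false
set_option linter.all false
open scoped ContDiff Manifold Topology Matrix
open Set Filter

namespace Run7.h967.GM

open Pool.Agent.QTot Pool.Agent.H858R2 Pool.Agent.Helper696_RF Run7.h967.LG

section
variable {M : Type} [TopologicalSpace M] [ChartedSpace (En 4) M] [IsManifold (𝓡 4) ∞ M]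

theorem mp_iff {A : ℝ} {g : Metric 4 M} {e : OpenPartialHomeomorph M (En 4)} (he : e ∈ atlas (En 4) M)
    {y : Eu 4} (hy : y ∈ ctarget e) : MeanPinched A g e y ↔ ∀ F : Mt 4, Fᵀ * g.G e y * F = 1 →
      ∀ P ∈ OrRev, 2 * sT (rot (Rc (g.G e) y) F) ≤
        A * Real.sqrt (sS (rot (Rc (g.G e) y) F) * sS (rot (rot (Rc (g.G e) y) F) P)) := by
  have hsq : ∀ S1 S2 : ℝ, Real.sqrt (2 * S1 * (2 * S2)) = 2 * Real.sqrt (S1 * S2) := by
    intro S1 S2
    have : 2 * S1 * (2 * S2) = 2 ^ 2 * (S1 * S2) := by ring
    rw [this, Real.sqrt_mul (by norm_num), Real.sqrt_sq (by norm_num)]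
  constructor
  · intro h F hF P hP
    have hFP := L.frame_mul hF hP.1
    have h1 := h (fun a i => F i a) (fun a i => (F * P) i a) ⟨frame_fmat hF, frame_fmat hFP, by
      have e1 : (Matrix.of fun a i => F i a) = Fᵀ := rfl
      have e2 : (Matrix.of fun a i => (F * P) i a) = (F * P)ᵀ := rfl
      rw [e1, e2, Matrix.det_transpose, Matrix.det_transpose, Matrix.det_mul, hP.2]
      have := det_frame hF
      have h2 : 0 < F.det * F.det := mul_self_pos.2 this
      linarith⟩
    have f1 : fmat (fun a i => F i a) = F := by ext i j; rfl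
    have f2 : fmat (fun a i => (F * P) i a) = F * P := by ext i j; rfl
    rw [isoCurv_eq, isoCurv_eq, f1, f2, scalCurv_eq g he hy hF, ← G_rot_mul, hsq] at h1
    linarith
  · rintro h v w ⟨hv, hw, hd⟩
    have hF := fmat_frame hv
    have hF2 := fmat_frame hw
    obtain ⟨O, hO, hFO⟩ := frame_ratio hF hF2
    have d1 : (Matrix.of v).det = (fmat v).det := by
      rw [← Matrix.det_transpose]; rfl
    have d2 : (Matrix.of w).det = (fmat w).det := by
      rw [← Matrix.det_transpose]; rfl
    rw [d1, d2, hFO, Matrix.det_mul] at hd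
    have hdO : O.det = -1 := by
      have h1 := congrArg Matrix.det hO
      rw [Matrix.det_mul, Matrix.det_transpose, Matrix.det_one] at h1
      have h2 : 0 < (fmat v).det * (fmat v).det := mul_self_pos.2 (det_frame hF)
      have h3 : O.det < 0 := by
        by_contra hcon
        push Not at hcon
        have : 0 ≤ (fmat v).det * (fmat v).det * O.det := mul_nonneg h2.le hcon
        linarith
      have h4 : (O.det + 1) * (O.det - 1) = 0 := by linarith
      rcases mul_eq_zero.1 h4 with h5 | h5
      · linarith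
      · linarith
    have h1 := h (fmat v) hF O ⟨hO, hdO⟩
    rw [isoCurv_eq, isoCurv_eq, scalCurv_eq g he hy hF, hsq, hFO, ← G_rot_mul]
    linarith

theorem lt_of_pinch {x G A Q : ℝ} (hx : 0 < x) (hG : 0 ≤ G) (h : x ≤ A * G) (hA : A < Q) (hQ : 0 < Q) :
    x / Q < G := by
  rw [div_lt_iff₀ hQ]
  have hG0 : 0 < G := by
    rcases hG.eq_or_lt with h0 | h0
    · rw [← h0] at h; linarith
    · exact h0
  nlinarith [mul_lt_mul_of_pos_right hA hG0]

/-- one step -/
theorem step {g : ℝ → Metric 4 M} (hg : IsAncientFlow g)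
    (hop : ∀ t ≤ 0, NonnegOp (g t))
    (hsc : ∀ t ≤ 0, ∀ e ∈ atlas (En 4) M, ∀ y ∈ ctarget e, 0 < scalCurv (g t) e y)
    {c K a : ℝ} (hc0 : 0 ≤ c) (hca : c < 2 * a) (ha4 : a < 1 / 4)
    (H1 : ∀ T : ℝ, ∃ s ≤ -T, ∀ e ∈ atlas (En 4) M, ∀ y ∈ ctarget e,
      MeanPinched (c * Real.log (1 + |s| + 1 / scalCurv (g s) e y) + K) (g s) e y)
    (H2 : ∀ s ≤ 0, ∀ ε > 0, ∃ Kc : Set M, IsCompact Kc ∧ ∀ t ∈ Ico s 0, ∀ e ∈ atlas (En 4) M,
      ∀ y ∈ ctarget e, e.symm (WithLp.toLp 2 y) ∉ Kc → MeanPinched 4 (g t) e y ∨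
        (scalCurv (g t) e y ≤ ε ∧
          MeanPinched (c * Real.log (1 + |t| + 1 / scalCurv (g t) e y) + K) (g t) e y)) :
    ∀ t < 0, ∀ e ∈ atlas (En 4) M, ∀ y ∈ ctarget e, MeanPinched (4 / (1 - 4 * a)) (g t) e y := by
  have ha : 0 < a := by linarith
  set q : ℝ := 2 / (1 - 4 * a) with hq
  have hq2 : 2 ≤ q := by
    rw [hq, le_div_iff₀ (by linarith)]; linarith
  have hq0 : 0 < q := by linarith
  set β : ℝ := (1 - c / (2 * a)) / 2 with hβ
  have hca' : c / (2 * a) < 1 := by rw [div_lt_one (by linarith)]; exact hca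
  have hca0 : 0 ≤ c / (2 * a) := by positivity
  have hβ0 : 0 < β := by rw [hβ]; linarith
  have hβ1 : β ≤ 1 := by rw [hβ]; linarith
  have hc1 : c / 2 ≤ a * (1 - β) := by
    have : a * (1 - β) = a / 2 + c / 4 := by rw [hβ]; field_simp; ring
    rw [this]; linarith
  set E : ℝ := Real.exp ((K / 2 + 2 * a * Real.log 2) / a) with hE
  have hE0 : 0 < E := Real.exp_pos _
  have hlog2 : 0 < Real.log 2 := Real.log_pos (by norm_num)
  have haE : a * Real.log E = K / 2 + 2 * a * Real.log 2 := by
    rw [hE, Real.log_exp]; field_simp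
  -- every early initial time gives a barrier
  have key : ∀ T : ℝ, 0 < T → ∃ σ : ℝ, T ≤ σ ∧ ∀ t, -σ ≤ t → t < 0 → ∀ e ∈ atlas (En 4) M, ∀ y ∈ ctarget e,
      ∀ F : Mt 4, Fᵀ * (g t).G e y * F = 1 → ∀ P ∈ OrRev,
        Ff q a E β σ (sT (rot (Rc ((g t).G e) y) F)) (t + σ) ≤
        Real.sqrt (sS (rot (Rc ((g t).G e) y) F) * sS (rot (rot (Rc ((g t).G e) y) F) P)) := by
    intro T hT
    obtain ⟨s, hs, hH⟩ := H1 T
    refine ⟨-s, by linarith, ?_⟩
    intro t hst ht0 e he y hy F hF P hP
    have hsn : s < 0 := by linarith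
    have hfl := shift hg s
    obtain ⟨Kc, hKc, hK⟩ := H2 s hsn.le (1 / (-s)) (by apply div_pos one_pos; linarith)
    have hsT : ∀ t ≤ 0, ∀ e ∈ atlas (En 4) M, ∀ y ∈ ctarget e, ∀ F : Mt 4, Fᵀ * (g t).G e y * F = 1 →
        0 < sT (rot (Rc ((g t).G e) y) F) := by
      intro t ht e he y hy F hF
      have h2 := hsc t ht e he y hy
      rw [scalCurv_eq (g t) he hy hF] at h2
      linarith
    have h1 := preserve2 (M := M) hfl (t1 := t - s) (by linarith) (by linarith) hKc
      (fun t' ht' => hop _ (by have := ht'.2; linarith))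
      (fun t' ht' e he y hy F hF => hsT _ (by have := ht'.2; linarith) e he y hy F hF)
      (S := -s) (by linarith) ha ha4 hq hE0 hβ0.le hβ1
      (by
        intro e he y hy F hF P hP
        simp only [add_zero] at hF ⊢
        have h2 := (mp_iff he hy).1 (hH e he y hy) F hF P hP
        have hx := hsT s hsn.le e he y hy F hF
        rw [scalCurv_eq (g s) he hy hF] at h2
        set x := sT (rot (Rc ((g s).G e) y) F) with hxd
        have hz : 0 < 1 / x := by positivity
        have h3 : x ≤ ((c / 2) * Real.log (1 + |s| + 1 / (4 * x)) + K / 2) *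
            Real.sqrt (sS (rot (Rc ((g s).G e) y) F) * sS (rot (rot (Rc ((g s).G e) y) F) P)) := by
          linarith
        have hQ := hq0.trans (Qf_gt (q := q) (a := a) (E := E) (β := β) (S := -s) (z := 1 / x) (τ := 4 * 0) ha hE0
          (by linarith) hz.le (by norm_num))
        unfold Ff
        refine lt_of_pinch hx (Real.sqrt_nonneg _) h3 ?_ hQ
        have e0 : (4 : ℝ) * 0 = 0 := by norm_num
        rw [e0]
        refine lt_of_le_of_lt ?_ (init (q := q) (E := E) (β := β) (S := -s) (z := 1 / x) (K := K / 2) hq0 ha hE0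
          hβ0.le hβ1 (by linarith) hz.le hc1 (by rw [haE]; nlinarith))
        have h4 : Real.log (1 + |s| + 1 / (4 * x)) ≤ Real.log (1 + 1 / x + -s) := by
          apply Real.log_le_log (by positivity)
          rw [abs_of_neg hsn]
          have : 1 / (4 * x) ≤ 1 / x := one_div_le_one_div_of_le hx (by linarith)
          linarith
        have h5 := mul_le_mul_of_nonneg_left h4 (by linarith : 0 ≤ c / 2)
        linarith)
      (by
        intro t' ht' e he y hy hyK F hF P hP
        have htn : s + t' < 0 := by have := ht'.2; linarith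
        have hx := hsT (s + t') htn.le e he y hy F hF
        have hM := hK (s + t') ⟨by have := ht'.1; linarith, htn⟩ e he y hy hyK
        set x := sT (rot (Rc ((g (s + t')).G e) y) F) with hxd
        have hz : 0 < 1 / x := by positivity
        have hτ : 0 ≤ 4 * t' := by have := ht'.1; linarith
        have hQq := Qf_gt (q := q) (a := a) (E := E) (β := β) (S := -s) (z := 1 / x) (τ := 4 * t') ha hE0
          (by linarith) hz.le hτ
        have hQ := hq0.trans hQq
        unfold Ff
        rcases hM with hM | ⟨hM1, hM2⟩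
        · have h2 := (mp_iff he hy).1 hM F hF P hP
          refine lt_of_pinch (A := 2) hx (Real.sqrt_nonneg _) (by linarith) (by linarith) hQ
        · have h2 := (mp_iff he hy).1 hM2 F hF P hP
          rw [scalCurv_eq (g (s + t')) he hy hF] at h2 hM1
          have h3 : x ≤ ((c / 2) * Real.log (1 + |s + t'| + 1 / (4 * x)) + K / 2) *
            Real.sqrt (sS (rot (Rc ((g (s + t')).G e) y) F) * sS (rot (rot (Rc ((g (s + t')).G e) y) F) P)) := by
            linarith
          refine lt_of_pinch hx (Real.sqrt_nonneg _) h3 ?_ hQ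
          -- `-s ≤ 1 / (4 x)`
          have hsx : -s ≤ 1 / (4 * x) := by
            rw [le_div_iff₀ (by positivity)]
            rw [le_div_iff₀ (by linarith)] at hM1
            linarith
          have h4x : 1 / (4 * x) = (1 / x) / 4 := by field_simp
          refine lt_of_le_of_lt ?_ (outb (q := q) (E := E) (β := β) (S := -s) (z := 1 / x) (τ := 4 * t')
            (K := K / 2) hq0 ha hE0 hβ0.le hβ1 (by linarith) hz.le hτ (by
              have := ht'.2
              rw [h4x] at hsx
              linarith) hc1 (by rw [haE]; nlinarith))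
          have h4 : Real.log (1 + |s + t'| + 1 / (4 * x)) ≤ Real.log (1 + 1 / x) := by
            apply Real.log_le_log (by positivity)
            rw [abs_of_neg htn, h4x]
            rw [h4x] at hsx
            have := ht'.1
            linarith
          have h5 := mul_le_mul_of_nonneg_left h4 (by linarith : 0 ≤ c / 2)
          linarith)
    have hst' : s + (t - s) = t := by ring
    have h2 := h1 (t - s) ⟨by linarith, le_rfl⟩ e he y hy F (by rw [hst']; exact hF) P hP
    rw [hst'] at h2
    rw [← sub_eq_add_neg]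
    exact h2
  intro t ht e he y hy
  rw [mp_iff he hy]
  intro F hF P hP
  set x := sT (rot (Rc ((g t).G e) y) F) with hx
  set G := Real.sqrt (sS (rot (Rc ((g t).G e) y) F) * sS (rot (rot (Rc ((g t).G e) y) F) P)) with hG
  have hxp : 0 < x := by
    have h2 := hsc t ht.le e he y hy
    rw [scalCurv_eq (g t) he hy hF] at h2
    linarith
  have hz : 0 < 1 / x := by positivity
  -- a sequence of initial times
  choose σ hσ1 hσ2 using fun n : ℕ => key ((n : ℝ) + 1) (by positivity)
  have hσ : Tendsto σ atTop atTop := by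
    refine tendsto_atTop_mono (fun n => (by linarith [hσ1 n] : (n : ℝ) ≤ σ n)) tendsto_natCast_atTop_atTop
  have hlim := (lim (q := q) (a := a) (E := E) (z := 1 / x) (t := t) hE0 hβ0 hβ1 hz.le).comp hσ
  have hlim2 := hlim.const_mul G
  have hle : x ≤ G * q := by
    refine ge_of_tendsto hlim2 ?_
    filter_upwards [hσ.eventually_ge_atTop (-t)] with n hn
    have h1 := hσ2 n t (by linarith) ht e he y hy F hF P hP
    have hσn : 0 < σ n := by
      have := hσ1 n
      have : (0 : ℝ) ≤ n := Nat.cast_nonneg n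
      linarith
    have hQ := hq0.trans (Qf_gt (q := q) (a := a) (E := E) (β := β) (S := σ n) (z := 1 / x)
      (τ := 4 * (t + σ n)) ha hE0 hσn.le hz.le (by linarith))
    unfold Ff at h1
    rw [div_le_iff₀ hQ] at h1
    exact h1
  have e1 : 4 / (1 - 4 * a) = 2 * q := by rw [hq]; ring
  rw [e1]
  linarith

end

end Run7.h967.GM
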