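import Mathlib
import Pool.Agent.Run7.h967.GM.Main

/-!
# The main theorem
-/

set_option autoImplicit false
set_option linter.all false
open scoped ContDiff Manifold Topology Matrix
open Set Filter

namespace Run7.h967.GM

open Pool.Agent.QTot Pool.Agent.H858R2 Pool.Agent.Helper696_RF Run7.h967.LG

section
variable {M : Type} [TopologicalSpace M] [ChartedSpace (En 4) M]

theorem MeanPinched.mono {A A' : ℝ} {g : Metric 4 M} {e : OpenPartialHomeomorph M (En 4)} {y : Eu 4}
    (h : MeanPinched A g e y) (hA : A ≤ A') : MeanPinched A' g e y := by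
  intro v w hvw
  exact (h v w hvw).trans (mul_le_mul_of_nonneg_right hA (Real.sqrt_nonneg _))

end

/-- three frames of the other orientation -/
theorem three {R : T4 4} (hR : IsAlg R)
    (h : ∀ P ∈ OrRev, 2 * sT R ≤ 4 * Real.sqrt (sS R * sS (rot R P)))
    (hop : ∀ φ : Mt 4, φᵀ = -φ → 0 ≤ qf R φ) (hx : 0 < sT R) : 3 * sT R ≤ 8 * sS R := by
  have hS := iso_nonneg hR hop
  have key : ∀ x y z s : ℝ, x ^ 2 + y ^ 2 + z ^ 2 = 1 → s * (1 - x) = 1 →
      (sT R) ^ 2 ≤ 4 * (sS R * (sT R - (x ^ 2 * C11 R + y ^ 2 * C22 R + z ^ 2 * C33 R + 2 * x * y * C12 R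
        + 2 * x * z * C13 R + 2 * y * z * C23 R))) := by
    intro x y z s h1 h2
    have h3 := h (OO 1 x y z s) ⟨OO_orth (by norm_num) h1 h2, OO_det h1 h2⟩
    have h4 : sS (rot R (OO 1 x y z s)) = sT R - (x ^ 2 * C11 R + y ^ 2 * C22 R + z ^ 2 * C33 R
        + 2 * x * y * C12 R + 2 * x * z * C13 R + 2 * y * z * C23 R) := by
      rw [sS, iso_rot hR (OO_orth (by norm_num) h1 h2), OO_WC h1 h2, qf_WC hR, sT]
      ring
    rw [h4] at h3
    set m := sS R * (sT R - (x ^ 2 * C11 R + y ^ 2 * C22 R + z ^ 2 * C33 R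
        + 2 * x * y * C12 R + 2 * x * z * C13 R + 2 * y * z * C23 R)) with hm
    have hm0 : 0 ≤ m := by
      by_contra hcon
      push Not at hcon
      rw [Real.sqrt_eq_zero_of_nonpos hcon.le] at h3
      linarith
    have h5 := Real.sq_sqrt hm0
    have h6 := Real.sqrt_nonneg m
    nlinarith
  have k1 := key (-1) 0 0 (1 / 2) (by norm_num) (by norm_num)
  have k2 := key 0 1 0 1 (by norm_num) (by norm_num)
  have k3 := key 0 0 1 1 (by norm_num) (by norm_num)
  have hC : sT R = C11 R + C22 R + C33 R := by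
    rw [sT, scal_blockC hR]; ring
  have h7 : 3 * (sT R) ^ 2 ≤ 8 * sS R * sT R := by
    nlinarith
  have h8 : (3 * sT R) * sT R ≤ (8 * sS R) * sT R := by linarith
  exact le_of_mul_le_mul_right h8 hx

section
variable {M : Type} [TopologicalSpace M] [ChartedSpace (En 4) M] [IsManifold (𝓡 4) ∞ M]

/-- The main theorem. -/
theorem main2 {g : ℝ → Metric 4 M} (hg : IsAncientFlow g)
    (hop : ∀ t ≤ 0, NonnegOp (g t))
    (hsc : ∀ t ≤ 0, ∀ e ∈ atlas (En 4) M, ∀ y ∈ ctarget e, 0 < scalCurv (g t) e y)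
    {c K : ℝ} (hc : c < 1 / 2)
    (H1 : ∀ T : ℝ, ∃ s ≤ -T, ∀ e ∈ atlas (En 4) M, ∀ y ∈ ctarget e,
      MeanPinched (c * Real.log (1 + |s| + 1 / scalCurv (g s) e y) + K) (g s) e y)
    (H2 : ∀ s ≤ 0, ∀ ε > 0, ∃ Kc : Set M, IsCompact Kc ∧ ∀ t ∈ Icc s 0, ∀ e ∈ atlas (En 4) M,
      ∀ y ∈ ctarget e, e.symm (WithLp.toLp 2 y) ∉ Kc → MeanPinched 4 (g t) e y ∨
        (scalCurv (g t) e y ≤ ε ∧
          MeanPinched (c * Real.log (1 + |t| + 1 / scalCurv (g t) e y) + K) (g t) e y)) :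
    ∀ t ≤ 0, ∀ e ∈ atlas (En 4) M, ∀ y ∈ ctarget e, MeanPinched 4 (g t) e y ∧
      ∀ v : Fin 4 → Eu 4, IsFrame (g t) e y v → 3 * scalCurv (g t) e y ≤ 16 * isoCurv (g t) e y v := by
  have hlogn : ∀ t ≤ 0, ∀ e ∈ atlas (En 4) M, ∀ y ∈ ctarget e,
      0 ≤ Real.log (1 + |t| + 1 / scalCurv (g t) e y) := by
    intro t ht e he y hy
    have h1 := hsc t ht e he y hy
    have h2 : 0 < 1 / scalCurv (g t) e y := by positivity
    apply Real.log_nonneg
    have := abs_nonneg t
    linarith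
  have hmono : ∀ t ≤ 0, ∀ e ∈ atlas (En 4) M, ∀ y ∈ ctarget e,
      MeanPinched (c * Real.log (1 + |t| + 1 / scalCurv (g t) e y) + K) (g t) e y →
      MeanPinched (max c 0 * Real.log (1 + |t| + 1 / scalCurv (g t) e y) + K) (g t) e y := by
    intro t ht e he y hy h
    refine h.mono ?_
    have := mul_le_mul_of_nonneg_right (le_max_left c 0) (hlogn t ht e he y hy)
    linarith
  set c' := max c 0 with hc'
  have hc'0 : 0 ≤ c' := le_max_right _ _
  have hc'1 : c' < 1 / 2 := max_lt hc (by norm_num)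
  -- first step
  set a1 : ℝ := (c' / 2 + 1 / 4) / 2 with ha1
  have U1 := step hg hop hsc (K := K) (a := a1) hc'0 (by linarith) (by linarith)
    (fun T => by
      obtain ⟨s, hs, h⟩ := H1 (max T 0)
      have hs0 : s ≤ 0 := by linarith [le_max_right T 0]
      exact ⟨s, by linarith [le_max_left T 0], fun e he y hy => hmono s hs0 e he y hy (h e he y hy)⟩)
    (fun s hs ε hε => by
      obtain ⟨Kc, hKc, h⟩ := H2 s hs ε hε
      refine ⟨Kc, hKc, fun t ht e he y hy hyK => ?_⟩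
      rcases h t ⟨ht.1, ht.2.le⟩ e he y hy hyK with h1 | ⟨h1, h2⟩
      · exact Or.inl h1
      · exact Or.inr ⟨h1, hmono t ht.2.le e he y hy h2⟩)
  set K0 : ℝ := 4 / (1 - 4 * a1) with hK0
  -- second step
  have U2 : ∀ a : ℝ, 0 < a → a < 1 / 4 → ∀ t < 0, ∀ e ∈ atlas (En 4) M, ∀ y ∈ ctarget e,
      MeanPinched (4 / (1 - 4 * a)) (g t) e y := by
    intro a ha ha4
    refine step hg hop hsc (c := 0) (K := K0) (a := a) le_rfl (by linarith) ha4 (fun T => ?_)
      (fun s hs ε hε => ?_)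
    · refine ⟨-(max T 1), by linarith [le_max_left T 1], fun e he y hy => ?_⟩
      have h1 := U1 (-(max T 1)) (by linarith [le_max_right T 1]) e he y hy
      rw [zero_mul, zero_add]
      exact h1
    · obtain ⟨Kc, hKc, h⟩ := H2 s hs ε hε
      refine ⟨Kc, hKc, fun t ht e he y hy hyK => ?_⟩
      rcases h t ⟨ht.1, ht.2.le⟩ e he y hy hyK with h1 | ⟨h1, h2⟩
      · exact Or.inl h1
      · refine Or.inr ⟨h1, ?_⟩
        rw [zero_mul, zero_add]
        exact U1 t ht.2 e he y hy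
  -- before time zero
  have U3 : ∀ t < 0, ∀ e ∈ atlas (En 4) M, ∀ y ∈ ctarget e, ∀ F : Mt 4, Fᵀ * (g t).G e y * F = 1 →
      rot (Rc ((g t).G e) y) F ∈ {R : T4 4 | ∀ P ∈ OrRev, 2 * sT R ≤ 4 * Real.sqrt (sS R * sS (rot R P))} := by
    intro t ht e he y hy F hF P hP
    have hlim : Tendsto (fun a : ℝ => 4 / (1 - 4 * a) *
        Real.sqrt (sS (rot (Rc ((g t).G e) y) F) * sS (rot (rot (Rc ((g t).G e) y) F) P)))
        (𝓝[>] 0) (𝓝 (4 / (1 - 4 * 0) *
        Real.sqrt (sS (rot (Rc ((g t).G e) y) F) * sS (rot (rot (Rc ((g t).G e) y) F) P)))) := by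
      have hc : ContinuousAt (fun a : ℝ => 4 / (1 - 4 * a) *
        Real.sqrt (sS (rot (Rc ((g t).G e) y) F) * sS (rot (rot (Rc ((g t).G e) y) F) P))) 0 := by
        apply ContinuousAt.mul _ continuousAt_const
        apply ContinuousAt.div continuousAt_const (by fun_prop) (by norm_num)
      exact hc.tendsto.mono_left nhdsWithin_le_nhds
    have h4 : (4 : ℝ) / (1 - 4 * 0) = 4 := by norm_num
    rw [h4] at hlim
    refine ge_of_tendsto hlim ?_
    have hev : ∀ᶠ a : ℝ in 𝓝[>] 0, a ∈ Ioo (0 : ℝ) (1 / 4) := Ioo_mem_nhdsGT (by norm_num)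
    filter_upwards [hev] with a ha
    exact (mp_iff he hy).1 (U2 a ha.1 ha.2 t ht e he y hy) F hF P hP
  have hcl : IsClosed {R : T4 4 | ∀ P ∈ OrRev, 2 * sT R ≤ 4 * Real.sqrt (sS R * sS (rot R P))} := by
    have e : {R : T4 4 | ∀ P ∈ OrRev, 2 * sT R ≤ 4 * Real.sqrt (sS R * sS (rot R P))} =
        ⋂ P ∈ OrRev, {R : T4 4 | 2 * sT R ≤ 4 * Real.sqrt (sS R * sS (rot R P))} := by
      ext R; simp
    rw [e]
    refine isClosed_biInter fun P hP => ?_
    have h1 : Continuous (fun R : T4 4 => sT R) := by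
      unfold sT
      have : Continuous (fun R : T4 4 => scal4 R) := LinearMap.continuous_of_finiteDimensional _
      exact this.div_const 4
    have h2 : Continuous (fun R : T4 4 => sS R) := by
      unfold sS
      have : Continuous (fun R : T4 4 => iso4 vid R) := LinearMap.continuous_of_finiteDimensional _
      exact this.div_const 2
    have h3 : Continuous (fun R : T4 4 => sS (rot R P)) := by
      have h4 : Continuous (fun R : T4 4 => (iso4 vid ∘ₗ rotL P) R) :=
        LinearMap.continuous_of_finiteDimensional _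
      have h5 : (fun R : T4 4 => sS (rot R P)) = fun R => (iso4 vid ∘ₗ rotL P) R / 2 := by
        funext R; rfl
      rw [h5]
      exact h4.div_const 2
    exact isClosed_le (continuous_const.mul h1) (continuous_const.mul (Real.continuous_sqrt.comp (h2.mul h3)))
  have hall := closed_zero hg hcl U3
  intro t ht e he y hy
  have hA : ∀ F : Mt 4, Fᵀ * (g t).G e y * F = 1 → ∀ P ∈ OrRev,
      2 * sT (rot (Rc ((g t).G e) y) F) ≤
        4 * Real.sqrt (sS (rot (Rc ((g t).G e) y) F) * sS (rot (rot (Rc ((g t).G e) y) F) P)) :=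
    fun F hF => hall t ht e he y hy F hF
  refine ⟨(mp_iff he hy).2 hA, fun v hv => ?_⟩
  have hF := fmat_frame hv
  have hx : 0 < sT (rot (Rc ((g t).G e) y) (fmat v)) := by
    have h2 := hsc t ht e he y hy
    rw [scalCurv_eq (g t) he hy hF] at h2
    linarith
  have h3 := three (L.isAlg_rot (L.isAlg_Rc (g t) he hy) (fmat v)) (hA _ hF)
    (qf_nonneg_rot (hop t ht) he hy (fmat v)) hx
  rw [isoCurv_eq, scalCurv_eq (g t) he hy hF]
  linarith

end

end Run7.h967.GM
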