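import Mathlib
import Pool.Agent.Run7.h967.GM.Final
import Pool.Agent.Run7.h967.GM.Fam2

/-!
# The main theorem on closed and on complete noncompact manifolds
-/

set_option autoImplicit false
set_option linter.all false
open scoped ContDiff Manifold Topology Matrix
open Set Filter

namespace Run7.h967.GM

open Pool.Agent.QTot Pool.Agent.H858R2 Pool.Agent.Helper696_RF Run7.h967.LG

section
variable {M : Type} [TopologicalSpace M] [ChartedSpace (En 4) M] [IsManifold (𝓡 4) ∞ M]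

/-- one step -/
theorem step3 {g : ℝ → Metric 4 M} (hg : IsAncientFlow g)
    (hop : ∀ t ≤ 0, NonnegOp (g t))
    (hsc : ∀ t ≤ 0, ∀ e ∈ atlas (En 4) M, ∀ y ∈ ctarget e, 0 < scalCurv (g t) e y)
    {c K a : ℝ} (hc0 : 0 ≤ c) (hca : c < 2 * a) (ha4 : a < 1 / 4)
    (H1 : ∀ T : ℝ, ∃ s ≤ -T, ∀ e ∈ atlas (En 4) M, ∀ y ∈ ctarget e,
      MeanPinched (c * Real.log (1 + |s| + 1 / scalCurv (g s) e y) + K) (g s) e y)
    (H2 : ∀ s ≤ 0, ∃ (ψ : M → ℝ) (C : ℝ), IsExhaustion g s 0 ψ C) :
    ∀ t < 0, ∀ e ∈ atlas (En 4) M, ∀ y ∈ ctarget e, MeanPinched (4 / (1 - 4 * a)) (g t) e y := by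
  have ha : 0 < a := by linarith
  set q : ℝ := 2 / (1 - 4 * a) with hq
  have hq2 : 2 ≤ q := by
    rw [hq, le_div_iff₀ (by linarith)]; linarith
  have hq0 : 0 < q := by linarith
  set β : ℝ := (1 - c / (2 * a)) / 2 with hβ
  have hca' : c / (2 * a) < 1 := by rw [div_lt_one (by linarith)]; exact hca
  have hca0 : 0 ≤ c / (2 * a) := by positivity
  have hβ0 : 0 < β := by rw [hβ]; linarith
  have hβ1 : β ≤ 1 := by rw [hβ]; linarith
  have hc1 : c / 2 ≤ a * (1 - β) := by
    have : a * (1 - β) = a / 2 + c / 4 := by rw [hβ]; field_simp; ring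
    rw [this]; linarith
  set E : ℝ := Real.exp ((K / 2 + 2 * a * Real.log 2) / a) with hE
  have hE0 : 0 < E := Real.exp_pos _
  have hlog2 : 0 < Real.log 2 := Real.log_pos (by norm_num)
  have haE : a * Real.log E = K / 2 + 2 * a * Real.log 2 := by
    rw [hE, Real.log_exp]; field_simp
  -- every early initial time gives a barrier
  have key : ∀ T : ℝ, 0 < T → ∃ σ : ℝ, T ≤ σ ∧ ∀ t, -σ ≤ t → t < 0 → ∀ e ∈ atlas (En 4) M, ∀ y ∈ ctarget e,
      ∀ F : Mt 4, Fᵀ * (g t).G e y * F = 1 → ∀ P ∈ OrRev,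
        Ff q a E β σ (sT (rot (Rc ((g t).G e) y) F)) (t + σ) ≤
        Real.sqrt (sS (rot (Rc ((g t).G e) y) F) * sS (rot (rot (Rc ((g t).G e) y) F) P)) := by
    intro T hT
    obtain ⟨s, hs, hH⟩ := H1 T
    refine ⟨-s, by linarith, ?_⟩
    intro t hst ht0 e he y hy F hF P hP
    have hsn : s < 0 := by linarith
    have hfl := shift hg s
    obtain ⟨ψ, C, hψ⟩ := H2 s hsn.le
    have hψ' : IsExhaustion (fun τ => g (s + τ)) 0 (t - s) ψ C :=
      ⟨hψ.smooth, hψ.one_le, hψ.proper,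
        fun τ hτ e he y hy => hψ.lap_le (s + τ) ⟨by linarith [hτ.1], by linarith [hτ.2]⟩ e he y hy,
        fun τ hτ e he y hy => hψ.scal_le (s + τ) ⟨by linarith [hτ.1], by linarith [hτ.2]⟩ e he y hy⟩
    have hsT : ∀ t ≤ 0, ∀ e ∈ atlas (En 4) M, ∀ y ∈ ctarget e, ∀ F : Mt 4, Fᵀ * (g t).G e y * F = 1 →
        0 < sT (rot (Rc ((g t).G e) y) F) := by
      intro t ht e he y hy F hF
      have h2 := hsc t ht e he y hy
      rw [scalCurv_eq (g t) he hy hF] at h2
      linarith
    have h1 := preserve3 (M := M) hfl (t1 := t - s) (by linarith) (by linarith)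
      (fun t' ht' => hop _ (by have := ht'.2; linarith))
      (fun t' ht' e he y hy F hF => hsT _ (by have := ht'.2; linarith) e he y hy F hF) hψ'
      (S := -s) (by linarith) ha ha4 hq hE0 hβ0.le hβ1
      (by
        intro e he y hy F hF P hP
        simp only [add_zero] at hF ⊢
        have h2 := (mp_iff he hy).1 (hH e he y hy) F hF P hP
        have hx := hsT s hsn.le e he y hy F hF
        rw [scalCurv_eq (g s) he hy hF] at h2
        set x := sT (rot (Rc ((g s).G e) y) F) with hxd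
        have hz : 0 < 1 / x := by positivity
        have h3 : x ≤ ((c / 2) * Real.log (1 + |s| + 1 / (4 * x)) + K / 2) *
            Real.sqrt (sS (rot (Rc ((g s).G e) y) F) * sS (rot (rot (Rc ((g s).G e) y) F) P)) := by
          linarith
        have hQ := hq0.trans (Qf_gt (q := q) (a := a) (E := E) (β := β) (S := -s) (z := 1 / x) (τ := 4 * 0) ha hE0
          (by linarith) hz.le (by norm_num))
        unfold Ff
        refine lt_of_pinch hx (Real.sqrt_nonneg _) h3 ?_ hQ
        have e0 : (4 : ℝ) * 0 = 0 := by norm_num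
        rw [e0]
        refine lt_of_le_of_lt ?_ (init (q := q) (E := E) (β := β) (S := -s) (z := 1 / x) (K := K / 2) hq0 ha hE0
          hβ0.le hβ1 (by linarith) hz.le hc1 (by rw [haE]; nlinarith))
        have h4 : Real.log (1 + |s| + 1 / (4 * x)) ≤ Real.log (1 + 1 / x + -s) := by
          apply Real.log_le_log (by positivity)
          rw [abs_of_neg hsn]
          have : 1 / (4 * x) ≤ 1 / x := one_div_le_one_div_of_le hx (by linarith)
          linarith
        have h5 := mul_le_mul_of_nonneg_left h4 (by linarith : 0 ≤ c / 2)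
        linarith)
    have hst' : s + (t - s) = t := by ring
    have h2 := h1 (t - s) ⟨by linarith, le_rfl⟩ e he y hy F (by rw [hst']; exact hF) P hP
    rw [hst'] at h2
    rw [← sub_eq_add_neg]
    exact h2
  intro t ht e he y hy
  rw [mp_iff he hy]
  intro F hF P hP
  set x := sT (rot (Rc ((g t).G e) y) F) with hx
  set G := Real.sqrt (sS (rot (Rc ((g t).G e) y) F) * sS (rot (rot (Rc ((g t).G e) y) F) P)) with hG
  have hxp : 0 < x := by
    have h2 := hsc t ht.le e he y hy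
    rw [scalCurv_eq (g t) he hy hF] at h2
    linarith
  have hz : 0 < 1 / x := by positivity
  -- a sequence of initial times
  choose σ hσ1 hσ2 using fun n : ℕ => key ((n : ℝ) + 1) (by positivity)
  have hσ : Tendsto σ atTop atTop := by
    refine tendsto_atTop_mono (fun n => (by linarith [hσ1 n] : (n : ℝ) ≤ σ n)) tendsto_natCast_atTop_atTop
  have hlim := (lim (q := q) (a := a) (E := E) (z := 1 / x) (t := t) hE0 hβ0 hβ1 hz.le).comp hσ
  have hlim2 := hlim.const_mul G
  have hle : x ≤ G * q := by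
    refine ge_of_tendsto hlim2 ?_
    filter_upwards [hσ.eventually_ge_atTop (-t)] with n hn
    have h1 := hσ2 n t (by linarith) ht e he y hy F hF P hP
    have hσn : 0 < σ n := by
      have := hσ1 n
      have : (0 : ℝ) ≤ n := Nat.cast_nonneg n
      linarith
    have hQ := hq0.trans (Qf_gt (q := q) (a := a) (E := E) (β := β) (S := σ n) (z := 1 / x)
      (τ := 4 * (t + σ n)) ha hE0 hσn.le hz.le (by linarith))
    unfold Ff at h1
    rw [div_le_iff₀ hQ] at h1
    exact h1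
  have e1 : 4 / (1 - 4 * a) = 2 * q := by rw [hq]; ring
  rw [e1]
  linarith


/-- The core of the argument. -/
theorem core {g : ℝ → Metric 4 M} (hg : IsAncientFlow g)
    (hop : ∀ t ≤ 0, NonnegOp (g t))
    (hsc : ∀ t ≤ 0, ∀ e ∈ atlas (En 4) M, ∀ y ∈ ctarget e, 0 < scalCurv (g t) e y)
    (hstep : ∀ c K a : ℝ, 0 ≤ c → c < 2 * a → a < 1 / 4 →
      (∀ T : ℝ, ∃ s ≤ -T, ∀ e ∈ atlas (En 4) M, ∀ y ∈ ctarget e,
        MeanPinched (c * Real.log (1 + |s| + 1 / scalCurv (g s) e y) + K) (g s) e y) →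
      ∀ t < 0, ∀ e ∈ atlas (En 4) M, ∀ y ∈ ctarget e, MeanPinched (4 / (1 - 4 * a)) (g t) e y)
    {c K : ℝ} (hc : c < 1 / 2)
    (H1 : ∀ T : ℝ, ∃ s ≤ -T, ∀ e ∈ atlas (En 4) M, ∀ y ∈ ctarget e,
      MeanPinched (c * Real.log (1 + |s| + 1 / scalCurv (g s) e y) + K) (g s) e y) :
    ∀ t ≤ 0, ∀ e ∈ atlas (En 4) M, ∀ y ∈ ctarget e, MeanPinched 4 (g t) e y ∧
      ∀ v : Fin 4 → Eu 4, IsFrame (g t) e y v → 3 * scalCurv (g t) e y ≤ 16 * isoCurv (g t) e y v := by
  have hlogn : ∀ t ≤ 0, ∀ e ∈ atlas (En 4) M, ∀ y ∈ ctarget e,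
      0 ≤ Real.log (1 + |t| + 1 / scalCurv (g t) e y) := by
    intro t ht e he y hy
    have h1 := hsc t ht e he y hy
    have h2 : 0 < 1 / scalCurv (g t) e y := by positivity
    apply Real.log_nonneg
    have := abs_nonneg t
    linarith
  have hmono : ∀ t ≤ 0, ∀ e ∈ atlas (En 4) M, ∀ y ∈ ctarget e,
      MeanPinched (c * Real.log (1 + |t| + 1 / scalCurv (g t) e y) + K) (g t) e y →
      MeanPinched (max c 0 * Real.log (1 + |t| + 1 / scalCurv (g t) e y) + K) (g t) e y := by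
    intro t ht e he y hy h
    refine h.mono ?_
    have := mul_le_mul_of_nonneg_right (le_max_left c 0) (hlogn t ht e he y hy)
    linarith
  set c' := max c 0 with hc'
  have hc'0 : 0 ≤ c' := le_max_right _ _
  have hc'1 : c' < 1 / 2 := max_lt hc (by norm_num)
  -- first step
  set a1 : ℝ := (c' / 2 + 1 / 4) / 2 with ha1
  have U1 := hstep c' K a1 hc'0 (by linarith) (by linarith)
    (fun T => by
      obtain ⟨s, hs, h⟩ := H1 (max T 0)
      have hs0 : s ≤ 0 := by linarith [le_max_right T 0]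
      exact ⟨s, by linarith [le_max_left T 0], fun e he y hy => hmono s hs0 e he y hy (h e he y hy)⟩)
  set K0 : ℝ := 4 / (1 - 4 * a1) with hK0
  -- second step
  have U2 : ∀ a : ℝ, 0 < a → a < 1 / 4 → ∀ t < 0, ∀ e ∈ atlas (En 4) M, ∀ y ∈ ctarget e,
      MeanPinched (4 / (1 - 4 * a)) (g t) e y := by
    intro a ha ha4
    refine hstep 0 K0 a le_rfl (by linarith) ha4 (fun T => ?_)
    refine ⟨-(max T 1), by linarith [le_max_left T 1], fun e he y hy => ?_⟩
    have h1 := U1 (-(max T 1)) (by linarith [le_max_right T 1]) e he y hy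
    rw [zero_mul, zero_add]
    exact h1
  -- before time zero
  have U3 : ∀ t < 0, ∀ e ∈ atlas (En 4) M, ∀ y ∈ ctarget e, ∀ F : Mt 4, Fᵀ * (g t).G e y * F = 1 →
      rot (Rc ((g t).G e) y) F ∈ {R : T4 4 | ∀ P ∈ OrRev, 2 * sT R ≤ 4 * Real.sqrt (sS R * sS (rot R P))} := by
    intro t ht e he y hy F hF P hP
    have hlim : Tendsto (fun a : ℝ => 4 / (1 - 4 * a) *
        Real.sqrt (sS (rot (Rc ((g t).G e) y) F) * sS (rot (rot (Rc ((g t).G e) y) F) P)))
        (𝓝[>] 0) (𝓝 (4 / (1 - 4 * 0) *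
        Real.sqrt (sS (rot (Rc ((g t).G e) y) F) * sS (rot (rot (Rc ((g t).G e) y) F) P)))) := by
      have hc : ContinuousAt (fun a : ℝ => 4 / (1 - 4 * a) *
        Real.sqrt (sS (rot (Rc ((g t).G e) y) F) * sS (rot (rot (Rc ((g t).G e) y) F) P))) 0 := by
        apply ContinuousAt.mul _ continuousAt_const
        apply ContinuousAt.div continuousAt_const (by fun_prop) (by norm_num)
      exact hc.tendsto.mono_left nhdsWithin_le_nhds
    have h4 : (4 : ℝ) / (1 - 4 * 0) = 4 := by norm_num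
    rw [h4] at hlim
    refine ge_of_tendsto hlim ?_
    have hev : ∀ᶠ a : ℝ in 𝓝[>] 0, a ∈ Ioo (0 : ℝ) (1 / 4) := Ioo_mem_nhdsGT (by norm_num)
    filter_upwards [hev] with a ha
    exact (mp_iff he hy).1 (U2 a ha.1 ha.2 t ht e he y hy) F hF P hP
  have hcl : IsClosed {R : T4 4 | ∀ P ∈ OrRev, 2 * sT R ≤ 4 * Real.sqrt (sS R * sS (rot R P))} := by
    have e : {R : T4 4 | ∀ P ∈ OrRev, 2 * sT R ≤ 4 * Real.sqrt (sS R * sS (rot R P))} =
        ⋂ P ∈ OrRev, {R : T4 4 | 2 * sT R ≤ 4 * Real.sqrt (sS R * sS (rot R P))} := by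
      ext R; simp
    rw [e]
    refine isClosed_biInter fun P hP => ?_
    have h1 : Continuous (fun R : T4 4 => sT R) := by
      unfold sT
      have : Continuous (fun R : T4 4 => scal4 R) := LinearMap.continuous_of_finiteDimensional _
      exact this.div_const 4
    have h2 : Continuous (fun R : T4 4 => sS R) := by
      unfold sS
      have : Continuous (fun R : T4 4 => iso4 vid R) := LinearMap.continuous_of_finiteDimensional _
      exact this.div_const 2
    have h3 : Continuous (fun R : T4 4 => sS (rot R P)) := by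
      have h4 : Continuous (fun R : T4 4 => (iso4 vid ∘ₗ rotL P) R) :=
        LinearMap.continuous_of_finiteDimensional _
      have h5 : (fun R : T4 4 => sS (rot R P)) = fun R => (iso4 vid ∘ₗ rotL P) R / 2 := by
        funext R; rfl
      rw [h5]
      exact h4.div_const 2
    exact isClosed_le (continuous_const.mul h1) (continuous_const.mul (Real.continuous_sqrt.comp (h2.mul h3)))
  have hall := closed_zero hg hcl U3
  intro t ht e he y hy
  have hA : ∀ F : Mt 4, Fᵀ * (g t).G e y * F = 1 → ∀ P ∈ OrRev,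
      2 * sT (rot (Rc ((g t).G e) y) F) ≤
        4 * Real.sqrt (sS (rot (Rc ((g t).G e) y) F) * sS (rot (rot (Rc ((g t).G e) y) F) P)) :=
    fun F hF => hall t ht e he y hy F hF
  refine ⟨(mp_iff he hy).2 hA, fun v hv => ?_⟩
  have hF := fmat_frame hv
  have hx : 0 < sT (rot (Rc ((g t).G e) y) (fmat v)) := by
    have h2 := hsc t ht e he y hy
    rw [scalCurv_eq (g t) he hy hF] at h2
    linarith
  have h3 := three (L.isAlg_rot (L.isAlg_Rc (g t) he hy) (fmat v)) (hA _ hF)
    (qf_nonneg_rot (hop t ht) he hy (fmat v)) hx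
  rw [isoCurv_eq, scalCurv_eq (g t) he hy hF]
  linarith


/-- The main theorem. -/
theorem main3 {g : ℝ → Metric 4 M} (hM : CompactSpace M ∨ ∀ s ≤ 0, ∃ (ψ : M → ℝ) (C : ℝ), IsExhaustion g s 0 ψ C)
    (hg : IsAncientFlow g)
    (hop : ∀ t ≤ 0, NonnegOp (g t))
    (hsc : ∀ t ≤ 0, ∀ e ∈ atlas (En 4) M, ∀ y ∈ ctarget e, 0 < scalCurv (g t) e y)
    {c K : ℝ} (hc : c < 1 / 2)
    (H1 : ∀ T : ℝ, ∃ s ≤ -T, ∀ e ∈ atlas (En 4) M, ∀ y ∈ ctarget e,
      MeanPinched (c * Real.log (1 + |s| + 1 / scalCurv (g s) e y) + K) (g s) e y) :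
    ∀ t ≤ 0, ∀ e ∈ atlas (En 4) M, ∀ y ∈ ctarget e, MeanPinched 4 (g t) e y ∧
      ∀ v : Fin 4 → Eu 4, IsFrame (g t) e y v → 3 * scalCurv (g t) e y ≤ 16 * isoCurv (g t) e y v := by
  rcases hM with hM | hM
  · refine core hg hop hsc (fun c K a hc0 hca ha4 H => ?_) hc H1
    exact step hg hop hsc hc0 hca ha4 H (fun s hs ε hε => ⟨univ, isCompact_univ, fun t ht e he y hy hyK =>
      absurd (mem_univ _) hyK⟩)
  · refine core hg hop hsc (fun c K a hc0 hca ha4 H => ?_) hc H1
    exact step3 hg hop hsc hc0 hca ha4 H hM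

end

end Run7.h967.GM
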